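import Mathlib

/-! Harmonic functions and sets of integers closed in the congruence topology. -/

namespace Pool.Agent.Work.MP_997ab3_co.F

/-- The value of `φ` at each vertex is the mean of its values at the neighbours. -/
def IsHarmonicFun {W : Type*} (H : SimpleGraph W) (φ : W → ℤ) : Prop :=
  ∀ x, (φ x : ℚ) = (∑ᶠ y ∈ H.neighborSet x, (φ y : ℚ)) / (H.neighborSet x).ncard

/-- Every integer outside `S` lies in a residue class that misses `S`. -/
def CongClosed (S : Set ℤ) : Prop :=
  ∀ t ∉ S, ∃ M : ℕ, 0 < M ∧ ∀ s ∈ S, ¬s ≡ t [ZMOD M]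

end Pool.Agent.Work.MP_997ab3_co.F
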