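import Pool.Agent.Work.MP_997ab3_co.F.DD

/-! A Thue-Siegel theorem for `γ ξ ^ N` close to one in a number field. -/

namespace Pool.Agent.Work.MP_997ab3_co.F

open Finset NumberField

variable {K : Type*} [Field K] [NumberField K]

lemma abs_le_house (ι : K →+* ℝ) (x : K) : |ι x| ≤ house x := by
  simpa using norm_embedding_le_house x (Complex.ofRealHom.comp ι)

lemma liouville (ι : K →+* ℝ) {x : K} (hx : IsIntegral ℤ x) (h0 : x ≠ 0) :
    1 ≤ |ι x| * house x ^ (Module.finrank ℚ K - 1) := by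
  have h1 := norm_norm_le_norm_mul_house_pow x (Complex.ofRealHom.comp ι)
  obtain ⟨y, hy⟩ := IsIntegrallyClosed.isIntegral_iff.mp (Algebra.isIntegral_norm ℚ hx)
  have h2 : y ≠ 0 := fun h => Algebra.norm_ne_zero_iff.mpr h0 (by rw [← hy, h, map_zero])
  rw [← hy] at h1
  have h3 : (1 : ℝ) ≤ |(y : ℝ)| := by exact_mod_cast Int.one_le_abs h2
  refine h3.trans ?_
  simpa [← Rat.norm_cast_real] using h1

lemma exists_den (γ : K) : ∃ (g : ℕ) (g1 : K), g ≠ 0 ∧ IsIntegral ℤ g1 ∧ g1 = g * γ := by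
  have hx : IsAlgebraic ℤ γ := (IsFractionRing.isAlgebraic_iff ℤ ℚ K).mpr (.of_finite ℚ γ)
  obtain ⟨g, g1, h0, h⟩ := hx.exists_nsmul_eq (integralClosure ℤ K)
  exact ⟨g, g1, h0, g1.2, by rw [← nsmul_eq_mul, h]; rfl⟩

lemma abs_log_le {w ε : ℝ} (h : |w - 1| ≤ ε) (hε : ε ≤ 1 / 2) : 0 < w ∧ |Real.log w| ≤ 2 * ε := by
  obtain ⟨h1, h2⟩ := abs_le.mp h
  have hw : 0 < w := by linarith
  refine ⟨hw, abs_le.mpr ⟨?_, by linarith [Real.log_le_sub_one_of_pos hw]⟩⟩
  have h3 := Real.log_le_sub_one_of_pos (inv_pos.mpr hw)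
  rw [Real.log_inv] at h3
  have h4 : w⁻¹ - 1 ≤ 2 * ε := by
    rw [sub_le_iff_le_add, inv_le_iff_one_le_mul₀ hw]
    nlinarith
  linarith

lemma house_mul_exp {x y : K} {a b : ℝ} (hx : house x ≤ Real.exp a) (hy : house y ≤ Real.exp b) :
    house (x * y) ≤ Real.exp (a + b) := by
  rw [Real.exp_add]
  exact (house_mul_le x y).trans (mul_le_mul hx hy (house_nonneg _) (by positivity))

lemma house_pow_exp {x : K} {a : ℝ} (hx : house x ≤ Real.exp a) (n : ℕ) :
    house (x ^ n) ≤ Real.exp (n * a) := by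
  rw [Real.exp_nat_mul]
  exact (house_pow_le x n).trans (pow_le_pow_left₀ (house_nonneg _) hx n)

lemma core (ι : K →+* ℝ) {N s r : ℕ} (hsN : s < N) {β E Γ h1 h2 u u' : ℝ} (hβ : 0 ≤ β)
    (hΓ : 0 ≤ Γ) {z : ℕ × ℕ → ℤ}
    (hz : ∀ q ∈ range (s + 1) ×ˢ range (r + 1), |(z q : ℝ)| ≤ Real.exp (β * (r + 1)))
    (hE1 : Real.exp (-(β * (r + 1))) ≤ E) (hE2 : E ≤ Real.exp (β * (r + 1))) {ζ : ℝ}
    (hζ : ζ ∈ Set.Icc (0 : ℝ) (N * (r + 1)))
    (hsum : ∑ q ∈ range (s + 1) ×ˢ range (r + 1), z q * Real.exp (u * (q.1 + N * q.2)) =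
      E * u ^ ((s + 1) * r + s) * Real.exp (u * ζ))
    {A B C D : K} (iA : IsIntegral ℤ A) (iB : IsIntegral ℤ B) (iC : IsIntegral ℤ C)
    (iD : IsIntegral ℤ D) (hB : ι B ≠ 0) (hD : ι D ≠ 0)
    (hA' : house A ≤ Real.exp (h1 + h2)) (hB' : house B ≤ Real.exp (h1 + h2))
    (hC' : house C ≤ Real.exp (Γ + N * h1)) (hD' : house D ≤ Real.exp (Γ + N * h1))
    (eAB : ι A = Real.exp (u - u') * ι B) (eCD : ι C = Real.exp (u * N) * ι D)
    (hu : |u| * N ≤ 1) (hu' : |u'| * s ≤ 1)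
    (hlt : Real.exp ((β + 2 * s + 3) * (r + 1)) * |u'| <
      Real.exp (-((β + 1) * (r + 1))) * |u| ^ ((s + 1) * r + s)) :
    1 ≤ |u| ^ ((s + 1) * r + s) * Real.exp (Module.finrank ℚ K *
      ((β + s + 2 + Γ) * (r + 1) + s * (h1 + h2) + r * (N * h1))) := by
  set I := range (s + 1) ×ˢ range (r + 1) with hI
  set m := (s + 1) * r + s with hm
  set Y := (β + s + 2 + Γ) * (r + 1) + s * (h1 + h2) + r * (N * h1) with hY
  have hs0 : (0 : ℝ) ≤ s := by positivity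
  have hr0 : (0 : ℝ) ≤ r := by positivity
  have hI1 : ∀ q ∈ I, q.1 ≤ s := fun q hq =>
    Nat.lt_succ_iff.mp (mem_range.mp (mem_product.mp hq).1)
  have hI2 : ∀ q ∈ I, q.2 ≤ r := fun q hq =>
    Nat.lt_succ_iff.mp (mem_range.mp (mem_product.mp hq).2)
  have hcard : (I.card : ℝ) ≤ Real.exp (s + r) := by
    clear * - I s r hI
    rw [hI, card_product, card_range, card_range, Real.exp_add]
    push_cast
    gcongr <;> exact Real.add_one_le_exp _
  have hbd : ∀ y ∈ Set.Icc (0 : ℝ) (N * (r + 1)), |u * y| ≤ r + 1 := fun y hy => by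
    clear * - u y r N hy hu
    rw [abs_mul, abs_of_nonneg hy.1]
    calc |u| * y ≤ |u| * (N * (r + 1)) := by gcongr; exact hy.2
      _ = (|u| * N) * (r + 1) := by ring
      _ ≤ 1 * (r + 1) := by gcongr
      _ = _ := one_mul _
  set R := E * u ^ m * Real.exp (u * ζ) with hR
  set G := ∑ q ∈ I, z q * (Real.exp (u - u') ^ q.1 * Real.exp (u * N) ^ q.2) with hG
  have hE0 : 0 < E := (Real.exp_pos _).trans_le hE1
  have hRa : |R| = E * |u| ^ m * Real.exp (u * ζ) := by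
    rw [hR, abs_mul, abs_mul, abs_of_pos hE0, abs_pow, abs_of_pos (Real.exp_pos _)]
  have hR1 : Real.exp (-((β + 1) * (r + 1))) * |u| ^ m ≤ |R| := by
    clear * - β r u m R E ζ hRa hE1 hbd hζ hE0
    rw [hRa, show -((β + 1) * ((r : ℝ) + 1)) = -(β * (r + 1)) + -(r + 1) by ring, Real.exp_add,
      mul_right_comm]
    gcongr
    exact (abs_le.mp (hbd ζ hζ)).1
  have hR2 : |R| ≤ Real.exp ((β + 1) * (r + 1)) * |u| ^ m := by
    clear * - R β r u m E ζ hRa hE2 hbd hζ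
    rw [hRa, show (β + 1) * ((r : ℝ) + 1) = β * (r + 1) + (r + 1) by ring, Real.exp_add,
      mul_right_comm _ _ (|u| ^ m)]
    gcongr
    exact (abs_le.mp (hbd ζ hζ)).2
  have hGR : |G - R| ≤ Real.exp ((β + 2 * s + 3) * (r + 1)) * |u'| := by
    clear * - G R β s r u' I z u N hsum hG hI1 hI2 hsN hz hbd hu' hcard hs0 hr0
    rw [← hsum, hG, ← sum_sub_distrib]
    refine (abs_sum_le_sum_abs _ _).trans ((sum_le_card_nsmul _ _
      (Real.exp (β * (r + 1)) * (Real.exp (r + 1) * (2 * (s * |u'|)))) fun q hq => ?_).trans ?_)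
    · have e1 : Real.exp (u - u') ^ q.1 * Real.exp (u * N) ^ q.2 =
          Real.exp (u * (q.1 + N * q.2)) * Real.exp (-(u' * q.1)) := by
        rw [← Real.exp_nat_mul, ← Real.exp_nat_mul, ← Real.exp_add, ← Real.exp_add]
        congr 1; ring
      have q1 : (q.1 : ℝ) ≤ s := by exact_mod_cast hI1 q hq
      have q2 : (q.2 : ℝ) ≤ r := by exact_mod_cast hI2 q hq
      have q3 : (s : ℝ) ≤ N := by exact_mod_cast hsN.le
      have e2 : |-(u' * q.1)| ≤ s * |u'| := by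
        rw [abs_neg, abs_mul, Nat.abs_cast, mul_comm]; gcongr
      rw [e1, ← mul_sub, ← mul_sub_one, abs_mul, abs_mul, abs_of_pos (Real.exp_pos _)]
      gcongr
      · exact hz q hq
      · exact (abs_le.mp (hbd _ ⟨by positivity, by
          linarith only [q1, q3, mul_le_mul_of_nonneg_left q2 (Nat.cast_nonneg (α := ℝ) N)]⟩)).2
      · exact (Real.abs_exp_sub_one_le (by linarith)).trans (by linarith)
    · have e1 : 2 * (s : ℝ) ≤ Real.exp (s + 1) := by
        rw [Real.exp_add]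
        linarith only [mul_le_mul (Real.add_one_le_exp (s : ℝ)) (Real.add_one_le_exp (1 : ℝ))
          (by norm_num) (Real.exp_pos _).le]
      rw [nsmul_eq_mul, ← mul_assoc (2 : ℝ)]
      calc _ ≤ Real.exp (s + r) * (Real.exp (β * (r + 1)) *
            (Real.exp (r + 1) * (Real.exp (s + 1) * |u'|))) := by gcongr
        _ = Real.exp (s + r + β * (r + 1) + (r + 1) + (s + 1)) * |u'| := by
            simp only [Real.exp_add]; ring
        _ ≤ _ := mul_le_mul_of_nonneg_right (Real.exp_le_exp.mpr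
            (by linarith only [mul_nonneg hs0 hr0, hr0])) (abs_nonneg _)
  have hGR' : |G - R| < |R| := (hGR.trans_lt hlt).trans_le hR1
  have hG0 : G ≠ 0 := fun h => by simp [h] at hGR'
  have hG1 : |G| ≤ Real.exp ((β + 2) * (r + 1)) * |u| ^ m := by
    clear * - G R r β u m s hGR' hR2
    have e1 : |G| ≤ |G - R| + |R| := by simpa using abs_add_le (G - R) R
    have e2 : 2 ≤ Real.exp (r + 1 : ℝ) := by linarith [Real.add_one_le_exp (r + 1 : ℝ)]
    rw [show (β + 2) * ((r : ℝ) + 1) = (r + 1) + (β + 1) * (r + 1) by ring, Real.exp_add,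
      mul_assoc]
    linarith only [e1, hGR', mul_le_mul e2 hR2 (abs_nonneg R) (Real.exp_pos _).le]
  set δ := ∑ q ∈ I, (z q : K) * (A ^ q.1 * B ^ (s - q.1) * (C ^ q.2 * D ^ (r - q.2))) with hδ
  have hδ1 : ι δ = G * (ι (B ^ s * D ^ r)) := by
    rw [hδ, hG, map_sum, sum_mul]
    refine sum_congr rfl fun q hq => ?_
    simp only [map_mul, map_pow, map_intCast, eAB, eCD, mul_pow]
    rw [← Nat.add_sub_cancel' (hI1 q hq), ← Nat.add_sub_cancel' (hI2 q hq), pow_add, pow_add,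
      Nat.add_sub_cancel_left, Nat.add_sub_cancel_left]
    ring
  have hδ0 : δ ≠ 0 := fun h => by
    rw [h, map_zero, map_mul, map_pow, map_pow] at hδ1
    exact mul_ne_zero hG0 (mul_ne_zero (pow_ne_zero _ hB) (pow_ne_zero _ hD)) hδ1.symm
  have hδ2 : IsIntegral ℤ δ := IsIntegral.sum _ fun q _ => isIntegral_algebraMap.mul
    (((iA.pow _).mul (iB.pow _)).mul ((iC.pow _).mul (iD.pow _)))
  have hδ3 : house δ ≤ Real.exp Y := by
    refine (house_sum_le_sum_house _ _).trans ((sum_le_card_nsmul _ _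
      (Real.exp (β * (r + 1) + (s * (h1 + h2) + r * (Γ + N * h1)))) fun q hq => ?_).trans ?_)
    · refine house_mul_exp (by rw [house_intCast]; exact_mod_cast hz q hq)
        ((house_mul_exp (house_mul_exp (house_pow_exp hA' _) (house_pow_exp hB' _))
          (house_mul_exp (house_pow_exp hC' _) (house_pow_exp hD' _))).trans (le_of_eq ?_))
      rw [Nat.cast_sub (hI1 q hq), Nat.cast_sub (hI2 q hq)]
      congr 1; ring
    · rw [nsmul_eq_mul]
      refine (mul_le_mul_of_nonneg_right hcard (by positivity)).trans ?_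
      rw [← Real.exp_add]
      gcongr
      rw [hY]
      linarith only [mul_nonneg hs0 hr0, hr0, hΓ]
  have hδ4 : |ι δ| ≤ |u| ^ m * Real.exp Y := by
    have e1 := (abs_le_house ι _).trans (house_mul_exp (house_pow_exp hB' s) (house_pow_exp hD' r))
    rw [hδ1, abs_mul]
    refine (mul_le_mul hG1 e1 (abs_nonneg _) (by clear * - β r u m e1 hG1; positivity)).trans ?_
    rw [mul_comm _ (|u| ^ m), mul_assoc, ← Real.exp_add]
    gcongr
    rw [hY]
    linarith only [mul_nonneg hs0 hr0, hs0, hΓ]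
  have hD1 : 1 ≤ Module.finrank ℚ K := Module.finrank_pos
  calc (1 : ℝ) ≤ |ι δ| * house δ ^ (Module.finrank ℚ K - 1) := liouville ι hδ2 hδ0
    _ ≤ |u| ^ m * Real.exp Y * Real.exp Y ^ (Module.finrank ℚ K - 1) := by
        exact mul_le_mul hδ4 (pow_le_pow_left₀ (house_nonneg δ) hδ3 _)
          (pow_nonneg (house_nonneg δ) _) (by clear * - u m Y δ; positivity)
    _ = _ := by
        rw [mul_assoc, ← pow_succ', Nat.sub_add_cancel hD1, Real.exp_nat_mul]

lemma arith {κ N s β Γ D t h1 h2 U : ℝ} (hκ : 0 < κ) (hs0 : 0 ≤ s) (hβ : 0 ≤ β) (hΓ : 0 ≤ Γ)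
    (hD : 0 ≤ D) (ht : 1 ≤ t) (hs : D * (3 + 1 / κ) ≤ s) (hκN : 3 * s * (s + 2) + 1 ≤ κ * N)
    (hh1 : 1 ≤ h1) (hh2 : 1 ≤ h2) (hU1 : κ * N * h1 ≤ U) (hU2 : 2 * (β + 2 * s + 3 + Γ) + 1 ≤ U)
    (hr2 : κ * N * h2 < (t + 2) * ((s + 1) * U + 2 * (β + 2 * s + 3 + Γ) + 1))
    (hmain : 0 ≤ -(((s + 1) * t + s) * U) +
      D * ((β + s + 2 + Γ) * (t + 1) + s * (h1 + h2) + t * (N * h1))) : False := by
  have hU0 : 0 < U := by linarith
  have htU : 0 < t * U := by positivity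
  have e1 : (β + s + 2 + Γ) * (t + 1) ≤ t * U := by
    clear * - β s Γ t U hs0 ht hβ hΓ hU2
    calc (β + s + 2 + Γ) * (t + 1) ≤ (β + 2 * s + 3 + Γ) * (2 * t) := by
          gcongr
          · linarith
          · linarith
          · linarith
      _ = t * (2 * (β + 2 * s + 3 + Γ)) := by ring
      _ ≤ _ := by gcongr; linarith
  have e2 : s * h1 ≤ t * U := by
    clear * - s h1 U t κ N hs0 hκN hh1 hU1 ht hU0
    calc s * h1 ≤ κ * N * h1 := by gcongr; nlinarith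
      _ ≤ 1 * U := by linarith
      _ ≤ _ := by gcongr
  have e3 : s * h2 ≤ t * U := by
    clear * - s U β Γ hU2 κ N h2 t hr2 ht hs0 hU0 hβ hΓ hκN hh2
    have e4 : (s + 1) * U + 2 * (β + 2 * s + 3 + Γ) + 1 ≤ (s + 2) * U := by linarith
    have e5 : κ * N * h2 ≤ 3 * t * ((s + 2) * U) := hr2.le.trans (by gcongr; linarith)
    have e6 : 3 * s * (s + 2) * h2 ≤ κ * N * h2 :=
      mul_le_mul_of_nonneg_right (by linarith) (by linarith)
    refine le_of_mul_le_mul_left (a := 3 * ((s : ℝ) + 2)) ?_ (by positivity)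
    linarith
  have e4 : t * (N * h1) ≤ t * U * (1 / κ) := by
    rw [mul_assoc]
    exact mul_le_mul_of_nonneg_left (by rw [mul_one_div, le_div_iff₀ hκ]; linarith) (by linarith)
  have e5 : D * ((β + s + 2 + Γ) * (t + 1) + s * (h1 + h2) + t * (N * h1)) ≤ s * (t * U) := by
    clear * - D β s Γ t h1 h2 N κ U e1 e2 e3 e4 hD hs ht hU0
    calc _ ≤ D * ((3 + 1 / κ) * (t * U)) := by gcongr; linarith
      _ ≤ _ := by rw [← mul_assoc]; gcongr
  clear * - s t U D β Γ h1 h2 N hmain htU e5 hs0 hU0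
  nlinarith [mul_nonneg hs0 hU0.le]

theorem siegel (ι : K →+* ℝ) {κ : ℝ} (hκ : 0 < κ) : ∀ᶠ N : ℕ in Filter.atTop, ∀ γ : K,
    ∃ h0 : ℝ, ∀ h, h0 ≤ h → ∀ a b : K, IsIntegral ℤ a → IsIntegral ℤ b → 0 < ι a → 0 < ι b →
      house a ≤ Real.exp h → house b ≤ Real.exp h →
      |ι γ * (ι a / ι b) ^ N - 1| ≤ Real.exp (-(κ * N * h)) → ι γ * (ι a / ι b) ^ N = 1 := by
  obtain ⟨s, hs⟩ := exists_nat_ge ((Module.finrank ℚ K : ℝ) * (3 + 1 / κ))
  obtain ⟨N0, hN0⟩ := exists_nat_ge ((3 * s * (s + 2) + 1) / κ)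
  filter_upwards [Filter.eventually_ge_atTop (max (s + 2) N0)] with N hN γ
  have hsN : s + 2 ≤ N := (le_max_left _ _).trans hN
  have hs0 : (0 : ℝ) ≤ s := by positivity
  have hN2 : (s : ℝ) + 2 ≤ N := by exact_mod_cast hsN
  have hκN : 3 * s * (s + 2) + 1 ≤ κ * N := by
    have : (N0 : ℝ) ≤ N := by exact_mod_cast (le_max_right _ _).trans hN
    rw [div_le_iff₀ hκ] at hN0
    linarith only [hN0, mul_le_mul_of_nonneg_right this hκ.le]
  have hκN1 : 1 ≤ κ * N := by linarith only [hκN, hs0, mul_nonneg hs0 hs0]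
  obtain ⟨β, hβ, happ⟩ := approx N s (by omega)
  obtain ⟨g, g1, hg0, ig1, hg1⟩ := exists_den γ
  set Γ := house (g1 : K) + house (g : K) with hΓ
  have hΓ0 : 0 ≤ Γ := add_nonneg (house_nonneg _) (house_nonneg _)
  have hΓ1 : house (g1 : K) ≤ Real.exp Γ := by
    linarith [Real.add_one_le_exp Γ, house_nonneg (g : K)]
  have hΓ2 : house (g : K) ≤ Real.exp Γ := by
    linarith [Real.add_one_le_exp Γ, house_nonneg (g1 : K)]
  by_contra hcon
  push Not at hcon
  have key : ∀ h0 : ℝ, ∃ (h : ℝ) (a b : K) (u : ℝ), h0 ≤ h ∧ 1 ≤ h ∧ IsIntegral ℤ a ∧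
      IsIntegral ℤ b ∧ 0 < ι a ∧ 0 < ι b ∧ house a ≤ Real.exp h ∧ house b ≤ Real.exp h ∧ u ≠ 0 ∧
      |u| * N ≤ 1 ∧ |u| ≤ Real.exp (-(κ * N * h)) ∧
      Real.exp (u * N) = ι γ * (ι a / ι b) ^ N := by
    intro h0
    obtain ⟨h, hh, a, b, ia, ib, pa, pb, ha, hb, hw, hw1⟩ := hcon (max h0 1)
    have h1 : 1 ≤ h := (le_max_right _ _).trans hh
    have h2 : Real.exp (-(κ * N * h)) ≤ 1 / 2 := by
      rw [Real.exp_neg, one_div]
      refine inv_anti₀ two_pos ?_
      linarith only [Real.add_one_le_exp (κ * N * h), one_le_mul_of_one_le_of_one_le hκN1 h1]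
    obtain ⟨h3, h4⟩ := abs_log_le hw h2
    have hN' : (0 : ℝ) < N := by clear * - N s hN2; linarith
    have h5 : |Real.log (ι γ * (ι a / ι b) ^ N) / N| * N = |Real.log (ι γ * (ι a / ι b) ^ N)| := by
      clear * - K ι γ a b N hN'
      rw [abs_div, abs_of_pos hN']; field_simp
    refine ⟨h, a, b, Real.log (ι γ * (ι a / ι b) ^ N) / N, (le_max_left _ _).trans hh, h1, ia, ib,
      pa, pb, ha, hb, div_ne_zero (Real.log_ne_zero_of_pos_of_ne_one h3 hw1) hN'.ne',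
      by clear * - K ι γ a b N κ h h2 h4 h5 h3 hN'; linarith, ?_, by rw [div_mul_cancel₀ _ hN'.ne', Real.exp_log h3]⟩
    linarith only [h4, h5, mul_le_mul_of_nonneg_left (show (2 : ℝ) ≤ N by linarith only [hN2, hs0])
      (abs_nonneg (Real.log (ι γ * (ι a / ι b) ^ N) / N))]
  set b' := β + 2 * s + 3 + Γ with hb'
  obtain ⟨h1, a1, b1, u, hh1, hh1', ia1, ib1, pa1, pb1, ha1, hb1, hu0, hu1, hu2, hu3⟩ :=
    key (2 * b' + 1)
  set U := -Real.log |u| with hU
  have hup : 0 < |u| := abs_pos.mpr hu0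
  have hU1 : κ * N * h1 ≤ U := by
    have := (Real.log_le_iff_le_exp hup).mpr hu2
    linarith
  have hU2 : 2 * b' + 1 ≤ U := by
    linarith only [hh1, hU1, mul_le_mul_of_nonneg_right hκN1 (zero_le_one.trans hh1')]
  have hb0 : 0 ≤ b' := by clear * - b' β s Γ hβ hΓ0; positivity
  set Q := (s + 1) * U + 2 * b' + 1 with hQ
  have hQ0 : 0 < Q := by
    linarith only [hQ, hb0, mul_nonneg (add_nonneg hs0 zero_le_one)
      (show 0 ≤ U by linarith only [hU2, hb0])]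
  obtain ⟨h2, a2, b2, u', hh2, hh2', ia2, ib2, pa2, pb2, ha2, hb2, -, hv1, hv2, hv3⟩ :=
    key (2 * Q)
  obtain ⟨r, hr⟩ : ∃ r : ℕ, ⌊κ * N * h2 / Q⌋₊ = r + 2 := Nat.exists_eq_add_of_le' (by
    rw [Nat.le_floor_iff (by clear * - κ N h2 Q hκN1 hh2' hQ0; positivity), le_div_iff₀ hQ0]
    push_cast
    linarith only [hh2, mul_le_mul_of_nonneg_right hκN1 (zero_le_one.trans hh2')])
  have hr1 : ((r + 1 : ℕ) + 1) * Q ≤ κ * N * h2 := by
    have := Nat.floor_le (a := κ * N * h2 / Q) (by clear * - κ N h2 Q hκN1 hh2' hQ0; positivity)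
    rw [hr, le_div_iff₀ hQ0] at this
    push_cast at this ⊢
    linarith
  have hr2 : κ * N * h2 < ((r + 1 : ℕ) + 2) * Q := by
    have := Nat.lt_floor_add_one (κ * N * h2 / Q)
    rw [hr, div_lt_iff₀ hQ0] at this
    push_cast at this ⊢
    linarith
  generalize hr' : r + 1 = t at hr1 hr2
  have ht : (1 : ℝ) ≤ t := by clear * - t r hr'; rw [← hr']; push_cast; linarith [Nat.cast_nonneg (α := ℝ) r]
  obtain ⟨z, E, hz, hE1, hE2, hsum⟩ := happ t
  obtain ⟨ζ, hζ, hsum⟩ := hsum u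
  have hupow : |u| ^ ((s + 1) * t + s) = Real.exp (-(((s + 1) * t + s) * U)) := by
    rw [hU, mul_neg, neg_neg, ← Real.exp_log (pow_pos hup _), Real.log_pow]
    push_cast
    rfl
  have hγ : ι γ ≠ 0 := fun h => by simp [h] at hu3
  have hgr : (0 : ℝ) < g := by exact_mod_cast Nat.pos_of_ne_zero hg0
  have hg2 : ι g1 = g * ι γ := by rw [hg1, map_mul, map_natCast]
  have hmain := core ι (by omega : s < N) (h1 := h1) (h2 := h2) (u' := u') hβ hΓ0 hz hE1 hE2 hζ
    hsum (ia1.mul ib2) (ib1.mul ia2) (ig1.mul (ia1.pow N))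
    ((isIntegral_natCast g).mul (ib1.pow N)) (by rw [map_mul]; positivity)
    (by rw [map_mul, map_pow, map_natCast]; positivity) (house_mul_exp ha1 hb2)
    (house_mul_exp hb1 ha2) (house_mul_exp hΓ1 (house_pow_exp ha1 N))
    (house_mul_exp hΓ2 (house_pow_exp hb1 N)) (by
      have e1 : Real.exp (u - u') ^ N = (ι a1 * ι b2 / (ι b1 * ι a2)) ^ N := by
        clear * - u u' N K ι a1 b2 b1 a2 γ hu3 hv3 hγ pb2 pa2 pb1 pa1
        rw [← Real.exp_nat_mul, mul_sub, Real.exp_sub, mul_comm _ u, mul_comm _ u', hu3, hv3]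
        simp only [div_pow, mul_pow]
        field_simp
      rw [(pow_left_inj₀ (by positivity) (by positivity) (by omega)).mp e1, map_mul, map_mul]
      field_simp) (by
      clear * - K ι g1 a1 N u g b1 γ hu3 hg2 pb1 pa1 hγ hg0 hN2 hQ hU2 hb' hb0 hr1 hs0 ht hu1
        hupow hv1 hv2 hΓ0 u'
      rw [hu3, map_mul, map_mul, map_pow, map_pow, map_natCast, hg2, div_pow]
      field_simp) hu1
      ((mul_le_mul_of_nonneg_left (by linarith only [hN2]) (abs_nonneg u')).trans hv1) (by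
      rw [hupow, ← Real.exp_add]
      refine (mul_le_mul_of_nonneg_left hv2 (by positivity)).trans_lt ?_
      rw [← Real.exp_add, Real.exp_lt_exp]
      rw [hQ, hb'] at hr1
      linarith only [hr1, hU2, hb0, ht, hs0, hΓ0, mul_nonneg hΓ0 (zero_le_one.trans ht),
        mul_nonneg hs0 (zero_le_one.trans ht)])
  rw [hupow, ← Real.exp_add, Real.one_le_exp_iff] at hmain
  exact arith hκ hs0 hβ hΓ0 (by positivity) ht hs hκN hh1' hh2' hU1 hU2 hr2 hmain

end Pool.Agent.Work.MP_997ab3_co.F
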