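import Mathlib
import Pool.Agent.Work.MP_997ab3_co.F.Siegel
import Pool.Agent.Work.MP_997ab3_co.Defs
import Pool.Agent.Work.MP_997ab3_co.F.Defs

-- merged part: Pool.Agent.Work.MP_997ab3_co.Shatter
section
-- merged part: Pool.Agent.Work.MP_997ab3_co.Basic
section
/-! The transfer operator of the product with the integer line. -/

namespace Pool.Agent.Work.MP_997ab3_co

open Finset Polynomial

variable {V : Type*} (G : SimpleGraph V) [G.LocallyFinite]

/-- The operator `L + 2` on functions. -/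
noncomputable def Sf (ψ : V → ℝ) (v : V) : ℝ :=
  ((G.degree v : ℝ) + 2) * ψ v - ∑ w ∈ G.neighborFinset v, ψ w

/-- Point mass. -/
noncomputable abbrev dl (v : V) : V →₀ ℝ := Finsupp.single v 1

/-- The operator `L + 2` on finitely supported functions. -/
noncomputable def So : Module.End ℝ (V →₀ ℝ) :=
  Finsupp.linearCombination ℝ fun v =>
    ((G.degree v : ℝ) + 2) • dl v - ∑ w ∈ G.neighborFinset v, dl w

/-- Pairing. -/
noncomputable def Bp (ψ : V → ℝ) : (V →₀ ℝ) →ₗ[ℝ] ℝ := Finsupp.linearCombination ℝ ψ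

@[simp] lemma Bp_single (ψ : V → ℝ) (v : V) (c : ℝ) : Bp ψ (Finsupp.single v c) = c * ψ v := by
  simp [Bp]

lemma So_dl (v : V) :
    So G (dl v) = ((G.degree v : ℝ) + 2) • dl v - ∑ w ∈ G.neighborFinset v, dl w := by
  simp [So]

lemma Bp_So (ψ : V → ℝ) (f : V →₀ ℝ) : Bp ψ (So G f) = Bp (Sf G ψ) f := by
  have : (Bp ψ).comp (So G) = Bp (Sf G ψ) := by
    ext v
    simp [So, Sf, map_sum, add_mul]
  exact LinearMap.congr_fun this f

lemma Bp_eq_sum (ψ : V → ℝ) (f : V →₀ ℝ) {K : Finset V} (h : f.support ⊆ K) :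
    Bp ψ f = ∑ y ∈ K, f y * ψ y := by
  rw [Bp, Finsupp.linearCombination_apply, Finsupp.sum_of_support_subset _ h]
  · simp
  · simp

lemma Bp_comm (f g : V →₀ ℝ) : Bp g f = Bp f g := by
  classical
  rw [Bp_eq_sum _ f (subset_union_left (s₂ := g.support)),
    Bp_eq_sum _ g (subset_union_right (s₁ := f.support))]
  exact sum_congr rfl fun _ _ => mul_comm _ _

lemma Bp_congr {ψ χ : V → ℝ} (f : V →₀ ℝ) (h : ∀ y ∈ f.support, ψ y = χ y) :
    Bp ψ f = Bp χ f := by
  rw [Bp_eq_sum _ f subset_rfl, Bp_eq_sum _ f subset_rfl]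
  exact sum_congr rfl fun y hy => by rw [h y hy]

lemma Bp_smul (c : ℝ) (ψ : V → ℝ) (f : V →₀ ℝ) : Bp (fun y => c * ψ y) f = c * Bp ψ f := by
  rw [Bp_eq_sum _ f subset_rfl, Bp_eq_sum _ f subset_rfl, mul_sum]
  exact sum_congr rfl fun y _ => by ring

lemma Bp_dl (f : V →₀ ℝ) (y : V) : Bp (dl y) f = f y := by
  rw [Bp_comm]; simp

lemma Sf_So_dl (y : V) : Sf G (dl y) = So G (dl y) := by
  classical
  ext v
  rw [So_dl]
  simp only [Sf, Finsupp.coe_sub, Finsupp.coe_smul, Pi.sub_apply, Pi.smul_apply, smul_eq_mul,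
    Finsupp.finsetSum_apply, Finsupp.single_apply]
  congr 1
  · split_ifs with h
    · subst h; rfl
    · simp
  · simp only [sum_ite_eq, sum_ite_eq', SimpleGraph.mem_neighborFinset, G.adj_comm]

lemma So_apply (f : V →₀ ℝ) (y : V) : So G f y = Sf G f y := by
  rw [← Bp_dl, Bp_So, Sf_So_dl, Bp_comm, Bp_So]
  simp

lemma coe_So (f : V →₀ ℝ) : ⇑(So G f) = Sf G f := funext (So_apply G f)

lemma Bp_So_symm (f g : V →₀ ℝ) : Bp g (So G f) = Bp f (So G g) := by
  rw [Bp_So, ← coe_So, Bp_comm]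

lemma Bp_pow_symm (k : ℕ) (f g : V →₀ ℝ) : Bp g ((So G ^ k) f) = Bp f ((So G ^ k) g) := by
  induction k generalizing f g with
  | zero => simpa using Bp_comm f g
  | succ k ih =>
    rw [pow_succ', Module.End.mul_apply, Bp_So_symm, Bp_comm, ih, ← Module.End.mul_apply,
      ← pow_succ, pow_succ']

lemma Bp_aeval_symm (p : ℝ[X]) (f g : V →₀ ℝ) :
    Bp g (aeval (So G) p f) = Bp f (aeval (So G) p g) := by
  induction p using Polynomial.induction_on' with
  | add p q hp hq => simp [hp, hq]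
  | monomial k c =>
    simp only [aeval_monomial, Module.End.mul_apply, Module.algebraMap_end_apply, map_smul]
    rw [Bp_pow_symm]

/-- Shifted Chebyshev polynomials. -/
noncomputable def Pc (n : ℤ) : ℝ[X] := Chebyshev.S ℝ (n - 1)

lemma Pc_zero : Pc 0 = 0 := by simp [Pc]
lemma Pc_one : Pc 1 = 1 := by simp [Pc]
lemma Pc_rec (n : ℤ) : Pc (n + 1) + Pc (n - 1) = X * Pc n := by
  have := Chebyshev.S_add_one ℝ (n - 1)
  unfold Pc
  rw [show n + 1 - 1 = n - 1 + 1 by ring, this]; ring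
lemma Pc_neg (n : ℤ) : Pc (-n) = -Pc n := Chebyshev.S_neg_sub_one ℝ n

/-- The fundamental solution operators. -/
noncomputable def U (n : ℤ) : Module.End ℝ (V →₀ ℝ) := aeval (So G) (Pc n)

@[simp] lemma U_zero (f : V →₀ ℝ) : U G 0 f = 0 := by simp [U, Pc_zero]
@[simp] lemma U_one (f : V →₀ ℝ) : U G 1 f = f := by simp [U, Pc_one]
lemma U_neg (n : ℤ) (f : V →₀ ℝ) : U G (-n) f = -U G n f := by simp [U, Pc_neg]
@[simp] lemma U_neg_one (f : V →₀ ℝ) : U G (-1) f = -f := by rw [U_neg, U_one]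
lemma U_rec (n : ℤ) (f : V →₀ ℝ) : U G (n + 1) f + U G (n - 1) f = So G (U G n f) := by
  rw [← LinearMap.add_apply, U, U, ← map_add, Pc_rec, map_mul, aeval_X]; rfl
lemma U_rec' (n : ℤ) (f : V →₀ ℝ) : U G (n + 1) f + U G (n - 1) f = U G n (So G f) := by
  rw [← LinearMap.add_apply, U, U, ← map_add, Pc_rec, mul_comm, map_mul, aeval_X]; rfl

lemma U_symm (n : ℤ) (v y : V) : U G n (dl v) y = U G n (dl y) v := by
  rw [← Bp_dl, U, Bp_aeval_symm, Bp_dl]

lemma rec_unique {A : Type*} [AddCommGroup A] (T : A → A) (hT : T 0 = 0) (y : ℤ → A)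
    (h : ∀ n, y (n + 1) + y (n - 1) = T (y n)) (h0 : y 0 = 0) (h1 : y 1 = 0) (n : ℤ) :
    y n = 0 := by
  have key : ∀ n : ℤ, y n = 0 ∧ y (n + 1) = 0 := by
    intro n
    induction n using Int.induction_on with
    | zero => exact ⟨h0, by simpa using h1⟩
    | succ k ih =>
      refine ⟨ih.2, ?_⟩
      have := h (k + 1)
      rw [ih.2, hT, show (k : ℤ) + 1 - 1 = k by ring, ih.1, add_zero] at this
      exact this
    | pred k ih =>
      refine ⟨?_, by simpa using ih.1⟩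
      have := h (-k)
      rw [ih.2, ih.1, hT, zero_add] at this
      exact this
  exact (key n).1

/-- Solutions of the recurrence with values in finitely supported functions. -/
def Sol (e : ℤ → V →₀ ℝ) : Prop := ∀ n, e (n + 1) + e (n - 1) = So G (e n)

lemma Sol.eq {G : SimpleGraph V} [G.LocallyFinite] {e : ℤ → V →₀ ℝ} (h : Sol G e) (n : ℤ) :
    e n = U G n (e 1) - U G (n - 1) (e 0) := by
  have := rec_unique (So G) (map_zero _) (fun n => e n - (U G n (e 1) - U G (n - 1) (e 0)))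
    (fun n => by
      have h1 := h n
      have h2 := U_rec G n (e 1)
      have h3 := U_rec G (n - 1) (e 0)
      simp only [map_sub, ← h1, ← h2, ← h3, sub_add_cancel, add_sub_cancel_right]
      abel) (by simp) (by simp) n
  exact sub_eq_zero.mp this

lemma sol_U (a : ℤ) (f : V →₀ ℝ) : Sol G fun n => U G (a - n) f := by
  intro n
  have := U_rec G (a - n) f
  simp only
  rw [← this, add_comm]
  congr 3 <;> ring

lemma Sol.sub {G : SimpleGraph V} [G.LocallyFinite] {e e' : ℤ → V →₀ ℝ} (h : Sol G e)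
    (h' : Sol G e') : Sol G fun n => e n - e' n := by
  intro n
  simp only [map_sub, ← h n, ← h' n]; abel

lemma Sol.smul {G : SimpleGraph V} [G.LocallyFinite] {e : ℤ → V →₀ ℝ} (h : Sol G e) (c : ℝ) :
    Sol G fun n => c • e n := by
  intro n
  simp only [map_smul, ← h n, smul_add]

lemma support_map_subset [DecidableEq V] (T : Module.End ℝ (V →₀ ℝ)) {f : V →₀ ℝ}
    {F : Finset V} (h : f.support ⊆ F) :
    (T f).support ⊆ F.biUnion fun y => (T (dl y)).support := by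
  intro z hz
  by_contra hn
  apply Finsupp.mem_support_iff.mp hz
  have hf : f = ∑ y ∈ F, f y • dl y := by
    conv_lhs => rw [← Finsupp.sum_single f, Finsupp.sum_of_support_subset _ h _ (by simp)]
    simp
  rw [hf, map_sum, Finsupp.finsetSum_apply]
  refine sum_eq_zero fun y hy => ?_
  have : T (dl y) z = 0 := by
    by_contra h0
    exact hn (mem_biUnion.mpr ⟨y, hy, Finsupp.mem_support_iff.mpr h0⟩)
  rw [map_smul, Finsupp.smul_apply, this, smul_zero]

/-- Finite propagation. -/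
lemma grow (F : Finset V) : ∃ FF : ℤ → Finset V, ∀ e, Sol G e → (e 0).support ⊆ F →
    (e 1).support ⊆ F → ∀ n, (e n).support ⊆ FF n := by
  classical
  refine ⟨fun n => (F.biUnion fun y => (U G n (dl y)).support) ∪
    (F.biUnion fun y => (U G (n - 1) (dl y)).support), fun e he h0 h1 n => ?_⟩
  rw [he.eq n]
  exact Finsupp.support_sub.trans
    (union_subset_union (support_map_subset _ h1) (support_map_subset _ h0))

lemma Sf_one : Sf G (fun _ => 1) = fun _ => 2 * 1 := by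
  ext v; simp [Sf]

/-- Total mass. -/
noncomputable def mass : (V →₀ ℝ) →ₗ[ℝ] ℝ := Bp fun _ => 1

@[simp] lemma mass_single (v : V) (c : ℝ) : mass (Finsupp.single v c) = c := by simp [mass]

lemma mass_So (f : V →₀ ℝ) : mass (So G f) = 2 * mass f := by
  rw [mass, Bp_So, Sf_one, Bp_smul]

lemma mass_U (n : ℤ) (f : V →₀ ℝ) : mass (U G n f) = n * mass f := by
  have := rec_unique (fun t : ℝ => 2 * t) (by simp) (fun n => mass (U G n f) - n * mass f)
    (fun n => by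
      have h := congrArg mass (U_rec G n f)
      rw [map_add, mass_So] at h
      push_cast
      linarith) (by simp) (by simp) n
  linarith

lemma U_int (n : ℤ) (v y : V) : ∃ k : ℤ, U G n (dl v) y = k := by
  classical
  have step : ∀ f : V →₀ ℝ, (∀ y, ∃ k : ℤ, f y = k) → ∀ y, ∃ k : ℤ, So G f y = k := by
    intro f hf y
    choose k hk using hf
    refine ⟨(G.degree y + 2) * k y - ∑ w ∈ G.neighborFinset y, k w, ?_⟩
    rw [So_apply, Sf]; simp [hk]
  have key : ∀ n : ℤ, (∀ y, ∃ k : ℤ, U G n (dl v) y = k) ∧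
      (∀ y, ∃ k : ℤ, U G (n + 1) (dl v) y = k) := by
    intro n
    induction n using Int.induction_on with
    | zero =>
      refine ⟨fun y => ⟨0, by simp⟩, fun y => ⟨if v = y then 1 else 0, ?_⟩⟩
      simp [Finsupp.single_apply]
    | succ k ih =>
      refine ⟨ih.2, fun y => ?_⟩
      obtain ⟨a, ha⟩ := step _ ih.2 y
      obtain ⟨b, hb⟩ := ih.1 y
      have := DFunLike.congr_fun (U_rec G (k + 1) (dl v)) y
      rw [Finsupp.add_apply, ha, add_sub_cancel_right, hb] at this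
      exact ⟨a - b, by push_cast; linarith⟩
    | pred k ih =>
      refine ⟨fun y => ?_, by simpa using ih.1⟩
      obtain ⟨a, ha⟩ := step _ ih.1 y
      obtain ⟨b, hb⟩ := ih.2 y
      have := DFunLike.congr_fun (U_rec G (-k) (dl v)) y
      rw [Finsupp.add_apply, ha, hb] at this
      exact ⟨a - b, by push_cast; linarith⟩
  exact (key n).1 y

/-- Points of bounded level whose functional meets `K`. -/
def near (R : ℤ) (K : Finset V) : Set (V × ℤ) :=
  {P | |P.2| ≤ R ∧ ∃ y ∈ K, U G P.2 (dl P.1) y ≠ 0 ∨ U G (P.2 - 1) (dl P.1) y ≠ 0}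

lemma near_finite (R : ℤ) (K : Finset V) : (near G R K).Finite := by
  classical
  refine (Set.Finite.biUnion (Set.finite_Icc (-R) R) fun a _ =>
    Set.Finite.biUnion K.finite_toSet fun y _ =>
      (((U G a (dl y)).support ∪ (U G (a - 1) (dl y)).support).finite_toSet.image
        fun v => (v, a))).subset ?_
  rintro ⟨v, a⟩ ⟨ha, y, hy, h⟩
  simp only [Set.mem_iUnion]
  refine ⟨a, abs_le.mp ha, y, hy, v, ?_, rfl⟩
  simp only [coe_union, Set.mem_union, mem_coe, Finsupp.mem_support_iff]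
  rwa [U_symm G a y, U_symm G (a - 1) y]

/-- No finite component. -/
def NoFin : Prop := ∀ v, {w | G.Reachable v w}.Infinite

lemma closed_empty {G : SimpleGraph V} (hG : NoFin G) {A : Set V} (hA : A.Finite)
    (hcl : ∀ y ∈ A, ∀ w, G.Adj y w → w ∈ A) : A = ∅ := by
  by_contra hne
  obtain ⟨v, hv⟩ := Set.nonempty_iff_ne_empty.mpr hne
  refine hG v (hA.subset ?_)
  rintro w ⟨p⟩
  induction p with
  | nil => exact hv
  | cons h _ ih => exact ih (hcl _ hv _ h)

lemma exists_adj {G : SimpleGraph V} (hG : NoFin G) (v : V) : ∃ w, G.Adj v w := by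
  by_contra h
  push Not at h
  have := closed_empty hG (Set.finite_singleton v) (by rintro y rfl w hw; exact (h w hw).elim)
  simp at this

/-- Minimum principle. -/
lemma min_principle {G : SimpleGraph V} [G.LocallyFinite] (hG : NoFin G) (K : Finset V)
    (ψ : V → ℝ) {μ m : ℝ} (hμ : μ ≤ 2) (hm : m ≤ 0) (hlow : ∀ y, m ≤ ψ y)
    (hout : ∀ y ∉ K, m < ψ y) (hsup : ∀ y ∈ K, μ * ψ y ≤ Sf G ψ y) (y : V) : m < ψ y := by
  have hA : {y | ψ y = m} = ∅ := by
    refine closed_empty hG (K.finite_toSet.subset fun y hy => ?_) fun y hy w hw => ?_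
    · by_contra hn
      exact (hout y hn).ne' hy
    · have hyK : y ∈ K := by
        by_contra hn
        exact (hout y hn).ne' hy
      have h1 := hsup y hyK
      have hy' : ψ y = m := hy
      have h2 : ∑ w ∈ G.neighborFinset y, (ψ w - m) ≤ 0 := by
        rw [sum_sub_distrib, sum_const, G.card_neighborFinset_eq_degree, nsmul_eq_mul]
        rw [Sf, hy'] at h1
        nlinarith
      have h3 := (sum_eq_zero_iff_of_nonneg fun w _ => sub_nonneg.mpr (hlow w)).mp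
        (le_antisymm h2 (sum_nonneg fun w _ => sub_nonneg.mpr (hlow w))) w
        ((G.mem_neighborFinset y w).mpr hw)
      exact sub_eq_zero.mp h3
  refine lt_of_le_of_ne (hlow y) fun h => ?_
  have : y ∈ {y | ψ y = m} := h.symm
  rw [hA] at this
  exact this

lemma nonneg_of_super {G : SimpleGraph V} [G.LocallyFinite] (hG : NoFin G) (K : Finset V)
    (ψ : V → ℝ) {μ : ℝ} (hμ : μ ≤ 2) (hout : ∀ y ∉ K, 0 ≤ ψ y)
    (hsup : ∀ y ∈ K, μ * ψ y ≤ Sf G ψ y) (y : V) : 0 ≤ ψ y := by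
  by_contra hy
  push Not at hy
  have hyK : y ∈ K := by
    by_contra hn
    exact absurd (hout y hn) (not_le.mpr hy)
  obtain ⟨z, hz, hmin⟩ := exists_min_image K ψ ⟨y, hyK⟩
  have hz0 : ψ z < 0 := (hmin y hyK).trans_lt hy
  have := min_principle hG K ψ hμ hz0.le (fun w => by
    by_cases hw : w ∈ K
    · exact hmin w hw
    · exact hz0.le.trans (hout w hw)) (fun w hw => hz0.trans_le (hout w hw)) hsup z
  exact lt_irrefl _ this

lemma Sf_neg (ψ : V → ℝ) (y : V) : Sf G (fun w => -ψ w) y = -Sf G ψ y := by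
  simp [Sf]; ring

lemma eq_zero_of_eigen {G : SimpleGraph V} [G.LocallyFinite] (hG : NoFin G) (K : Finset V)
    (ψ : V → ℝ) {μ : ℝ} (hμ : μ ≤ 2) (hout : ∀ y ∉ K, ψ y = 0)
    (heq : ∀ y ∈ K, Sf G ψ y = μ * ψ y) (y : V) : ψ y = 0 := by
  have h1 := nonneg_of_super hG K ψ hμ (fun y hy => (hout y hy).ge) (fun y hy => (heq y hy).ge) y
  have h2 := nonneg_of_super hG K (fun w => -ψ w) hμ (fun y hy => by simp [hout y hy])
    (fun y hy => by rw [Sf_neg, heq y hy]; simp) y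
  linarith

/-- Positive eigenfunctions on finite sets. -/
lemma exists_pos_eigen {G : SimpleGraph V} [G.LocallyFinite] (hG : NoFin G) (K : Finset V)
    {μ : ℝ} (hμ : μ ≤ 2) : ∃ ψ : V → ℝ, (∀ y, 0 < ψ y) ∧ ∀ y ∈ K, Sf G ψ y = μ * ψ y := by
  classical
  let ex : (K → ℝ) →ₗ[ℝ] (V → ℝ) :=
    { toFun := fun x y => if h : y ∈ K then x ⟨y, h⟩ else 0
      map_add' := fun x x' => by ext y; by_cases h : y ∈ K <;> simp [h]
      map_smul' := fun c x => by ext y; by_cases h : y ∈ K <;> simp [h] }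
  let A : (V → ℝ) →ₗ[ℝ] (K → ℝ) :=
    { toFun := fun ψ y => Sf G ψ y - μ * ψ y
      map_add' := fun x x' => by ext y; simp [Sf, sum_add_distrib]; ring
      map_smul' := fun c x => by ext y; simp [Sf, ← mul_sum]; ring }
  have hinj : Function.Injective (A.comp ex) := by
    rw [injective_iff_map_eq_zero]
    intro x hx
    ext y
    have := eq_zero_of_eigen hG K (ex x) hμ (fun y hy => by simp [ex, hy])
      (fun y hy => sub_eq_zero.mp (congrFun hx ⟨y, hy⟩)) y
    simpa [ex] using this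
  set χ : V → ℝ := fun y => if y ∈ K then 0 else 1 with hχ
  obtain ⟨x, hx⟩ := LinearMap.injective_iff_surjective.mp hinj (-A χ)
  have heq : ∀ y ∈ K, Sf G (ex x + χ) y = μ * (ex x + χ) y := by
    intro y hy
    have : A (ex x + χ) = 0 := by rw [map_add, ← LinearMap.comp_apply, hx]; simp
    exact sub_eq_zero.mp (congrFun this ⟨y, hy⟩)
  have hout : ∀ y ∉ K, 0 < (ex x + χ) y := fun y hy => by simp [ex, hχ, hy]
  exact ⟨ex x + χ, min_principle hG K _ hμ le_rfl
    (nonneg_of_super hG K _ hμ (fun y hy => (hout y hy).le) fun y hy => (heq y hy).ge) hout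
    fun y hy => (heq y hy).ge, heq⟩

end Pool.Agent.Work.MP_997ab3_co
end

-- merged part: Pool.Agent.Work.MP_997ab3_co.Shatter
section
/-! A shattering argument with oscillating harmonic functions. -/

namespace Pool.Agent.Work.MP_997ab3_co

open Finset Real

lemma exists_sin_pos {p q : ℝ} (h : π < q - p) : ∃ x ∈ Set.Ioo p q, 0 < sin x := by
  have hπ := pi_pos
  obtain ⟨x, hx, hs⟩ : ∃ x ∈ Set.Ioo p (q - π), sin x ≠ 0 := by
    set ε := min (q - π - p) π with hε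
    have h0 : 0 < ε := lt_min (by linarith) hπ
    have h1 : ε ≤ q - π - p := min_le_left _ _
    have h2 : ε ≤ π := min_le_right _ _
    by_cases hs : sin (p + ε / 3) = 0
    · refine ⟨p + ε / 3 + ε / 3, ⟨by linarith, by linarith⟩, ?_⟩
      rw [sin_add, hs, zero_mul, zero_add]
      have hc : cos (p + ε / 3) ≠ 0 := by
        intro hc
        have := sin_sq_add_cos_sq (p + ε / 3)
        rw [hs, hc] at this
        norm_num at this
      exact mul_ne_zero hc (sin_pos_of_pos_of_lt_pi (by linarith) (by linarith)).ne'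
    · exact ⟨p + ε / 3, ⟨by linarith, by linarith⟩, hs⟩
  rcases hs.lt_or_gt with hs | hs
  · exact ⟨x + π, ⟨by linarith [hx.1], by linarith [hx.2]⟩, by rw [sin_add_pi]; linarith⟩
  · exact ⟨x, ⟨hx.1, by linarith [hx.2]⟩, hs⟩

lemma exists_sin_mul_pos {k p q : ℝ} (h : π < |k| * (q - p)) :
    ∃ θ ∈ Set.Ioo p q, 0 < sin (k * θ) := by
  have hπ := pi_pos
  rcases lt_trichotomy k 0 with hk | hk | hk
  · rw [abs_of_neg hk] at h
    obtain ⟨x, hx, hs⟩ := exists_sin_pos (p := k * q) (q := k * p) (by linarith)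
    refine ⟨x / k, ⟨?_, ?_⟩, by rwa [mul_div_cancel₀ _ hk.ne]⟩
    · rw [lt_div_iff_of_neg hk]; linarith [hx.2]
    · rw [div_lt_iff_of_neg hk]; linarith [hx.1]
  · subst hk; simp at h; linarith
  · rw [abs_of_pos hk] at h
    obtain ⟨x, hx, hs⟩ := exists_sin_pos (p := k * p) (q := k * q) (by linarith)
    refine ⟨x / k, ⟨?_, ?_⟩, by rwa [mul_div_cancel₀ _ hk.ne']⟩
    · rw [lt_div_iff₀ hk]; linarith [hx.1]
    · rw [div_lt_iff₀ hk]; linarith [hx.2]

lemma exists_half_period {p q : ℝ} (h : 3 * π ≤ q - p) :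
    ∃ s, p ≤ s ∧ s + π ≤ q ∧ ∀ x ∈ Set.Ioo s (s + π), 0 < sin x := by
  have hπ := pi_pos
  set m : ℤ := ⌈p / (2 * π)⌉ with hm
  have h1 : p / (2 * π) ≤ m := Int.le_ceil _
  have h2 : (m : ℝ) < p / (2 * π) + 1 := Int.ceil_lt_add_one _
  rw [div_le_iff₀ (by positivity)] at h1
  have h3 : (m : ℝ) * (2 * π) < p + 2 * π := by
    have := mul_lt_mul_of_pos_right h2 (by positivity : 0 < 2 * π)
    rwa [add_mul, div_mul_cancel₀ _ (by positivity), one_mul] at this
  refine ⟨m * (2 * π), h1, by linarith, fun x hx => ?_⟩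
  have := sin_pos_of_pos_of_lt_pi (x := x - m * (2 * π)) (by linarith [hx.1]) (by linarith [hx.2])
  rwa [sin_sub_int_mul_two_pi] at this

lemma exists_half_period_mul {k l r : ℝ} (h : 3 * π ≤ |k| * (r - l)) :
    ∃ p q, l ≤ p ∧ q ≤ r ∧ p < q ∧ |k| * (q - p) = π ∧ ∀ θ ∈ Set.Ioo p q, 0 < sin (k * θ) := by
  have hπ := pi_pos
  rcases lt_trichotomy k 0 with hk | hk | hk
  · rw [abs_of_neg hk] at h ⊢
    obtain ⟨s, h1, h2, h3⟩ := exists_half_period (p := k * r) (q := k * l) (by linarith)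
    refine ⟨(s + π) / k, s / k, ?_, ?_, ?_, ?_, fun θ hθ => h3 _ ⟨?_, ?_⟩⟩
    · rw [le_div_iff_of_neg hk]; linarith
    · rw [div_le_iff_of_neg hk]; linarith
    · rw [div_lt_div_right_of_neg hk]; linarith
    · field_simp [hk.ne]; ring
    · have := hθ.2; rw [lt_div_iff_of_neg hk] at this; linarith
    · have := hθ.1; rw [div_lt_iff_of_neg hk] at this; linarith
  · subst hk; simp at h; linarith
  · rw [abs_of_pos hk] at h ⊢
    obtain ⟨s, h1, h2, h3⟩ := exists_half_period (p := k * l) (q := k * r) (by linarith)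
    refine ⟨s / k, (s + π) / k, ?_, ?_, ?_, ?_, fun θ hθ => h3 _ ⟨?_, ?_⟩⟩
    · rw [le_div_iff₀ hk]; linarith
    · rw [div_le_iff₀ hk]; linarith
    · rw [div_lt_div_iff_of_pos_right hk]; linarith
    · field_simp [hk.ne']; ring
    · have := hθ.1; rw [div_lt_iff₀ hk] at this; linarith
    · have := hθ.2; rw [lt_div_iff₀ hk] at this; linarith

lemma exists_both_pos {a b l r : ℝ} (hab : |b| < |a|) (h : 3 * π ≤ |b| * (r - l)) :
    ∃ θ ∈ Set.Ioo l r, 0 < sin (a * θ) ∧ 0 < sin (b * θ) := by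
  obtain ⟨p, q, h1, h2, h3, h4, h5⟩ := exists_half_period_mul h
  obtain ⟨θ, hθ, hs⟩ := exists_sin_mul_pos (k := a) (p := p) (q := q)
    (by rw [← h4]; exact mul_lt_mul_of_pos_right hab (by linarith))
  exact ⟨θ, ⟨h1.trans_lt hθ.1, hθ.2.trans_le h2⟩, hs, h5 θ hθ⟩

/-- The sign condition. -/
def Pos (a b θ : ℝ) : Prop := 0 < sin (a * θ) ∧ sin (b * θ) ≤ 0

lemma exists_Pos_interval {a b l r : ℝ} (hlr : l < r) (hab : a ≠ b) (ha : 3 * π ≤ |a| * (r - l))
    (hb : 3 * π ≤ |b| * (r - l) ∨ b = 0) :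
    ∃ l' r', l ≤ l' ∧ r' ≤ r ∧ l' < r' ∧ ∀ θ ∈ Set.Ioo l' r', Pos a b θ := by
  have hπ := pi_pos
  rcases hb with hb | rfl
  · have : ∃ θ ∈ Set.Ioo l r, 0 < sin (a * θ) ∧ 0 < sin (-b * θ) := by
      rcases lt_trichotomy |b| |a| with h | h | h
      · exact exists_both_pos (by rwa [abs_neg]) (by rwa [abs_neg])
      · have hba : -b = a := by
          rcases abs_eq_abs.mp h with h | h
          · exact (hab h.symm).elim
          · linarith
        obtain ⟨θ, hθ, hs⟩ := exists_sin_mul_pos (k := a) (p := l) (q := r) (by linarith)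
        exact ⟨θ, hθ, hs, by rwa [hba]⟩
      · obtain ⟨θ, hθ, h1, h2⟩ := exists_both_pos (a := -b) (b := a) (by rwa [abs_neg]) ha
        exact ⟨θ, hθ, h2, h1⟩
    obtain ⟨θ, hθ, h1, h2⟩ := this
    have hopen : IsOpen {θ | θ ∈ Set.Ioo l r ∧ 0 < sin (a * θ) ∧ 0 < sin (-b * θ)} :=
      isOpen_Ioo.inter ((isOpen_lt (g := fun θ => sin (a * θ)) continuous_const (by fun_prop)).inter
        (isOpen_lt (g := fun θ => sin (-b * θ)) continuous_const (by fun_prop)))
    obtain ⟨l', r', hm, hsub⟩ := mem_nhds_iff_exists_Ioo_subset.mp (hopen.mem_nhds ⟨hθ, h1, h2⟩)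
    refine ⟨max l l', min r r', le_max_left _ _, min_le_left _ _,
      (max_lt hθ.1 hm.1).trans (lt_min hθ.2 hm.2), fun t ht => ?_⟩
    have := hsub ⟨(le_max_right _ _).trans_lt ht.1, ht.2.trans_le (min_le_right _ _)⟩
    refine ⟨this.2.1, ?_⟩
    have h3 := this.2.2
    rw [neg_mul, sin_neg] at h3
    linarith
  · obtain ⟨p, q, h1, h2, h3, -, h5⟩ := exists_half_period_mul ha
    exact ⟨p, q, h1, h2, h3, fun θ hθ => ⟨h5 θ hθ, by simp⟩⟩

lemma shatter_core {I : Type*} (α β : I → ℤ)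
    (h : ∀ R : ℤ, ∃ i, α i ≠ β i ∧ R ≤ |α i| ∧ (R ≤ |β i| ∨ β i = 0)) (N : ℕ) :
    ∃ i : Fin N → I, ∀ σ : Fin N → Bool, ∃ l r, 0 ≤ l ∧ r ≤ π ∧ l < r ∧ ∀ θ ∈ Set.Ioo l r,
      ∀ k, if σ k then Pos (α (i k)) (β (i k)) θ else Pos (-α (i k)) (-β (i k)) θ := by
  induction N with
  | zero => exact ⟨Fin.elim0, fun _ => ⟨0, π, le_rfl, le_rfl, pi_pos, fun _ _ k => k.elim0⟩⟩
  | succ N ih =>
    obtain ⟨i, hi⟩ := ih
    choose l r hl hr hlr hpos using hi
    obtain ⟨R, hR⟩ : ∃ R : ℤ, ∀ σ, 3 * π / (r σ - l σ) ≤ R := by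
      obtain ⟨B, hB⟩ := (Set.finite_range fun σ => 3 * π / (r σ - l σ)).bddAbove
      exact ⟨⌈B⌉, fun σ => (hB ⟨σ, rfl⟩).trans (Int.le_ceil B)⟩
    obtain ⟨j, hj1, hj2, hj3⟩ := h R
    have key : ∀ (σ) (k : ℤ), R ≤ |k| → 3 * π ≤ |(k : ℝ)| * (r σ - l σ) := by
      intro σ k hk
      have h1 := hR σ
      rw [div_le_iff₀ (sub_pos.mpr (hlr σ))] at h1
      have h2 : (R : ℝ) ≤ |(k : ℝ)| := by exact_mod_cast hk
      exact h1.trans (mul_le_mul_of_nonneg_right h2 (sub_pos.mpr (hlr σ)).le)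
    refine ⟨Fin.cons j i, fun σ => ?_⟩
    set σ' := Fin.tail σ
    have : ∃ l' r', l σ' ≤ l' ∧ r' ≤ r σ' ∧ l' < r' ∧ ∀ θ ∈ Set.Ioo l' r',
        if σ 0 then Pos (α j) (β j) θ else Pos (-α j) (-β j) θ := by
      have hne : (α j : ℝ) ≠ β j := by exact_mod_cast hj1
      split_ifs
      · exact exists_Pos_interval (hlr σ') hne (key σ' _ hj2)
          (hj3.imp (key σ' _) fun h => by exact_mod_cast h)
      · exact exists_Pos_interval (hlr σ') (fun h => hne (neg_injective h))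
          (by rw [abs_neg]; exact key σ' _ hj2)
          (hj3.imp (fun h => by rw [abs_neg]; exact key σ' _ h) fun h => by simp [h])
    obtain ⟨l', r', h1, h2, h3, h4⟩ := this
    refine ⟨l', r', (hl σ').trans h1, h2.trans (hr σ'), h3, fun θ hθ k => ?_⟩
    refine Fin.cases ?_ (fun k => ?_) k
    · exact h4 θ hθ
    · exact hpos σ' θ ⟨h1.trans_lt hθ.1, hθ.2.trans_le h2⟩ k

variable {V : Type*} {G : SimpleGraph V} [G.LocallyFinite]

lemma Bp_U_eigen (ψ : V → ℝ) (θ : ℝ) (K : Finset V)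
    (heq : ∀ y ∈ K, Sf G ψ y = 2 * cos θ * ψ y) (v : V) (a : ℤ)
    (hK : ∀ k : ℕ, k ≤ a.natAbs → (U G k (dl v)).support ⊆ K) :
    Bp ψ (U G a (dl v)) * sin θ = ψ v * sin (a * θ) := by
  have key : ∀ k : ℕ, k ≤ a.natAbs → Bp ψ (U G k (dl v)) * sin θ = ψ v * sin (k * θ) := by
    intro k
    induction k using Nat.twoStepInduction with
    | zero => simp
    | one => simp
    | more k ih1 ih2 =>
      intro hk
      have h1 := ih1 (by omega)
      have h2 := ih2 (by omega)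
      have h3 := congrArg (Bp ψ) (U_rec G ((k + 1 : ℕ) : ℤ) (dl v))
      rw [map_add, Bp_So, Bp_congr _ (fun y hy => heq y (hK (k + 1) (by omega) hy)),
        Bp_smul] at h3
      have e1 : (((k + 1 : ℕ) : ℤ) + 1) = ((k + 2 : ℕ) : ℤ) := by push_cast; ring
      have e2 : (((k + 1 : ℕ) : ℤ) - 1) = (k : ℤ) := by push_cast; ring
      rw [e1, e2] at h3
      have t1 : sin (((k + 2 : ℕ) : ℝ) * θ) =
          2 * cos θ * sin (((k + 1 : ℕ) : ℝ) * θ) - sin ((k : ℝ) * θ) := by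
        have a1 : ((k + 2 : ℕ) : ℝ) * θ = ((k + 1 : ℕ) : ℝ) * θ + θ := by push_cast; ring
        have a2 : (k : ℝ) * θ = ((k + 1 : ℕ) : ℝ) * θ - θ := by push_cast; ring
        rw [a1, a2, sin_add, sin_sub]; ring
      rw [t1]
      linear_combination sin θ * h3 + 2 * cos θ * h2 - h1
  obtain ⟨m, rfl | rfl⟩ := Int.eq_nat_or_neg a
  · simpa using key m (by simp)
  · have := key m (by simp)
    rw [U_neg, map_neg]
    push_cast
    rw [neg_mul, neg_mul, sin_neg]
    linarith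

theorem shatter (hG : NoFin G) (F : Finset V) : ∃ R : ℤ, ∀ (v u : V) (a b : ℤ), a ≠ b →
    (R ≤ |b| ∨ b = 0) → (U G a (dl v) - U G b (dl u)).support ⊆ F → |a| < R := by
  classical
  by_contra hcon
  push Not at hcon
  let I := {p : V × V × ℤ × ℤ // (U G p.2.2.1 (dl p.1) - U G p.2.2.2 (dl p.2.1)).support ⊆ F}
  obtain ⟨i, hi⟩ := shatter_core (I := I) (fun p => p.1.2.2.1) (fun p => p.1.2.2.2) (fun R => by
    obtain ⟨v, u, a, b, h1, h2, h3, h4⟩ := hcon R
    exact ⟨⟨(v, u, a, b), h3⟩, h1, h4, h2⟩) (F.card + 1)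
  set v := fun k => (i k).1.1
  set u := fun k => (i k).1.2.1
  set a := fun k => (i k).1.2.2.1
  set b := fun k => (i k).1.2.2.2
  set f := fun k => U G (a k) (dl (v k)) - U G (b k) (dl (u k)) with hf
  have hsupp : ∀ k, (f k).support ⊆ F := fun k => (i k).2
  have hdep : ¬ LinearIndependent ℝ fun k => fun y : F => f k y := by
    intro h
    have := h.fintype_card_le_finrank
    simp at this
  obtain ⟨d, hd, k0, hk0⟩ := Fintype.not_linearIndependent_iff.mp hdep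
  obtain ⟨l, r, hl, hr, hlr, hpos⟩ := hi fun k => decide (0 < d k)
  set θ := (l + r) / 2
  have hθ : θ ∈ Set.Ioo l r := ⟨by simp only [θ]; linarith, by simp only [θ]; linarith⟩
  have hsin : 0 < sin θ := sin_pos_of_pos_of_lt_pi (hl.trans_lt hθ.1) (hθ.2.trans_le hr)
  set K : Finset V := univ.biUnion fun k =>
    ((range ((a k).natAbs + 1)).biUnion fun n => (U G n (dl (v k))).support) ∪
    ((range ((b k).natAbs + 1)).biUnion fun n => (U G n (dl (u k))).support) with hK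
  obtain ⟨ψ, hψ, heq⟩ := exists_pos_eigen hG K (μ := 2 * cos θ) (by linarith [cos_le_one θ])
  have hval : ∀ k, Bp ψ (f k) * sin θ =
      ψ (v k) * sin (a k * θ) - ψ (u k) * sin (b k * θ) := by
    intro k
    rw [hf, map_sub, sub_mul, Bp_U_eigen ψ θ K heq, Bp_U_eigen ψ θ K heq]
    · intro n hn y hy
      exact mem_biUnion.mpr ⟨k, mem_univ _, mem_union_right _
        (mem_biUnion.mpr ⟨n, mem_range.mpr (by omega), hy⟩)⟩
    · intro n hn y hy
      exact mem_biUnion.mpr ⟨k, mem_univ _, mem_union_left _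
        (mem_biUnion.mpr ⟨n, mem_range.mpr (by omega), hy⟩)⟩
  have hzero : ∑ k, d k * (Bp ψ (f k) * sin θ) = 0 := by
    have : ∑ k, d k * Bp ψ (f k) = 0 := by
      simp only [fun k => Bp_eq_sum ψ (f k) (hsupp k), mul_sum]
      rw [sum_comm]
      refine sum_eq_zero fun y hy => ?_
      have := congrFun hd ⟨y, hy⟩
      simp only [Finset.sum_apply, Pi.smul_apply, smul_eq_mul, Pi.zero_apply] at this
      simp only [← mul_assoc, ← sum_mul, this, zero_mul]
    simp only [← mul_assoc, ← sum_mul, this, zero_mul]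
  have hsign : ∀ k, (0 < d k → 0 < Bp ψ (f k) * sin θ) ∧
      (¬ 0 < d k → Bp ψ (f k) * sin θ < 0) := by
    intro k
    have hp := hpos θ hθ k
    have h1 := hψ (v k)
    have h2 := hψ (u k)
    rw [hval]
    constructor
    · intro h
      rw [if_pos (decide_eq_true h)] at hp
      have h3 : 0 < sin (a k * θ) := hp.1
      have h4 : sin (b k * θ) ≤ 0 := hp.2
      nlinarith [mul_pos h1 h3, mul_nonneg h2.le (neg_nonneg.mpr h4)]
    · intro h
      rw [if_neg (by simpa using h)] at hp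
      have h3 : 0 < sin (-(a k : ℝ) * θ) := hp.1
      have h4 : sin (-(b k : ℝ) * θ) ≤ 0 := hp.2
      rw [neg_mul, sin_neg] at h3 h4
      nlinarith [mul_pos h1 h3, mul_nonneg h2.le (neg_nonpos.mp h4)]
  have hterm : ∀ k, 0 ≤ d k * (Bp ψ (f k) * sin θ) := by
    intro k
    by_cases h : 0 < d k
    · exact (mul_pos h ((hsign k).1 h)).le
    · exact mul_nonneg_of_nonpos_of_nonpos (not_lt.mp h) ((hsign k).2 h).le
  have := (sum_eq_zero_iff_of_nonneg fun k _ => hterm k).mp hzero k0 (mem_univ _)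
  rcases mul_eq_zero.mp this with h | h
  · exact hk0 h
  · by_cases h' : 0 < d k0
    · exact ((hsign k0).1 h').ne' h
    · exact ((hsign k0).2 h').ne h

end Pool.Agent.Work.MP_997ab3_co
end
end

-- merged part: Pool.Agent.Work.MP_997ab3_co.Green
section
-- merged part: Pool.Agent.Work.MP_997ab3_co.Green
section
/-! Half-space Green functions. -/

namespace Pool.Agent.Work.MP_997ab3_co

open Finset Filter Topology

variable {V : Type*} {G : SimpleGraph V} [G.LocallyFinite] {Δ : ℕ}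

lemma sup_convex (hΔ : ∀ v, G.degree v ≤ Δ) {φ0 φ1 φ2 : V → ℝ}
    (h : ∀ y, φ2 y + φ0 y = Sf G φ1 y) (hb : BddAbove (Set.range φ1)) {m0 m2 : ℝ}
    (h0 : ∀ y, φ0 y ≤ m0) (h2 : ∀ y, φ2 y ≤ m2) [Nonempty V] : 2 * ⨆ y, φ1 y ≤ m0 + m2 := by
  refine le_of_forall_pos_le_add fun ε hε => ?_
  set s := ⨆ y, φ1 y
  have hpos : (0 : ℝ) < Δ + 2 := by positivity
  obtain ⟨y, hy⟩ := exists_lt_of_lt_ciSup (show s - ε / (Δ + 2) < ⨆ y, φ1 y from
    sub_lt_self _ (by positivity))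
  have h1 : ∑ w ∈ G.neighborFinset y, φ1 w ≤ G.degree y * s := by
    have := sum_le_card_nsmul (G.neighborFinset y) φ1 s fun w _ => le_ciSup hb w
    rwa [G.card_neighborFinset_eq_degree, nsmul_eq_mul] at this
  have h3 := h y
  have h4 : (G.degree y : ℝ) ≤ Δ := by exact_mod_cast hΔ y
  have h5 : (0 : ℝ) ≤ G.degree y := by positivity
  have h6 : (Δ + 2) * (ε / (Δ + 2)) = ε := by field_simp
  have h7 : 0 < ε / (Δ + 2) := by positivity
  rw [Sf] at h3
  nlinarith [h0 y, h2 y]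

lemma conv_seq {m : ℕ → ℝ} (h : ∀ n, 2 * m (n + 1) ≤ m n + m (n + 2)) (k n : ℕ) :
    m k + n * (m (k + 1) - m k) ≤ m (k + n) := by
  have key : ∀ n, m (k + 1) - m k ≤ m (k + n + 1) - m (k + n) := by
    intro n
    induction n with
    | zero => simp
    | succ n ih => have := h (k + n); rw [← add_assoc]; linarith
  induction n with
  | zero => simp
  | succ n ih => have := key n; rw [← add_assoc]; push_cast; linarith

lemma finsupp_bdd (f : V →₀ ℝ) : ∃ C, ∀ y, |f y| ≤ C := by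
  refine ⟨∑ y ∈ f.support, |f y|, fun y => ?_⟩
  by_cases hy : y ∈ f.support
  · exact single_le_sum (f := fun y => |f y|) (fun _ _ => abs_nonneg _) hy
  · rw [Finsupp.notMem_support_iff.mp hy, abs_zero]
    exact sum_nonneg fun _ _ => abs_nonneg _

lemma U_inj (hΔ : ∀ v, G.degree v ≤ Δ) {a : ℤ} (ha : a ≠ 0) {h : V →₀ ℝ} (hh : U G a h = 0) :
    h = 0 := by
  have key : ∀ h : V →₀ ℝ, U G a h = 0 → ∀ y, h y ≤ 0 := by
    intro h hh y
    have : Nonempty V := ⟨y⟩
    have hb : ∀ n : ℕ, BddAbove (Set.range (U G n h)) := fun n => by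
      obtain ⟨C, hC⟩ := finsupp_bdd (U G n h)
      exact ⟨C, by rintro _ ⟨y, rfl⟩; exact (le_abs_self _).trans (hC y)⟩
    have hc := conv_seq (m := fun n => ⨆ y, U G n h y) (fun n => by
      clear * - V G Δ hΔ n h hb this a y
      refine sup_convex hΔ (fun y => ?_) (hb (n + 1)) (le_ciSup (hb n)) (le_ciSup (hb (n + 2)))
      have := DFunLike.congr_fun (U_rec G ((n + 1 : ℕ) : ℤ) h) y
      rw [Finsupp.add_apply, So_apply] at this
      rw [← this]
      congr 3 <;> push_cast <;> ring) 0 a.natAbs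
    have hz : U G (a.natAbs : ℤ) h = 0 := by
      rcases Int.natAbs_eq a with e | e
      · rw [← e]; exact hh
      · rw [← neg_eq_zero, ← U_neg, ← e]; exact hh
    simp only [zero_add, hz, Nat.cast_zero, U_zero, Finsupp.coe_zero, Pi.zero_apply, ciSup_const,
      Nat.cast_one, U_one, sub_zero] at hc
    have h1 : (0 : ℝ) < a.natAbs := by exact_mod_cast Int.natAbs_pos.mpr ha
    have h2 : ⨆ y, h y ≤ 0 := by
      by_contra hn
      exact absurd hc (not_le.mpr (mul_pos h1 (not_le.mp hn)))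
    have h3 := hb 1
    simp only [Nat.cast_one, U_one] at h3
    exact (le_ciSup h3 y).trans h2
  ext y
  have h1 := key h hh y
  have h2 := key (-h) (by rw [map_neg, hh, neg_zero]) y
  simp only [Finsupp.coe_neg, Pi.neg_apply] at h2
  simp only [Finsupp.coe_zero, Pi.zero_apply]
  linarith

lemma half_unique (hΔ : ∀ v, G.degree v ≤ Δ) (φ : ℕ → V → ℝ) {C : ℝ} (hC : ∀ n y, |φ n y| ≤ C)
    (h0 : ∀ y, φ 0 y = 0) (h : ∀ n y, φ (n + 2) y + φ n y = Sf G (φ (n + 1)) y) (y : V) :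
    φ 1 y = 0 := by
  have key : ∀ φ : ℕ → V → ℝ, (∀ n y, |φ n y| ≤ C) → (∀ y, φ 0 y = 0) →
      (∀ n y, φ (n + 2) y + φ n y = Sf G (φ (n + 1)) y) → φ 1 y ≤ 0 := by
    intro φ hC h0 h
    have : Nonempty V := ⟨y⟩
    have hb : ∀ n : ℕ, BddAbove (Set.range (φ n)) := fun n =>
      ⟨C, by rintro _ ⟨y, rfl⟩; exact (le_abs_self _).trans (hC n y)⟩
    have hc := conv_seq (m := fun n => ⨆ y, φ n y) (fun n =>
      sup_convex hΔ (h n) (hb (n + 1)) (le_ciSup (hb n)) (le_ciSup (hb (n + 2)))) 0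
    simp only [zero_add, h0, ciSup_const, sub_zero] at hc
    refine (le_ciSup (hb 1) y).trans ?_
    by_contra hn
    push Not at hn
    obtain ⟨n, hn'⟩ := exists_nat_gt (C / ⨆ y, φ 1 y)
    rw [div_lt_iff₀ hn] at hn'
    have : ⨆ y, φ n y ≤ C := ciSup_le fun y => (le_abs_self _).trans (hC n y)
    linarith [hc n]
  have h1 := key φ hC h0 h
  have h2 := key (fun n y => -φ n y) (fun n y => by rw [abs_neg]; exact hC n y)
    (fun y => by simp [h0]) (fun n y => by rw [Sf_neg, ← h n y]; ring)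
  linarith

/-- One step of the lazy iteration. -/
noncomputable def gstep (G : SimpleGraph V) [G.LocallyFinite] (Δ : ℕ) (v : V) (j : ℕ)
    (g : ℕ → V →₀ ℝ) : ℕ → V →₀ ℝ
  | 0 => 0
  | n + 1 => g (n + 1) + (1 / ((Δ : ℝ) + 2)) •
      ((if n + 1 = j then dl v else 0) - So G (g (n + 1)) + g (n + 2) + g n)

lemma gstep_mono (hΔ : ∀ v, G.degree v ≤ Δ) (v : V) (j : ℕ) {g g' : ℕ → V →₀ ℝ}
    (h : ∀ n y, g n y ≤ g' n y) (n : ℕ) (y : V) :
    gstep G Δ v j g n y ≤ gstep G Δ v j g' n y := by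
  cases n with
  | zero => exact le_rfl
  | succ n =>
    simp only [gstep, Finsupp.add_apply, Finsupp.smul_apply, Finsupp.sub_apply, So_apply, Sf,
      smul_eq_mul]
    have h1 : ∑ w ∈ G.neighborFinset y, g (n + 1) w ≤ ∑ w ∈ G.neighborFinset y, g' (n + 1) w :=
      sum_le_sum fun w _ => h _ w
    have h4 : (G.degree y : ℝ) ≤ Δ := by exact_mod_cast hΔ y
    have hε : (0 : ℝ) < 1 / ((Δ : ℝ) + 2) := by positivity
    have h5 : 1 / ((Δ : ℝ) + 2) * ((G.degree y : ℝ) + 2) ≤ 1 := by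
      rw [one_div, inv_mul_le_iff₀ (by positivity)]; linarith
    nlinarith [mul_nonneg (sub_nonneg.mpr h5) (sub_nonneg.mpr (h (n + 1) y)),
      mul_nonneg hε.le (sub_nonneg.mpr h1), mul_nonneg hε.le (sub_nonneg.mpr (h (n + 2) y)),
      mul_nonneg hε.le (sub_nonneg.mpr (h n y))]

lemma sum_le_mass {f : V →₀ ℝ} (hf : ∀ y, 0 ≤ f y) (K : Finset V) : ∑ y ∈ K, f y ≤ mass f := by
  classical
  rw [mass, Bp_eq_sum _ f (subset_union_left (s₂ := K))]
  simp only [mul_one]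
  exact sum_le_sum_of_subset_of_nonneg subset_union_right fun y _ _ => hf y

lemma exists_green [DecidableEq V] (hΔ : ∀ v, G.degree v ≤ Δ) (v : V) (j : ℕ) :
    ∃ g : ℕ → V → ℝ, (∀ y, g 0 y = 0) ∧ (∀ n y, 0 ≤ g n y) ∧
      (∀ n K, ∑ y ∈ K, g n y ≤ min (n : ℝ) j) ∧
      ∀ n y, Sf G (g (n + 1)) y =
        (if n + 1 = j ∧ v = y then 1 else 0) + g (n + 2) y + g n y := by
  set it : ℕ → ℕ → V →₀ ℝ := fun t => (gstep G Δ v j)^[t] 0 with hit
  have hsucc : ∀ t, it (t + 1) = gstep G Δ v j (it t) := fun t =>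
    Function.iterate_succ_apply' _ _ _
  have hε : (0 : ℝ) < 1 / ((Δ : ℝ) + 2) := by positivity
  have hε2 : 2 * (1 / ((Δ : ℝ) + 2)) ≤ 1 := by
    rw [mul_one_div, div_le_one (by positivity)]; have : (0 : ℝ) ≤ Δ := by positivity
    linarith
  have hmono1 : ∀ t n y, it t n y ≤ it (t + 1) n y := by
    intro t
    induction t with
    | zero =>
      intro n y
      rw [hsucc]
      cases n with
      | zero => exact le_rfl
      | succ n =>
        simp only [hit, Function.iterate_zero, id, gstep, Pi.zero_apply, map_zero, sub_zero,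
          add_zero, zero_add, Finsupp.smul_apply, smul_eq_mul, Finsupp.coe_zero]
        refine mul_nonneg hε.le ?_
        split_ifs
        · rw [Finsupp.single_apply]; split_ifs <;> norm_num
        · exact le_rfl
    | succ t ih =>
      intro n y
      rw [hsucc (t + 1), hsucc t]
      refine gstep_mono hΔ v j (fun n y => ?_) n y
      rw [← hsucc t]; exact ih n y
  have hmono : ∀ n y, Monotone fun t => it t n y := fun n y =>
    monotone_nat_of_le_succ fun t => hmono1 t n y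
  have hnn : ∀ t n y, 0 ≤ it t n y := fun t n y => hmono n y (Nat.zero_le t)
  have hmass : ∀ t n, mass (it t n) ≤ min (n : ℝ) j := by
    intro t
    induction t with
    | zero => intro n; simp [hit]
    | succ t ih =>
      intro n
      rw [hsucc]
      cases n with
      | zero => simp [gstep]
      | succ n =>
        have e : mass (if n + 1 = j then dl v else 0) + min ((n + 2 : ℕ) : ℝ) j + min (n : ℝ) j =
            2 * min ((n + 1 : ℕ) : ℝ) j := by
          rcases lt_trichotomy (n + 1) j with h | h | h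
          · have h' : ((n + 2 : ℕ) : ℝ) ≤ j := by exact_mod_cast h
            push_cast at h' ⊢
            rw [if_neg h.ne, min_eq_left h', min_eq_left (by linarith), min_eq_left (by linarith)]
            simp; ring
          · subst h
            push_cast
            rw [if_pos rfl, min_eq_right (by linarith), min_eq_left (by linarith), min_self]
            simp; ring
          · have h' : (j : ℝ) ≤ n := by exact_mod_cast Nat.lt_succ_iff.mp h
            push_cast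
            rw [if_neg h.ne', min_eq_right (by linarith), min_eq_right h',
              min_eq_right (by linarith)]
            simp; ring
        simp only [gstep, map_add, map_smul, map_sub, mass_So, smul_eq_mul]
        clear * - V it t n Δ j v hε2 ih hε e
        nlinarith [mul_nonneg (sub_nonneg.mpr hε2) (sub_nonneg.mpr (ih (n + 1))),
          mul_nonneg hε.le (sub_nonneg.mpr (ih (n + 2))), mul_nonneg hε.le (sub_nonneg.mpr (ih n))]
  have hbdd : ∀ n y, BddAbove (Set.range fun t => it t n y) := fun n y =>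
    ⟨min (n : ℝ) j, by
      clear * - V it n y j hnn hmass
      rintro _ ⟨t, rfl⟩
      have := (sum_le_mass (hnn t n) {y}).trans (hmass t n)
      simpa using this⟩
  have hlim : ∀ n y, Tendsto (fun t => it t n y) atTop (𝓝 (⨆ t, it t n y)) := fun n y =>
    tendsto_atTop_ciSup (hmono n y) (hbdd n y)
  refine ⟨fun n y => ⨆ t, it t n y, fun y => ?_, fun n y => ?_, fun n K => ?_, fun n y => ?_⟩
  · have : ∀ t, it t 0 y = 0 := by
      intro t
      cases t with
      | zero => rfl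
      | succ t => rw [hsucc]; rfl
    simp [this]
  · exact ge_of_tendsto' (hlim n y) fun t => hnn t n y
  · exact le_of_tendsto' (tendsto_finsetSum K fun y _ => hlim n y) fun t =>
      (sum_le_mass (hnn t n) K).trans (hmass t n)
  · have h1 : Tendsto (fun t => it (t + 1) (n + 1) y) atTop (𝓝 (⨆ t, it t (n + 1) y)) :=
      (hlim (n + 1) y).comp (tendsto_add_atTop_nat 1)
    have h2 : ∀ t, it (t + 1) (n + 1) y = it t (n + 1) y + 1 / ((Δ : ℝ) + 2) *
        ((if n + 1 = j ∧ v = y then 1 else 0) - (((G.degree y : ℝ) + 2) * it t (n + 1) y -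
          ∑ w ∈ G.neighborFinset y, it t (n + 1) w) + it t (n + 2) y + it t n y) := by
      intro t
      rw [hsucc]
      simp only [gstep, Finsupp.add_apply, Finsupp.smul_apply, Finsupp.sub_apply, So_apply, Sf,
        smul_eq_mul]
      congr 5
      by_cases h : n + 1 = j <;> simp [h, Finsupp.single_apply]
    simp only [h2] at h1
    have h3 := tendsto_nhds_unique h1 ((hlim (n + 1) y).add ((((tendsto_const_nhds.sub
      (((hlim (n + 1) y).const_mul _).sub (tendsto_finsetSum _ fun w _ => hlim (n + 1) w))).add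
        (hlim (n + 2) y)).add (hlim n y)).const_mul _))
    have h4 := left_eq_add.mp h3
    rcases mul_eq_zero.mp h4 with h5 | h5
    · exact absurd h5 hε.ne'
    · rw [Sf]; linarith

theorem exists_gamma (hΔ : ∀ v, G.degree v ≤ Δ) : ∃ γ : V → ℕ → V → ℝ,
    (∀ v j y, 0 ≤ γ v j y) ∧ (∀ v j K, ∑ y ∈ K, γ v j y ≤ 1) ∧
    (∀ v j y w, G.Adj y w → γ v j w ≤ (Δ + 2) * γ v j y) ∧
    (∀ v j, 1 ≤ j → 1 ≤ (Δ + 2) ^ j * γ v j v) ∧
    ∀ v (j : ℕ) y, 1 ≤ j → U G ((j : ℤ) - 1) (dl v) y =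
      Bp (fun x => γ x 1 y) (U G j (dl v)) - γ v j y := by
  classical
  choose g h0 hnn hm heq using exists_green hΔ
  have hlow : ∀ v j n y, (if n + 1 = j ∧ v = y then 1 else 0) +
      ∑ w ∈ G.neighborFinset y, g v j (n + 1) w + g v j (n + 2) y ≤
        (Δ + 2) * g v j (n + 1) y := by
    intro v j n y
    have h1 := heq v j n y
    have h4 : (G.degree y : ℝ) ≤ Δ := by exact_mod_cast hΔ y
    rw [Sf] at h1
    clear * - n j V v y G g Δ h1 hnn h4
    nlinarith [hnn v j n y, mul_nonneg (sub_nonneg.mpr h4) (hnn v j (n + 1) y)]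
  have hite : ∀ (p : Prop) [Decidable p], (0 : ℝ) ≤ if p then 1 else 0 := by
    intro p _; split_ifs <;> norm_num
  have hle : ∀ v j n y, g v j n y ≤ j := fun v j n y => by
    have := (hm v j n {y}).trans (min_le_right _ _)
    simpa using this
  refine ⟨fun v j y => g v j 1 y, fun v j y => hnn _ _ _ _, fun v j K => ?_,
    fun v j y w hyw => ?_, fun v j hj => ?_, fun v j y hj => ?_⟩
  · exact (hm v j 1 K).trans ((min_le_left _ _).trans (by simp))
  · have h1 := hlow v j 0 y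
    have h2 : g v j 1 w ≤ ∑ w ∈ G.neighborFinset y, g v j 1 w :=
      single_le_sum (f := fun w => g v j 1 w) (fun w _ => hnn _ _ _ _)
        ((G.mem_neighborFinset y w).mpr hyw)
    have := hite (0 + 1 = j ∧ v = y)
    have := hnn v j 2 y
    simp only [zero_add] at *
    linarith
  · have key : ∀ i n, n + 1 + i = j → 1 ≤ ((Δ : ℝ) + 2) ^ (i + 1) * g v j (n + 1) v := by
      clear * - j Δ g v V G hlow hnn hite
      intro i
      induction i with
      | zero =>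
        intro n hn
        have h1 := hlow v j n v
        rw [if_pos ⟨hn, rfl⟩] at h1
        have := sum_nonneg (s := G.neighborFinset v) fun w _ => hnn v j (n + 1) w
        have := hnn v j (n + 2) v
        rw [zero_add, pow_one]; linarith
      | succ i ih =>
        intro n hn
        have h1 := hlow v j n v
        have h2 := ih (n + 1) (by omega)
        have := sum_nonneg (s := G.neighborFinset v) fun w _ => hnn v j (n + 1) w
        have := hite (n + 1 = j ∧ v = v)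
        have h3 : g v j (n + 2) v ≤ (Δ + 2) * g v j (n + 1) v := by linarith
        calc (1 : ℝ) ≤ (Δ + 2) ^ (i + 1) * g v j (n + 2) v := h2
          _ ≤ (Δ + 2) ^ (i + 1) * ((Δ + 2) * g v j (n + 1) v) :=
            mul_le_mul_of_nonneg_left h3 (by positivity)
          _ = _ := by ring
    have := key (j - 1) 0 (by omega)
    rwa [Nat.sub_add_cancel hj] at this
  · set f := U G j (dl v) with hf
    set t : ℕ → V →₀ ℝ := fun n => if n ≤ j then U G ((j : ℤ) - n) (dl v) else 0 with ht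
    set H : ℕ → V → ℝ := fun n y => if n = 0 then f y else Bp (fun x => g x 1 n y) f with hH
    choose C hC using fun n => finsupp_bdd (t n)
    obtain ⟨Cf, hCf⟩ := finsupp_bdd f
    have htb : ∀ n y, |t n y| ≤ ∑ n ∈ range (j + 1), |C n| := by
      intro n y
      by_cases hn : n ≤ j
      · exact ((hC n y).trans (le_abs_self _)).trans
          (single_le_sum (f := fun n => |C n|) (fun _ _ => abs_nonneg _)
            (mem_range.mpr (by omega)))
      · simp only [ht, if_neg hn, Finsupp.coe_zero, Pi.zero_apply, abs_zero]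
        exact sum_nonneg fun _ _ => abs_nonneg _
    have hHb : ∀ n y, |H n y| ≤ |Cf| + ∑ x ∈ f.support, |f x| := by
      clear * - V f H Cf g hH hCf hnn hle y
      intro n y
      have h1 : 0 ≤ ∑ x ∈ f.support, |f x| := sum_nonneg fun _ _ => abs_nonneg _
      simp only [hH]
      split_ifs
      · linarith [hCf y, le_abs_self Cf]
      · rw [Bp_eq_sum _ f subset_rfl]
        refine (abs_sum_le_sum_abs _ _).trans ((sum_le_sum fun x _ => ?_).trans
          (le_add_of_nonneg_left (abs_nonneg _)))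
        rw [abs_mul, abs_of_nonneg (hnn _ _ _ _)]
        have := hle x 1 n y
        simp only [Nat.cast_one] at this
        exact mul_le_of_le_one_right (abs_nonneg _) this
    have hu := half_unique hΔ (fun n y => t n y - H n y + g v j n y)
      (C := ∑ n ∈ range (j + 1), |C n| + (|Cf| + ∑ x ∈ f.support, |f x|) + j)
      (fun n y => by
        refine (abs_add_le _ _).trans (add_le_add ((abs_sub _ _).trans
          (add_le_add (htb n y) (hHb n y))) ?_)
        rw [abs_of_nonneg (hnn _ _ _ _)]; exact hle _ _ _ _)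
      (fun y => by simp [ht, hH, h0, hf])
      (fun n y => by
        have e1 : Sf G (t (n + 1)) y =
            t (n + 2) y + t n y - (if n + 1 = j ∧ v = y then 1 else 0) := by
          clear * - V G t n y j v ht g C Cf hj hf hH hC hCf htb hHb
          rw [← So_apply]
          rcases lt_trichotomy (n + 1) j with h | h | h
          · have := DFunLike.congr_fun (sol_U G j (dl v) ((n + 1 : ℕ) : ℤ)) y
            simp only [ht, if_pos h.le, if_pos (show n + 2 ≤ j from h),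
              if_pos (show n ≤ j by omega), if_neg (show ¬ (n + 1 = j ∧ v = y) from
                fun h' => h.ne h'.1), sub_zero]
            rw [← this, Finsupp.add_apply]
            congr 3 <;> push_cast <;> ring
          · subst h
            simp [ht, Finsupp.single_apply]
          · have e : t n = 0 := by
              simp only [ht]
              split_ifs with h'
              · rw [show n = j by omega]; simp
              · rfl
            rw [e]
            simp [ht, h.ne', show ¬ n + 1 ≤ j by omega, show ¬ n + 2 ≤ j by omega]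
        have e2 : Sf G (H (n + 1)) y = H (n + 2) y + H n y := by
          clear * - V G H n y f g hH heq t j v h0 e1
          have e3 : Sf G (H (n + 1)) y = ∑ x ∈ f.support, f x * Sf G (g x 1 (n + 1)) y := by
            simp only [hH, Sf, Nat.add_eq_zero_iff, one_ne_zero, and_false, if_false,
              Bp_eq_sum _ f subset_rfl, mul_sub, sum_sub_distrib, mul_sum]
            rw [sum_comm]
            congr 1
            exact sum_congr rfl fun x _ => by ring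
          rw [e3]
          simp only [heq, mul_add, sum_add_distrib, hH, Nat.add_eq_zero_iff, OfNat.ofNat_ne_zero,
            and_false, if_false, Bp_eq_sum _ f subset_rfl]
          by_cases hn : n = 0
          · subst hn
            simp only [h0, mul_zero, sum_const_zero, add_zero, zero_add, true_and, if_true,
              mul_ite, mul_one, sum_ite_eq']
            rw [add_comm]
            congr 1
            split_ifs with hy
            · rfl
            · exact (Finsupp.notMem_support_iff.mp hy).symm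
          · simp [hn]
        have e4 : Sf G (fun y => t (n + 1) y - H (n + 1) y + g v j (n + 1) y) y =
            Sf G (t (n + 1)) y - Sf G (H (n + 1)) y + Sf G (g v j (n + 1)) y := by
          simp only [Sf, sum_add_distrib, sum_sub_distrib]; ring
        rw [e4, e1, e2, heq]; ring) y
    simp only [ht, hH, if_pos hj, one_ne_zero, if_false, Nat.cast_one] at hu
    linarith

lemma span_vanish (n : ℕ) : ∀ s : Finset (V → ℝ), s.card ≤ n →
    (∀ ζ ∈ s, Tendsto ζ cofinite (𝓝 0)) → ∀ C η : ℝ, 0 < η → ∀ᶠ y in cofinite,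
      ∀ z ∈ Submodule.span ℝ (s : Set (V → ℝ)), (∀ x, |z x| ≤ C) → |z y| < η := by
  classical
  induction n with
  | zero =>
    intro s hs _ C η hη
    rw [Nat.le_zero, card_eq_zero] at hs
    subst hs
    refine Eventually.of_forall fun y z hz _ => ?_
    simp only [coe_empty, Submodule.span_empty, Submodule.mem_bot] at hz
    simpa [hz] using hη
  | succ n ih =>
    intro s hs hlim C η hη
    by_cases hall : ∀ ζ ∈ s, ζ = 0
    · refine Eventually.of_forall fun y z hz _ => ?_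
      have : Submodule.span ℝ (s : Set (V → ℝ)) = ⊥ := Submodule.span_eq_bot.mpr hall
      rw [this, Submodule.mem_bot] at hz
      simpa [hz] using hη
    push Not at hall
    obtain ⟨ζ0, hζ0, hne⟩ := hall
    obtain ⟨y0, hy0⟩ := Function.ne_iff.mp hne
    simp only [Pi.zero_apply] at hy0
    set p : (V → ℝ) →ₗ[ℝ] (V → ℝ) := LinearMap.id -
      (LinearMap.toSpanSingleton ℝ _ ((ζ0 y0)⁻¹ • ζ0)).comp (LinearMap.proj y0) with hp
    have hp' : ∀ z y, p z y = z y - z y0 * ((ζ0 y0)⁻¹ * ζ0 y) := fun z y => by simp [hp]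
    obtain ⟨B, hB⟩ : ∃ B, ∀ y, |ζ0 y| ≤ B := by
      obtain ⟨B, hB⟩ := (hlim ζ0 hζ0).abs.bddAbove_range_of_cofinite
      exact ⟨B, fun y => hB ⟨y, rfl⟩⟩
    have h1 := ih ((s.erase ζ0).image p) (card_image_le.trans (by
      rw [card_erase_of_mem hζ0]; omega)) (fun ζ hζ => by
        obtain ⟨ξ, hξ, rfl⟩ := mem_image.mp hζ
        have := (hlim ξ (mem_of_mem_erase hξ)).sub
          (((hlim ζ0 hζ0).const_mul (ζ0 y0)⁻¹).const_mul (ξ y0))
        simp only [mul_zero, sub_zero] at this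
        exact this.congr fun y => (hp' ξ y).symm) (C + |C| * (|(ζ0 y0)⁻¹| * B)) (η / 2)
        (by positivity)
    have h2 : ∀ᶠ y in cofinite, |C| * (|(ζ0 y0)⁻¹| * |ζ0 y|) < η / 2 := by
      have := (((hlim ζ0 hζ0).abs.const_mul |(ζ0 y0)⁻¹|).const_mul |C|)
      simp only [abs_zero, mul_zero] at this
      exact this.eventually (gt_mem_nhds (by positivity))
    filter_upwards [h1, h2] with y hy1 hy2 z hz hC
    have hC0 : |z y0| ≤ |C| := (hC y0).trans (le_abs_self _)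
    have hpz : p z ∈ Submodule.span ℝ (((s.erase ζ0).image p : Finset _) : Set (V → ℝ)) := by
      have h3 : p z ∈ (Submodule.span ℝ (s : Set (V → ℝ))).map p := ⟨z, hz, rfl⟩
      rw [Submodule.map_span] at h3
      refine Submodule.span_le.mpr ?_ h3
      rintro _ ⟨ξ, hξ, rfl⟩
      by_cases h : ξ = ζ0
      · have : p ξ = 0 := by
          ext y; rw [hp', h]; field_simp; simp
        rw [this]; exact Submodule.zero_mem _
      · exact Submodule.subset_span (mem_coe.mpr (mem_image.mpr ⟨ξ, mem_erase.mpr ⟨h, hξ⟩, rfl⟩))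
    have hb : ∀ x, |z y0 * ((ζ0 y0)⁻¹ * ζ0 x)| ≤ |C| * (|(ζ0 y0)⁻¹| * |ζ0 x|) := fun x => by
      rw [abs_mul, abs_mul]
      exact mul_le_mul_of_nonneg_right hC0 (by positivity)
    have h4 := hy1 _ hpz fun x => by
      rw [hp']
      refine (abs_sub _ _).trans (add_le_add (hC x) ((hb x).trans ?_))
      exact mul_le_mul_of_nonneg_left (mul_le_mul_of_nonneg_left (hB x) (abs_nonneg _))
        (abs_nonneg _)
    have h5 : z y = p z y + z y0 * ((ζ0 y0)⁻¹ * ζ0 y) := by rw [hp']; ring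
    rw [h5]
    exact (abs_add_le _ _).trans_lt (by clear * - V p z y y0 ζ0 η C hy2 h4 hb; linarith [hb y])

end Pool.Agent.Work.MP_997ab3_co
end

-- merged part: Pool.Agent.Work.MP_997ab3_co.Thin
section
/-! Exponential sums and thin sets of integers. -/

namespace Pool.Agent.Work.MP_997ab3_co

open Finset Filter Topology

/-- Finite sums of positive exponentials. -/
def ExpSum : Submodule ℝ (ℤ → ℝ) :=
  Submodule.span ℝ {y | ∃ ρ : ℝ, 0 < ρ ∧ y = fun n => ρ ^ n}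

lemma ExpSum.neg_index {y : ℤ → ℝ} (hy : y ∈ ExpSum) : (fun n => y (-n)) ∈ ExpSum := by
  induction hy using Submodule.span_induction with
  | mem y hy =>
    obtain ⟨ρ, hρ, rfl⟩ := hy
    exact Submodule.subset_span ⟨ρ⁻¹, inv_pos.mpr hρ, by ext n; simp⟩
  | zero => exact Submodule.zero_mem _
  | add x y _ _ hx hy => exact Submodule.add_mem _ hx hy
  | smul c x _ hx => exact Submodule.smul_mem _ c hx

lemma ExpSum.shift {y : ℤ → ℝ} (hy : y ∈ ExpSum) (k : ℤ) : (fun n => y (n + k)) ∈ ExpSum := by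
  induction hy using Submodule.span_induction with
  | mem y hy =>
    obtain ⟨ρ, hρ, rfl⟩ := hy
    have : (fun n : ℤ => ρ ^ (n + k)) = ρ ^ k • fun n : ℤ => ρ ^ n := by
      ext n; simp [zpow_add₀ hρ.ne', mul_comm]
    rw [this]
    exact Submodule.smul_mem _ _ (Submodule.subset_span ⟨ρ, hρ, rfl⟩)
  | zero => exact Submodule.zero_mem _
  | add x y _ _ hx hy => exact Submodule.add_mem _ hx hy
  | smul c x _ hx => exact Submodule.smul_mem _ c hx

lemma asym_finset (R : Finset ℝ) (hR : ∀ ρ ∈ R, 0 < ρ) (A : ℝ → ℝ) :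
    (∀ n : ℕ, ∑ ρ ∈ R, A ρ * ρ ^ n = 0) ∨ ∃ l α : ℝ, 0 < l ∧ α ≠ 0 ∧
      Tendsto (fun n : ℕ => (∑ ρ ∈ R, A ρ * ρ ^ n) / l ^ n) atTop (𝓝 α) := by
  induction R using Finset.induction_on_max with
  | empty => simp
  | insert l R hl ih =>
    have hlR : l ∉ R := fun h => lt_irrefl _ (hl l h)
    have hl0 : 0 < l := hR l (mem_insert_self _ _)
    simp only [sum_insert hlR]
    by_cases hA : A l = 0
    · simpa [hA] using ih fun ρ h => hR ρ (mem_insert_of_mem h)
    · refine Or.inr ⟨l, A l, hl0, hA, ?_⟩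
      have h1 : Tendsto (fun n : ℕ => A l + ∑ ρ ∈ R, A ρ * (ρ / l) ^ n) atTop
          (𝓝 (A l + ∑ ρ ∈ R, A ρ * 0)) :=
        tendsto_const_nhds.add (tendsto_finsetSum _ fun ρ h =>
          (tendsto_pow_atTop_nhds_zero_of_lt_one
            (div_pos (hR ρ (mem_insert_of_mem h)) hl0).le
            ((div_lt_one hl0).mpr (hl ρ h))).const_mul _)
      simp only [mul_zero, sum_const_zero, add_zero] at h1
      refine h1.congr fun n => ?_
      rw [add_div, sum_div, mul_div_assoc, div_self (by positivity), mul_one]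
      congr 1
      exact sum_congr rfl fun ρ _ => by rw [div_pow, mul_div_assoc]

lemma ExpSum.asym {y : ℤ → ℝ} (hy : y ∈ ExpSum) :
    (∀ n : ℕ, y n = 0) ∨ ∃ l α : ℝ, 0 < l ∧ α ≠ 0 ∧
      Tendsto (fun n : ℕ => y n / l ^ n) atTop (𝓝 α) := by
  classical
  have : ∃ (R : Finset ℝ) (A : ℝ → ℝ), (∀ ρ ∈ R, 0 < ρ) ∧ (∀ ρ ∉ R, A ρ = 0) ∧
      ∀ n : ℕ, y n = ∑ ρ ∈ R, A ρ * ρ ^ n := by
    induction hy using Submodule.span_induction with
    | mem y hy =>
      obtain ⟨ρ, hρ, rfl⟩ := hy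
      exact ⟨{ρ}, fun σ => if σ = ρ then 1 else 0, by simpa using hρ, by simp, by simp⟩
    | zero => exact ⟨∅, 0, by simp, by simp, by simp⟩
    | add x y _ _ hx hy =>
      obtain ⟨R, A, h1, h2, h3⟩ := hx
      obtain ⟨R', A', h1', h2', h3'⟩ := hy
      refine ⟨R ∪ R', A + A', fun ρ h => (mem_union.mp h).elim (h1 ρ) (h1' ρ), fun ρ h => ?_,
        fun n => ?_⟩
      · rw [mem_union, not_or] at h
        simp [h2 ρ h.1, h2' ρ h.2]
      · simp only [Pi.add_apply, add_mul, sum_add_distrib, h3, h3']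
        congr 1
        · exact sum_subset subset_union_left fun ρ _ h => by simp [h2 ρ h]
        · exact sum_subset subset_union_right fun ρ _ h => by simp [h2' ρ h]
    | smul c x _ hx =>
      obtain ⟨R, A, h1, h2, h3⟩ := hx
      exact ⟨R, c • A, h1, fun ρ h => by simp [h2 ρ h], fun n => by
        simp [h3, mul_sum, mul_assoc]⟩
  obtain ⟨R, A, h1, -, h3⟩ := this
  simp only [h3]
  exact asym_finset R h1 A

/-- Sets of integers with at most `O(m)` elements of size at most `m ^ 2`. -/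
def Thin (E : Set ℤ) : Prop :=
  ∃ C : ℕ, ∀ m : ℕ, (E ∩ Set.Icc (-(m : ℤ) ^ 2) ((m : ℤ) ^ 2)).ncard ≤ C * (m + 1)

lemma Thin.mono {E E' : Set ℤ} (h : Thin E') (hs : E ⊆ E') : Thin E := by
  obtain ⟨C, hC⟩ := h
  exact ⟨C, fun m => (Set.ncard_le_ncard (Set.inter_subset_inter_left _ hs)
    ((Set.finite_Icc _ _).inter_of_right _)).trans (hC m)⟩

lemma Thin.union {E E' : Set ℤ} (h : Thin E) (h' : Thin E') : Thin (E ∪ E') := by
  obtain ⟨C, hC⟩ := h
  obtain ⟨C', hC'⟩ := h'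
  refine ⟨C + C', fun m => ?_⟩
  rw [Set.union_inter_distrib_right, add_mul]
  exact (Set.ncard_union_le _ _).trans (add_le_add (hC m) (hC' m))

lemma thin_of_finite {E : Set ℤ} (h : E.Finite) : Thin E :=
  ⟨E.ncard, fun m => (Set.ncard_le_ncard Set.inter_subset_left h).trans
    (Nat.le_mul_of_pos_right _ (Nat.succ_pos m))⟩

lemma thin_biUnion {ι : Type*} {s : Set ι} (hs : s.Finite) {E : ι → Set ℤ}
    (h : ∀ i ∈ s, Thin (E i)) : Thin (⋃ i ∈ s, E i) := by
  induction s, hs using Set.Finite.induction_on with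
  | empty => simpa using thin_of_finite Set.finite_empty
  | insert _ _ ih =>
    rw [Set.biUnion_insert]
    exact (h _ (Set.mem_insert _ _)).union (ih fun i hi => h i (Set.mem_insert_of_mem _ hi))

lemma Thin.exists_notMem {E : Set ℤ} (h : Thin E) : ∃ t, t ∉ E := by
  by_contra hn
  push Not at hn
  obtain ⟨C, hC⟩ := h
  have := hC (C + 1)
  rw [Set.eq_univ_of_forall hn, Set.univ_inter, ← Finset.coe_Icc, Set.ncard_coe_finset,
    Int.card_Icc] at this
  have h2 : (((C + 1 : ℕ) : ℤ) ^ 2 + 1 - -((C + 1 : ℕ) : ℤ) ^ 2) =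
      ((2 * (C + 1) ^ 2 + 1 : ℕ) : ℤ) := by push_cast; ring
  rw [h2, Int.toNat_natCast] at this
  nlinarith

lemma thin_of_seq (τ : ℕ → ℝ) (h : (∃ B, ∀ᶠ n in atTop, |τ n| ≤ B) ∨
    ∀ᶠ n : ℕ in atTop, (n : ℝ) ^ 2 < |τ n|) : Thin {t : ℤ | ∃ n, (t : ℝ) = τ n} := by
  have hfin : ∀ N : ℕ, {t : ℤ | ∃ n < N, (t : ℝ) = τ n}.Finite ∧
      {t : ℤ | ∃ n < N, (t : ℝ) = τ n}.ncard ≤ N := by
    intro N
    have hs : {t : ℤ | ∃ n < N, (t : ℝ) = τ n} ⊆ ↑((range N).image fun n => ⌊τ n⌋) := by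
      rintro t ⟨n, hn, ht⟩
      exact mem_coe.mpr (mem_image.mpr ⟨n, mem_range.mpr hn, by rw [← ht]; simp⟩)
    refine ⟨(finite_toSet _).subset hs, (Set.ncard_le_ncard hs (finite_toSet _)).trans ?_⟩
    rw [Set.ncard_coe_finset]
    exact card_image_le.trans (by simp)
  rcases h with ⟨B, hB⟩ | h
  · obtain ⟨N, hN⟩ := eventually_atTop.mp hB
    refine thin_of_finite (((hfin N).1.union (Set.finite_Icc (-⌈B⌉) ⌈B⌉)).subset ?_)
    rintro t ⟨n, ht⟩
    by_cases hn : n < N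
    · exact Or.inl ⟨n, hn, ht⟩
    · have h1 := (hN n (not_lt.mp hn)).trans (Int.le_ceil B)
      rw [← ht] at h1
      exact Or.inr (abs_le.mp (by exact_mod_cast h1))
  · obtain ⟨N, hN⟩ := eventually_atTop.mp h
    refine ⟨N + 1, fun m => ?_⟩
    refine (Set.ncard_le_ncard (t := {t : ℤ | ∃ n < N + m + 1, (t : ℝ) = τ n}) ?_
      (hfin _).1).trans ((hfin _).2.trans (by nlinarith))
    rintro t ⟨⟨n, ht⟩, hm⟩
    refine ⟨n, ?_, ht⟩
    by_contra hn
    have h1 := hN n (by omega)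
    have h2 : |(t : ℝ)| ≤ (m : ℝ) ^ 2 := by exact_mod_cast abs_le.mpr hm
    have h3 : (m : ℝ) ≤ n := by exact_mod_cast (by omega : m ≤ n)
    have h4 : (m : ℝ) ^ 2 ≤ (n : ℝ) ^ 2 := by gcongr
    rw [← ht] at h1
    linarith

lemma thin_nat {c r : ℤ → ℝ} (hc : c ∈ ExpSum) (hr : r ∈ ExpSum) :
    Thin {t : ℤ | ∃ n : ℕ, c n ≠ 0 ∧ c n * t + r n = 0} := by
  rcases ExpSum.asym hc with hc0 | ⟨l, α, hl, hα, hcl⟩
  · exact thin_of_finite (Set.finite_empty.subset fun t ⟨n, hn, _⟩ => hn (hc0 n))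
  refine (thin_of_seq (fun n => -r n / c n) ?_).mono ?_
  · rcases ExpSum.asym hr with hr0 | ⟨k, β, hk, hβ, hrk⟩
    · exact Or.inl ⟨0, Eventually.of_forall fun n => by simp [hr0 n]⟩
    have hq : Tendsto (fun n : ℕ => |(r n / k ^ n) / (c n / l ^ n)|) atTop (𝓝 |β / α|) :=
      (hrk.div hcl hα).abs
    have he : ∀ n : ℕ, |-r n / c n| = |(r n / k ^ n) / (c n / l ^ n)| * (k / l) ^ n := by
      intro n
      rw [← abs_of_pos (pow_pos (div_pos hk hl) n), ← abs_mul, neg_div, abs_neg]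
      congr 1
      by_cases h0 : c n = 0
      · simp [h0]
      · rw [div_pow]; field_simp
    simp only [he]
    rcases le_or_gt (k / l) 1 with h1 | h1
    · refine Or.inl ⟨|β / α| + 1, ?_⟩
      filter_upwards [hq.eventually (gt_mem_nhds (lt_add_one _))] with n hn
      exact (mul_le_of_le_one_right (abs_nonneg _) (pow_le_one₀ (div_pos hk hl).le h1)).trans hn.le
    · right
      have hpos : 0 < |β / α| / 2 := by have := div_ne_zero hβ hα; positivity
      have h2 := (tendsto_pow_const_div_const_pow_of_one_lt 2 h1).eventually (gt_mem_nhds hpos)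
      filter_upwards [h2, hq.eventually (lt_mem_nhds (half_lt_self (by linarith)))] with n h3 h4
      rw [div_lt_iff₀ (by positivity)] at h3
      exact h3.trans (mul_lt_mul_of_pos_right h4 (by positivity))
  · rintro t ⟨n, hn, ht⟩
    exact ⟨n, by field_simp; linarith⟩

lemma thin_int {c r : ℤ → ℝ} (hc : c ∈ ExpSum) (hr : r ∈ ExpSum) :
    Thin {t : ℤ | ∃ n : ℤ, c n ≠ 0 ∧ c n * t + r n = 0} := by
  refine ((thin_nat hc hr).union (thin_nat (ExpSum.neg_index hc) (ExpSum.neg_index hr))).mono ?_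
  rintro t ⟨n, hn⟩
  obtain ⟨m, rfl | rfl⟩ := Int.eq_nat_or_neg n
  · exact Or.inl ⟨m, hn⟩
  · exact Or.inr ⟨m, hn⟩

end Pool.Agent.Work.MP_997ab3_co
end

-- merged part: Pool.Agent.Work.MP_997ab3_co.Torsion
section
/-! Differences at equal levels. -/

namespace Pool.Agent.Work.MP_997ab3_co

open Finset Polynomial

lemma rec_exp {μ : ℝ} (hμ : 2 < μ) {y : ℤ → ℝ} (h : ∀ n, y (n + 1) + y (n - 1) = μ * y n) :
    y ∈ ExpSum := by
  have h4 : 0 < μ ^ 2 - 4 := by nlinarith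
  set l : ℝ := (μ + √(μ ^ 2 - 4)) / 2 with hl
  have hs := Real.sqrt_pos.mpr h4
  have hs2 := Real.sq_sqrt h4.le
  have hl1 : 1 < l := by rw [hl]; linarith
  have hl0 : 0 < l := by linarith
  have hq : l ^ 2 + 1 = μ * l := by clear * - l μ hl hs2; rw [hl]; nlinarith
  have hd : l ^ 2 - 1 ≠ 0 := by clear * - l μ hμ hl hs hq; nlinarith
  set A : ℝ := (l * y 1 - y 0) / (l ^ 2 - 1) with hA
  have key : ∀ ρ : ℝ, 0 < ρ → ρ ^ 2 + 1 = μ * ρ → ∀ n : ℤ,
      ρ ^ (n + 1) + ρ ^ (n - 1) = μ * ρ ^ n := by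
    clear * - μ h
    intro ρ hρ h n
    rw [zpow_add_one₀ hρ.ne', zpow_sub_one₀ hρ.ne']
    field_simp
    linarith
  have hq' : l⁻¹ ^ 2 + 1 = μ * l⁻¹ := by clear * - l μ hl1 hq; field_simp; linarith
  have : y = A • (fun n : ℤ => l ^ n) + (y 0 - A) • fun n : ℤ => l⁻¹ ^ n := by
    ext n
    have := rec_unique (fun t : ℝ => μ * t) (by simp)
      (fun n => y n - (A * l ^ n + (y 0 - A) * l⁻¹ ^ n)) (fun n => by
        clear * - y n A μ l h key hl0 hq hq'
        linear_combination h n - A * key l hl0 hq n - (y 0 - A) * key l⁻¹ (inv_pos.mpr hl0) hq' n)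
      (by simp) (by simp only [zpow_one, hA]; field_simp; ring) n
    simp only [Pi.add_apply, Pi.smul_apply, smul_eq_mul]
    clear * - y n A l μ this
    linarith
  rw [this]
  exact Submodule.add_mem _ (Submodule.smul_mem _ _ (Submodule.subset_span ⟨l, hl0, rfl⟩))
    (Submodule.smul_mem _ _ (Submodule.subset_span ⟨l⁻¹, inv_pos.mpr hl0, rfl⟩))

variable {V : Type*} {G : SimpleGraph V} [G.LocallyFinite] {Δ : ℕ}

lemma sol_exp (hG : NoFin G) {e : ℤ → V →₀ ℝ} (he : Sol G e) {W : Finset V}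
    (hW : ∀ n, (e n).support ⊆ W) (z : V) : (fun n => e n z) ∈ ExpSum := by
  classical
  let A : Matrix W W ℝ := fun i j => So G (dl j) i
  have hA : A.IsHermitian := by
    ext i j
    simp only [A, Matrix.conjTranspose_apply, star_trivial]
    rw [← Bp_dl, Bp_So_symm, Bp_dl]
  set b := hA.eigenvectorBasis with hb
  let ψ : W → V →₀ ℝ := fun k => ∑ j : W, b k j • dl (j : V)
  have hψ : ∀ k (i : W), ψ k i = b k i := by
    intro k i
    simp only [ψ, Finsupp.finsetSum_apply, Finsupp.smul_apply, Finsupp.single_apply, smul_eq_mul,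
      mul_ite, mul_one, mul_zero, Subtype.val_inj, sum_ite_eq', mem_univ, if_true]
  have hψ0 : ∀ k, ∀ y ∉ W, ψ k y = 0 := by
    intro k y hy
    simp only [ψ, Finsupp.finsetSum_apply, Finsupp.smul_apply]
    refine sum_eq_zero fun j _ => ?_
    rw [Finsupp.single_eq_of_ne, smul_zero]
    rintro rfl
    exact hy j.2
  have heig : ∀ k, ∀ y ∈ W, Sf G (ψ k) y = hA.eigenvalues k * ψ k y := by
    clear * - V W A hA G ψ b hψ
    intro k y hy
    have := congrFun (hA.mulVec_eigenvectorBasis k) ⟨y, hy⟩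
    rw [← So_apply, hψ k ⟨y, hy⟩]
    simp only [Pi.smul_apply, smul_eq_mul] at this
    rw [← this]
    simp only [ψ, map_sum, map_smul, Finsupp.finsetSum_apply, Finsupp.smul_apply, smul_eq_mul,
      Matrix.mulVec, dotProduct, A]
    exact sum_congr rfl fun j _ => mul_comm _ _
  have hμ : ∀ k, 2 < hA.eigenvalues k := by
    intro k
    by_contra h
    apply b.orthonormal.ne_zero k
    ext i
    rw [← hψ]
    exact eq_zero_of_eigen hG W (ψ k) (not_lt.mp h) (hψ0 k) (heig k) i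
  have hy : ∀ k, (fun n => Bp (ψ k) (e n)) ∈ ExpSum := fun k => rec_exp (hμ k) fun n => by
    rw [← map_add, he n, Bp_So, Bp_congr _ fun y hy => heig k y (hW n hy), Bp_smul]
  by_cases hz : z ∈ W
  · have : (fun n => e n z) = ∑ k, b k ⟨z, hz⟩ • fun n => Bp (ψ k) (e n) := by
      clear * - V e z W hz b ψ hW hψ
      ext n
      have h1 := congrArg (fun x : EuclideanSpace ℝ W => x ⟨z, hz⟩)
        (b.sum_repr' (WithLp.toLp 2 fun i : W => e n i))
      simp only [WithLp.ofLp_sum, WithLp.ofLp_smul, Finset.sum_apply, Pi.smul_apply,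
        smul_eq_mul] at h1 ⊢
      rw [← h1]
      refine sum_congr rfl fun k _ => ?_
      rw [mul_comm, Bp_eq_sum _ _ (hW n), PiLp.inner_apply, ← sum_coe_sort W]
      congr 1
      exact sum_congr rfl fun i _ => by simp [hψ]
    rw [this]
    exact Submodule.sum_mem _ fun k _ => Submodule.smul_mem _ _ (hy k)
  · have : (fun n => e n z) = 0 := by
      ext n
      exact Finsupp.notMem_support_iff.mp fun h => hz (hW n h)
    rw [this]
    exact Submodule.zero_mem _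

lemma Pc_monic (n : ℕ) : (Pc ((n : ℤ) + 1)).Monic ∧ (Pc ((n : ℤ) + 1)).natDegree = n := by
  induction n using Nat.twoStepInduction with
  | zero => simp [Pc_one]
  | one =>
    have : Pc (((1 : ℕ) : ℤ) + 1) = X := by simp [Pc]
    rw [this]; exact ⟨monic_X, natDegree_X⟩
  | more n ih1 ih2 =>
    have h := Pc_rec (((n + 1 : ℕ) : ℤ) + 1)
    have e1 : ((n + 1 : ℕ) : ℤ) + 1 + 1 = ((n + 2 : ℕ) : ℤ) + 1 := by push_cast; ring
    have e2 : ((n + 1 : ℕ) : ℤ) + 1 - 1 = (n : ℤ) + 1 := by push_cast; ring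
    rw [e1, e2] at h
    have hm := monic_X.mul ih2.1
    have hd : (X * Pc (((n + 1 : ℕ) : ℤ) + 1)).natDegree = n + 2 := by
      rw [monic_X.natDegree_mul ih2.1, ih2.2, natDegree_X]; ring
    have hlt : (Pc ((n : ℤ) + 1)).natDegree < (X * Pc (((n + 1 : ℕ) : ℤ) + 1)).natDegree := by
      rw [hd, ih1.2]; omega
    rw [eq_sub_of_add_eq h]
    exact ⟨hm.sub_of_left (degree_lt_degree hlt), by
      rw [natDegree_sub_eq_left_of_natDegree_lt hlt, hd]⟩

lemma Pc_natDegree (a : ℤ) : |a| ≤ (Pc a).natDegree + 1 := by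
  obtain ⟨m, rfl | rfl⟩ := Int.eq_nat_or_neg a
  · cases m with
    | zero => simp; positivity
    | succ m => push_cast; rw [(Pc_monic m).2, abs_of_nonneg (by positivity)]
  · cases m with
    | zero => simp; positivity
    | succ m =>
      rw [Pc_neg, natDegree_neg, abs_neg]; push_cast
      rw [(Pc_monic m).2, abs_of_nonneg (by positivity)]

lemma Pc_coprime (a : ℤ) : IsCoprime (Pc a) (Pc (a - 1)) := by
  have h := Chebyshev.S_sq_add_S_sq ℝ (a - 1 - 1)
  rw [sub_add_cancel] at h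
  exact ⟨Pc a - X * Pc (a - 1), Pc (a - 1), by unfold Pc; linear_combination h⟩

lemma annihilator_abs {M : Type*} [AddCommGroup M] [Module ℝ[X] M] {ι : Type*} [Fintype ι]
    (x : ι → M) : ∃ (ρ : ℝ[X]) (R : ℤ), ρ ≠ 0 ∧ ∀ (a : ℤ) (f g : ι → ℝ), R ≤ |a| →
      Pc (a - 1) • ∑ i, C (f i) • x i = Pc a • ∑ i, C (g i) • x i →
        ρ • ∑ i, C (f i) • x i = 0 := by
  classical
  let Φ : (ι → ℝ[X]) →ₗ[ℝ[X]] M := Fintype.linearCombination ℝ[X] x
  have hΦ : ∀ f : ι → ℝ, Φ (fun y => C (f y)) = ∑ i, C (f i) • x i := fun f =>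
    Fintype.linearCombination_apply _ _ _
  let Ψ := (Submodule.torsion ℝ[X] M).mkQ.comp Φ
  let b := Module.Free.chooseBasis ℝ[X] (LinearMap.range Ψ)
  let lam := fun i => (b.coord i).comp Ψ.rangeRestrict
  obtain ⟨d, hd⟩ : ∃ d : ℕ, ∀ i y, (lam i (Pi.single y 1)).natDegree ≤ d := by
    obtain ⟨d, hd⟩ := (Set.finite_range fun p : _ × ι =>
      (lam p.1 (Pi.single p.2 1)).natDegree).bddAbove
    exact ⟨d, fun i y => hd ⟨(i, y), rfl⟩⟩
  have hdeg : ∀ i (f : ι → ℝ), (lam i fun y => C (f y)).natDegree ≤ d := by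
    clear * - M ι Ψ lam d hd
    intro i f
    have : (fun y => C (f y)) = ∑ y, C (f y) • (Pi.single y 1 : ι → ℝ[X]) := by
      ext1 y; simp [Pi.single_apply]
    rw [this, map_sum]
    refine natDegree_sum_le_of_forall_le _ _ fun y _ => ?_
    rw [map_smul, smul_eq_mul]
    exact (natDegree_C_mul_le _ _).trans (hd i y)
  let T : Submodule ℝ[X] M := (LinearMap.ker Ψ).map Φ
  have hT : Module.IsTorsion ℝ[X] T := by
    rintro ⟨_, p, hp, rfl⟩
    obtain ⟨r, hr⟩ := (Submodule.Quotient.mk_eq_zero _).mp hp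
    exact ⟨r, Subtype.ext hr⟩
  obtain ⟨ρ, hρ1, hρ2⟩ := Submodule.annihilator_top_inter_nonZeroDivisors hT
  refine ⟨ρ, d + 2, nonZeroDivisors.ne_zero hρ2, fun a f g ha hfg => ?_⟩
  have h1 : Ψ (Pc (a - 1) • fun y => C (f y)) = Ψ (Pc a • fun y => C (g y)) := by
    simp only [Ψ, LinearMap.comp_apply]
    rw [map_smul, map_smul Φ, hΦ, hΦ, hfg]
  have h2 : ∀ i, lam i (fun y => C (f y)) = 0 := by
    intro i
    have h3 : Pc (a - 1) * lam i (fun y => C (f y)) = Pc a * lam i fun y => C (g y) := by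
      rw [← smul_eq_mul, ← smul_eq_mul, ← map_smul, ← map_smul]
      exact congrArg (b.coord i) (Subtype.ext h1)
    have h4 : Pc a ∣ lam i fun y => C (f y) := (Pc_coprime a).dvd_of_dvd_mul_left ⟨_, h3⟩
    by_contra h0
    have h5 := (natDegree_le_of_dvd h4 h0).trans (hdeg i f)
    have := Pc_natDegree a
    omega
  have h3 : (fun y => C (f y)) ∈ LinearMap.ker Ψ := by
    clear * - M ι Ψ f b h2
    have : Ψ.rangeRestrict (fun y => C (f y)) = 0 := b.ext_elem fun i => by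
      rw [map_zero]
      exact h2 i
    exact congrArg Subtype.val this
  have h4 := Submodule.mem_annihilator.mp hρ1 ⟨_, _, h3, rfl⟩ Submodule.mem_top
  have h5 : ρ • Φ (fun y => C (f y)) = 0 := congrArg Subtype.val h4
  rwa [hΦ] at h5

lemma exists_annihilator (G : SimpleGraph V) [G.LocallyFinite] (F : Finset V) :
    ∃ (ρ : ℝ[X]) (R : ℤ), ρ ≠ 0 ∧ ∀ (a : ℤ) (f g : V →₀ ℝ), R ≤ |a| → f.support ⊆ F →
      g.support ⊆ F → U G (a - 1) f = U G a g → aeval (So G) ρ f = 0 := by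
  classical
  let : Module ℝ[X] (V →₀ ℝ) := Module.compHom _ (aeval (So G) : ℝ[X] →ₐ[ℝ] _).toRingHom
  have hs : ∀ (p : ℝ[X]) (f : V →₀ ℝ), p • f = aeval (So G) p f := fun _ _ => rfl
  have hΦ : ∀ f : V →₀ ℝ, f.support ⊆ F → ∑ y : F, C (f y) • dl (y : V) = f := by
    intro f hf
    have e : f = ∑ y ∈ F, f y • dl y := by
      conv_lhs => rw [← Finsupp.sum_single f, Finsupp.sum_of_support_subset _ hf _ (by simp)]
      simp
    conv_rhs => rw [e, ← sum_coe_sort]
    exact sum_congr rfl fun y _ => by rw [hs]; simp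
  obtain ⟨ρ, R, hρ, h⟩ := annihilator_abs fun y : F => dl (y : V)
  refine ⟨ρ, R, hρ, fun a f g ha hf hg hfg => ?_⟩
  have := h a (fun y => f y) (fun y => g y) ha (by rw [hΦ f hf, hΦ g hg]; exact hfg)
  rwa [hΦ f hf] at this

theorem torsion_support (hΔ : ∀ v, G.degree v ≤ Δ) (F : Finset V) :
    ∃ (W : Finset V) (R : ℤ), ∀ (a : ℤ) (h : V →₀ ℝ), R ≤ |a| → (U G a h).support ⊆ F →
      (U G (a - 1) h).support ⊆ F → ∀ n, (U G n h).support ⊆ W := by
  classical
  obtain ⟨ρ, R, hρ, hR⟩ := exists_annihilator G F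
  set W : Finset V := (range (ρ.natDegree + 1)).biUnion fun k =>
    F.biUnion fun y => ((So G ^ k) (dl y)).support with hW
  refine ⟨W, max R 1, fun a h ha h1 h2 => ?_⟩
  have hcomm : ∀ (p q : ℝ[X]) (f : V →₀ ℝ),
      aeval (So G) p (aeval (So G) q f) = aeval (So G) (p * q) f := fun p q f => by
    rw [map_mul]; rfl
  have h3 := hR a (U G a h) (U G (a - 1) h) ((le_max_left _ _).trans ha) h1 h2 (by
    simp only [U, hcomm, mul_comm])
  let Z : Submodule ℝ (V →₀ ℝ) :=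
    ⨅ p : ℝ[X], (Finsupp.supported ℝ ℝ (W : Set V)).comap (aeval (So G) p)
  have hZ : ∀ z, z ∈ Z ↔ ∀ p : ℝ[X], (aeval (So G) p z).support ⊆ W := by
    intro z
    simp only [Z, Submodule.mem_iInf, Submodule.mem_comap, Finsupp.mem_supported, coe_subset]
  have hfin : FiniteDimensional ℝ (Finsupp.supported ℝ ℝ (W : Set V)) :=
    (Finsupp.supportedEquivFinsupp (W : Set V)).symm.finiteDimensional
  have hZle : Z ≤ Finsupp.supported ℝ ℝ (W : Set V) := fun z hz => by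
    clear * - V G z W Z hZ hz
    have := (hZ z).mp hz 1
    simpa [Finsupp.mem_supported] using this
  have : FiniteDimensional ℝ Z := Submodule.finiteDimensional_of_le hZle
  have hmap : ∀ z ∈ Z, U G a z ∈ Z := fun z hz => (hZ _).mpr fun p => by
    rw [U, hcomm]; exact (hZ z).mp hz _
  have ha0 : a ≠ 0 := by
    rintro rfl
    have := (le_max_right _ _).trans ha
    simp at this
  have hinj : Function.Injective (U G a) :=
    (injective_iff_map_eq_zero _).mpr fun z hz => U_inj hΔ ha0 hz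
  let UZ : Z →ₗ[ℝ] Z := LinearMap.restrict (U G a) hmap
  have hinjZ : Function.Injective UZ := fun x y hxy =>
    Subtype.ext (hinj (congrArg Subtype.val hxy))
  have hsurj : Function.Surjective UZ :=
    (LinearMap.injective_iff_surjective (K := ℝ) (V := Z) (f := UZ)).mp hinjZ
  have hf : U G a h ∈ Z := (hZ _).mpr fun p => by
    clear * - V G p a h W ρ hcomm h3 hρ F h1
    rw [← EuclideanDomain.mod_add_div p ρ, mul_comm, map_add, LinearMap.add_apply, ← hcomm, h3,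
      map_zero, add_zero, aeval_eq_sum_range' (n := ρ.natDegree + 1)
        (Nat.lt_succ_of_le (natDegree_le_natDegree (degree_mod_lt p hρ).le)), LinearMap.sum_apply]
    refine Finsupp.support_finsetSum.trans (biUnion_subset.mpr fun k hk => ?_)
    rw [LinearMap.smul_apply]
    exact Finsupp.support_smul.trans ((support_map_subset _ h1).trans
      (subset_biUnion_of_mem (fun k => F.biUnion fun y => ((So G ^ k) (dl y)).support) hk))
  obtain ⟨⟨h', hh'⟩, e⟩ := hsurj ⟨_, hf⟩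
  have : h' = h := hinj (congrArg Subtype.val e)
  subst this
  exact fun n => (hZ _).mp hh' _

end Pool.Agent.Work.MP_997ab3_co
end

-- merged part: Pool.Agent.Work.MP_997ab3_co.F.ES
section
/-! Exponential sums with unit bases and their polynomial multiples. -/

namespace Pool.Agent.Work.MP_997ab3_co.F

open Finset Polynomial

/-- Positive real algebraic units. -/
def PU (ρ : ℝ) : Prop := 0 < ρ ∧ IsIntegral ℤ ρ ∧ IsIntegral ℤ ρ⁻¹

lemma PU.inv {ρ : ℝ} (h : PU ρ) : PU ρ⁻¹ := ⟨inv_pos.mpr h.1, h.2.2, by simpa using h.2.1⟩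

lemma PU.unit_pow {ρ : ℝ} (h : PU ρ) (s : ℤˣ) : PU (ρ ^ (s : ℤ)) := by
  rcases Int.units_eq_one_or s with rfl | rfl
  · simpa using h
  · simpa using h.inv

lemma PU.alg {ρ : ℝ} (h : PU ρ) : IsAlgebraic ℚ ρ := (h.2.1.tower_top (A := ℚ)).isAlgebraic

lemma pu_one : PU 1 := ⟨one_pos, isIntegral_one, by simpa using isIntegral_one⟩

lemma coeff_mem (A : Subfield ℝ) (M : AddSubgroup ℝ) (hM : ∀ a ∈ A, ∀ x ∈ M, a * x ∈ M)
    (R : Finset ℝ) (hR : ∀ ρ ∈ R, ρ ∈ A) (c : ℝ → ℝ)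
    (h : ∀ n < R.card, ∑ ρ ∈ R, c ρ * ρ ^ n ∈ M) : ∀ ρ ∈ R, c ρ ∈ M := by
  classical
  induction R using Finset.induction_on generalizing c with
  | empty => simp
  | insert σ R hσ ih =>
    rw [card_insert_of_notMem hσ] at h
    have hσA := hR σ (mem_insert_self _ _)
    have h1 : ∀ ρ ∈ R, c ρ ∈ M := by
      intro ρ hρ
      have h2 := ih (fun ρ hρ => hR ρ (mem_insert_of_mem hρ)) (fun ρ => (ρ - σ) * c ρ)
        (fun n hn => by
          have h3 := M.sub_mem (h (n + 1) (by omega)) (hM σ hσA _ (h n (by omega)))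
          rw [mul_sum, ← sum_sub_distrib, sum_insert hσ] at h3
          have e : ∑ ρ ∈ R, (ρ - σ) * c ρ * ρ ^ n = c σ * σ ^ (n + 1) - σ * (c σ * σ ^ n) +
              ∑ ρ ∈ R, (c ρ * ρ ^ (n + 1) - σ * (c ρ * ρ ^ n)) := by
            rw [show c σ * σ ^ (n + 1) - σ * (c σ * σ ^ n) = 0 by ring, zero_add]
            exact sum_congr rfl fun ρ _ => by ring
          rwa [e]) ρ hρ
      have h4 : ρ - σ ≠ 0 := sub_ne_zero.mpr (ne_of_mem_of_not_mem hρ hσ)
      have h5 := hM _ (A.inv_mem (A.sub_mem (hR ρ (mem_insert_of_mem hρ)) hσA)) _ h2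
      rwa [inv_mul_cancel_left₀ h4] at h5
    intro ρ hρ
    rcases mem_insert.mp hρ with rfl | hρ
    · have h2 := h 0 (by omega)
      simp only [pow_zero, mul_one, sum_insert hσ] at h2
      simpa using M.sub_mem h2 (M.sum_mem h1)
    · exact h1 ρ hρ

lemma coeff_zero {R : Finset ℝ} {c : ℝ → ℝ} (h : ∀ n < R.card, ∑ ρ ∈ R, c ρ * ρ ^ n = 0) :
    ∀ ρ ∈ R, c ρ = 0 := by
  simpa using coeff_mem ⊤ ⊥ (by simp) R (by simp) c (by simpa using h)

lemma coeff_alg {R : Finset ℝ} {c : ℝ → ℝ} (hR : ∀ ρ ∈ R, IsAlgebraic ℚ ρ)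
    (h : ∀ n : ℕ, ∃ z : ℤ, ∑ ρ ∈ R, c ρ * ρ ^ n = z) : ∀ ρ ∈ R, IsAlgebraic ℚ (c ρ) := by
  intro ρ hρ
  refine (mem_algebraicClosure_iff (F := ℚ)).mp (coeff_mem (algebraicClosure ℚ ℝ).toSubfield
    (algebraicClosure ℚ ℝ).toSubfield.toAddSubgroup (fun a ha x hx => Subfield.mul_mem _ ha hx) R
    (fun ρ hρ => mem_algebraicClosure_iff.mpr (hR ρ hρ)) c (fun n _ => ?_) ρ hρ)
  obtain ⟨z, hz⟩ := h n
  rw [hz]
  exact intCast_mem (algebraicClosure ℚ ℝ).toSubfield z

/-- The exponential sum with coefficients `c`, multiplied by a power of shift plus `j`. -/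
noncomputable def ev (c : ℝ →₀ ℝ) (N j : ℕ) (k : ℤ) : ℝ :=
  Bp (fun ρ : ℝ => (ρ + j) ^ N * ρ ^ k) c

lemma ev_eq (c : ℝ →₀ ℝ) (N j : ℕ) (k : ℤ) {R : Finset ℝ} (h : c.support ⊆ R) :
    ev c N j k = ∑ ρ ∈ R, c ρ * ((ρ + j) ^ N * ρ ^ k) := Bp_eq_sum _ _ h

/-- Shift of the coefficients. -/
noncomputable def sh (c : ℝ →₀ ℝ) (w : ℝ → ℝ) : ℝ →₀ ℝ :=
  Finsupp.onFinset c.support (fun ρ => c ρ * w ρ) fun _ h =>
    Finsupp.mem_support_iff.mpr (left_ne_zero_of_mul h)

@[simp] lemma sh_apply (c : ℝ →₀ ℝ) (w : ℝ → ℝ) (ρ : ℝ) : sh c w ρ = c ρ * w ρ := rfl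

lemma sh_support (c : ℝ →₀ ℝ) (w : ℝ → ℝ) : (sh c w).support ⊆ c.support :=
  Finsupp.support_onFinset_subset

lemma Bp_sh (c : ℝ →₀ ℝ) (w f : ℝ → ℝ) : Bp f (sh c w) = Bp (fun ρ => w ρ * f ρ) c := by
  rw [Bp_eq_sum _ _ (sh_support c w), Bp_eq_sum _ _ subset_rfl]
  exact sum_congr rfl fun ρ _ => by rw [sh_apply, mul_assoc]

lemma ev_shift {c : ℝ →₀ ℝ} (hc : ∀ ρ ∈ c.support, 0 < ρ) (N j : ℕ) (i k : ℤ) :
    ev (sh c fun ρ => ρ ^ i) N j k = ev c N j (k + i) := by
  rw [ev, Bp_sh]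
  exact Bp_congr _ fun ρ hρ => by rw [zpow_add₀ (hc ρ hρ).ne']; ring

lemma ev_succ {c : ℝ →₀ ℝ} (hc : ∀ ρ ∈ c.support, 0 < ρ) (N j : ℕ) (k : ℤ) :
    ev c (N + 1) j k = ev c N j (k + 1) + j * ev c N j k := by
  simp only [ev_eq _ _ _ _ subset_rfl, mul_sum, ← sum_add_distrib]
  exact sum_congr rfl fun ρ hρ => by rw [zpow_add_one₀ (hc ρ hρ).ne']; ring

/-- The value at level zero as a polynomial in `j`. -/
noncomputable def pol (c : ℝ →₀ ℝ) (N : ℕ) : ℝ[X] := ∑ ρ ∈ c.support, C (c ρ) * (X + C ρ) ^ N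

lemma pol_eval (c : ℝ →₀ ℝ) (N j : ℕ) : (pol c N).eval (j : ℝ) = ev c N j 0 := by
  simp [pol, ev_eq _ _ _ _ subset_rfl, eval_finsetSum, add_comm]

lemma pol_deg (c : ℝ →₀ ℝ) (N : ℕ) : (pol c N).natDegree ≤ N := by
  refine natDegree_sum_le_of_forall_le _ _ fun ρ _ => (natDegree_C_mul_le _ _).trans ?_
  simpa using natDegree_pow_le_of_le N (natDegree_X_add_C ρ).le

lemma pol_const {c : ℝ →₀ ℝ} {N : ℕ} (hN : c.support.card ≤ N) {a : ℝ} (h : pol c N = C a) :
    c = 0 := by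
  ext ρ
  by_cases hρ : ρ ∈ c.support
  · refine coeff_zero (fun n hn => ?_) ρ hρ
    have h1 := congrArg (fun p => coeff p (N - n)) h
    simp only [pol, finsetSum_coeff, coeff_C_mul, coeff_X_add_C_pow,
      coeff_C_of_ne_zero (by omega : N - n ≠ 0), ← mul_assoc, ← sum_mul,
      Nat.sub_sub_self (by omega : n ≤ N)] at h1
    exact (mul_eq_zero.mp h1).resolve_right
      (Nat.cast_ne_zero.mpr (Nat.choose_pos (by omega)).ne')
  · exact Finsupp.notMem_support_iff.mp hρ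

/-- Families of order at most `(1 + j) ^ (e * N) * μ ^ n`. -/
def Small (e : ℕ) (μ : ℝ) (F : ℕ → ℕ → ℕ → ℝ) : Prop :=
  ∀ N, ∃ C : ℝ, 0 ≤ C ∧ ∀ j n, |F N j n| ≤ C * ((1 + j) ^ (e * N) * μ ^ n)

lemma Small.add {e : ℕ} {μ : ℝ} {F F' : ℕ → ℕ → ℕ → ℝ} (h : Small e μ F) (h' : Small e μ F') :
    Small e μ fun N j n => F N j n + F' N j n := by
  intro N
  obtain ⟨C, h0, h1⟩ := h N
  obtain ⟨C', h0', h1'⟩ := h' N
  exact ⟨C + C', by positivity, fun j n => (abs_add_le _ _).trans (by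
    rw [add_mul]; exact add_le_add (h1 j n) (h1' j n))⟩

lemma Small.mono {e : ℕ} {μ μ' : ℝ} {F : ℕ → ℕ → ℕ → ℝ} (h : Small e μ F) (h0 : 0 ≤ μ)
    (h1 : μ ≤ μ') : Small e μ' F := by
  intro N
  obtain ⟨C, h2, h3⟩ := h N
  exact ⟨C, h2, fun j n => (h3 j n).trans (by gcongr)⟩

lemma add_le_mul_add {σ ρ : ℝ} (hσ : 0 < σ) (hρ : 0 < ρ) (j : ℕ) :
    σ + j ≤ (1 + σ / ρ) * (ρ + j) := by
  have : σ / ρ * ρ = σ := div_mul_cancel₀ _ hρ.ne'
  nlinarith [div_pos hσ hρ, Nat.cast_nonneg (α := ℝ) j]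

lemma small_sum (e : ℕ) {μ : ℝ} (R : Finset ℝ) (a l : ℝ → ℝ)
    (h : ∀ ρ ∈ R, 0 < ρ ∧ 0 ≤ l ρ ∧ l ρ ≤ μ) :
    Small e μ fun N j n => ∑ ρ ∈ R, a ρ * ((ρ + j) ^ (e * N) * l ρ ^ n) := by
  intro N
  refine ⟨∑ ρ ∈ R, |a ρ| * (1 + ρ / 1) ^ (e * N), sum_nonneg fun ρ hρ => by
    have := (h ρ hρ).1; positivity, fun j n => (abs_sum_le_sum_abs _ _).trans ?_⟩
  rw [sum_mul]
  refine sum_le_sum fun ρ hρ => ?_
  obtain ⟨h1, h2, h3⟩ := h ρ hρ
  rw [abs_mul, abs_of_nonneg (a := _ * _) (by positivity), mul_assoc, ← mul_assoc (_ ^ _),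
    ← mul_pow]
  gcongr
  exact add_le_mul_add h1 one_pos j

lemma asym {c : ℝ →₀ ℝ} (hc : ∀ ρ ∈ c.support, 0 < ρ) (h0 : c ≠ 0) (s : ℤˣ) :
    ∃ ρ ∈ c.support, ∃ μ, 0 < μ ∧ μ < ρ ^ (s : ℤ) ∧
      (∀ σ ∈ c.support, σ ^ (s : ℤ) ≤ ρ ^ (s : ℤ)) ∧ ∀ e, Small e μ fun N j n =>
        ev c (e * N) j (s * n) - c ρ * ((ρ + j) ^ (e * N) * (ρ ^ (s : ℤ)) ^ n) := by
  classical
  obtain ⟨ρ, hρ, hmax⟩ := exists_max_image c.support (fun σ => σ ^ (s : ℤ))
    (Finsupp.support_nonempty_iff.mpr h0)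
  have hp : 0 < ρ ^ (s : ℤ) := zpow_pos (hc ρ hρ) _
  obtain ⟨μ, hμ, hμ'⟩ := exists_max_image
    (insert (ρ ^ (s : ℤ) / 2) ((c.support.erase ρ).image fun σ => σ ^ (s : ℤ))) id
    (insert_nonempty _ _)
  have h1 : ρ ^ (s : ℤ) / 2 ≤ μ := hμ' _ (mem_insert_self _ _)
  refine ⟨ρ, hρ, μ, by linarith, ?_, hmax, fun e => ?_⟩
  · rcases mem_insert.mp hμ with rfl | hμ
    · linarith
    · obtain ⟨σ, hσ, rfl⟩ := mem_image.mp hμ
      obtain ⟨h2, h3⟩ := mem_erase.mp hσ
      exact lt_of_le_of_ne (hmax σ h3) fun h =>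
        h2 ((zpow_left_inj₀ (hc σ h3).le (hc ρ hρ).le s.ne_zero).mp h)
  · have h2 := small_sum e (μ := μ) (c.support.erase ρ) c (fun σ => σ ^ (s : ℤ))
      fun σ hσ => ⟨hc σ (mem_of_mem_erase hσ), (zpow_pos (hc σ (mem_of_mem_erase hσ)) _).le,
        hμ' _ (mem_insert_of_mem (mem_image_of_mem _ hσ))⟩
    intro N
    obtain ⟨C, h3, h4⟩ := h2 N
    refine ⟨C, h3, fun j n => le_of_eq_of_le ?_ (h4 j n)⟩
    simp only [ev_eq _ _ _ _ subset_rfl, zpow_mul, zpow_natCast]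
    rw [← add_sum_erase _ _ hρ, add_sub_cancel_left]

lemma nonvanish {c : ℝ →₀ ℝ} (hc : ∀ ρ ∈ c.support, 0 < ρ) (h0 : c ≠ 0) (N : ℕ) :
    ∃ K : ℕ, ∀ j : ℕ, ∀ k : ℤ, ev c N j k = 0 → k.natAbs ≤ K := by
  have key : ∀ s : ℤˣ, ∀ᶠ n : ℕ in Filter.atTop, ∀ j : ℕ, ev c N j (s * n) ≠ 0 := by
    intro s
    obtain ⟨ρ, hρ, μ, h1, h2, -, h3⟩ := asym hc h0 s
    obtain ⟨C, h4, h5⟩ := h3 1 N
    have hρ0 := hc ρ hρ
    have hc0 : 0 < |c ρ| := abs_pos.mpr (Finsupp.mem_support_iff.mp hρ)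
    have hl : 0 < ρ ^ (s : ℤ) := h1.trans h2
    have h6 := ((tendsto_pow_atTop_nhds_zero_of_lt_one (div_pos h1 hl).le
      ((div_lt_one hl).mpr h2)).const_mul (C * (1 + 1 / ρ) ^ N))
    rw [mul_zero] at h6
    filter_upwards [h6.eventually (gt_mem_nhds hc0)] with n hn j h7
    have h8 := h5 j n
    simp only [one_mul] at h8
    rw [h7, zero_sub, abs_neg, abs_mul, abs_of_pos (a := _ * _) (by positivity)] at h8
    have h9 : C * ((1 + j) ^ N * μ ^ n) ≤ C * (((1 + 1 / ρ) * (ρ + j)) ^ N * μ ^ n) := by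
      clear * - C j N μ n ρ hρ0 h1 h4
      gcongr
      exact add_le_mul_add one_pos hρ0 j
    rw [div_pow, ← mul_div_assoc, div_lt_iff₀ (by positivity)] at hn
    have h10 := mul_lt_mul_of_pos_left hn (by positivity : 0 < (ρ + j) ^ N)
    rw [mul_pow] at h9
    linarith
  obtain ⟨K, hK⟩ := Filter.eventually_atTop.mp (Filter.eventually_all.mpr key)
  refine ⟨K, fun j k hk => ?_⟩
  by_contra hlt
  rcases Int.natAbs_eq k with h | h
  · exact hK k.natAbs (by omega) 1 j (by simpa [← h] using hk)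
  · exact hK k.natAbs (by omega) (-1) j (by rw [h] at hk; simpa using hk)

/-- Coefficient data with unit bases, algebraic coefficients, and growth at both ends. -/
def GoodC (c : ℝ →₀ ℝ) : Prop :=
  (∀ ρ ∈ c.support, PU ρ ∧ IsAlgebraic ℚ (c ρ)) ∧ ∀ s : ℤˣ, ∃ ρ ∈ c.support, 1 < ρ ^ (s : ℤ)

/-- Integer sequences given by good coefficient data. -/
def GoodS (g : ℤ → ℤ) : Prop := ∃ c, GoodC c ∧ ∀ k, (g k : ℝ) = ev c 0 0 k

lemma GoodC.pos {c : ℝ →₀ ℝ} (h : GoodC c) : ∀ ρ ∈ c.support, 0 < ρ := fun ρ hρ => (h.1 ρ hρ).1.1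

lemma GoodC.ne_zero {c : ℝ →₀ ℝ} (h : GoodC c) : c ≠ 0 := by
  obtain ⟨ρ, hρ, -⟩ := h.2 1
  exact Finsupp.support_nonempty_iff.mp ⟨ρ, hρ⟩

lemma GoodS.expSum {g : ℤ → ℤ} (h : GoodS g) : (fun k => (g k : ℝ)) ∈ ExpSum := by
  obtain ⟨c, hc, hg⟩ := h
  have : (fun k => (g k : ℝ)) = ∑ ρ ∈ c.support, c ρ • fun k : ℤ => ρ ^ k := by
    ext k
    simp [hg, ev_eq _ _ _ _ subset_rfl]
  rw [this]
  exact Submodule.sum_mem _ fun ρ hρ =>
    Submodule.smul_mem _ _ (Submodule.subset_span ⟨ρ, hc.pos ρ hρ, rfl⟩)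

lemma const_expSum (a : ℝ) : (fun _ : ℤ => a) ∈ ExpSum := by
  have : (fun _ : ℤ => a) = a • fun k : ℤ => (1 : ℝ) ^ k := by ext; simp
  rw [this]
  exact Submodule.smul_mem _ _ (Submodule.subset_span ⟨1, one_pos, rfl⟩)

lemma GoodS.thin {g : ℤ → ℤ} (h : GoodS g) {a : ℝ} (ha : a ≠ 0) (b : ℝ) :
    Thin {t : ℤ | ∃ k, a * t + b = g k} :=
  (thin_int (const_expSum a) (Submodule.sub_mem _ (const_expSum b) h.expSum)).mono
    fun t ⟨k, hk⟩ => ⟨k, ha, by simp only [Pi.sub_apply]; linarith⟩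

lemma goodS_of {c : ℝ →₀ ℝ} (hc : GoodC c) (N : ℕ) {j : ℕ} {a : ℝ} {g : ℤ → ℤ}
    (hg : ∀ k, (g k : ℝ) = a + ev c N j k) : GoodS g := by
  classical
  set d := sh c (fun ρ => (ρ + j) ^ N) + Finsupp.single 1 a with hd
  have h1 : ∀ k, (g k : ℝ) = ev d 0 0 k := fun k => by
    simp [hg, hd, ev, Bp_sh, add_comm]
  have h2 : ∀ ρ ∈ d.support, PU ρ := fun ρ hρ => by
    rcases mem_union.mp (Finsupp.support_add hρ) with h | h
    · exact (hc.1 ρ (sh_support _ _ h)).1
    · rw [mem_singleton.mp (Finsupp.support_single_subset h)]; exact pu_one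
  refine ⟨d, ⟨fun ρ hρ => ⟨h2 ρ hρ, coeff_alg (fun ρ hρ => (h2 ρ hρ).alg)
    (fun n => ⟨g n, by simp [h1, ev_eq _ _ _ _ subset_rfl]⟩) ρ hρ⟩, fun s => ?_⟩, h1⟩
  obtain ⟨ρ, hρ, h3⟩ := hc.2 s
  refine ⟨ρ, Finsupp.mem_support_iff.mpr ?_, h3⟩
  have h4 : ρ ≠ 1 := by rintro rfl; simp at h3
  have h5 := hc.pos ρ hρ
  rw [hd, Finsupp.add_apply, Finsupp.single_eq_of_ne h4, add_zero, sh_apply]
  exact mul_ne_zero (Finsupp.mem_support_iff.mp hρ) (by positivity)

lemma count {ι : Type*} [Finite ι] (N K : ℕ) (P : ι → ℤ → ℤ → ℝ[X])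
    (hdeg : ∀ i n m, (P i n m).natDegree ≤ N) : ∃ j, K ≤ j ∧ ∀ i n m, P i n m ≠ 0 →
      n.natAbs ≤ K * (Nat.log 2 j + 1) → m.natAbs ≤ K * (Nat.log 2 j + 1) →
        (P i n m).eval (j : ℝ) ≠ 0 := by
  classical
  have := Fintype.ofFinite ι
  obtain ⟨L, hL⟩ : ∃ L : ℕ, K + Fintype.card ι * (2 * (K * (L + 1)) + 1) ^ 2 * N < 2 ^ L := by
    set a : ℕ := K + Fintype.card ι * (4 * K + 1) ^ 2 * N with ha
    have h1 := (tendsto_pow_const_div_const_pow_of_one_lt 2 (one_lt_two (α := ℝ))).const_mul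
      (a : ℝ)
    rw [mul_zero] at h1
    obtain ⟨L, h2, h3⟩ := ((h1.eventually (gt_mem_nhds one_pos)).and
      (Filter.eventually_ge_atTop 1)).exists
    rw [← mul_div_assoc, div_lt_one (by positivity)] at h2
    have h4 : a * L ^ 2 < 2 ^ L := by exact_mod_cast h2
    refine ⟨L, lt_of_le_of_lt ?_ h4⟩
    have h5 : 2 * (K * (L + 1)) + 1 ≤ (4 * K + 1) * L := by clear * - K L h3; nlinarith
    calc _ ≤ K * L ^ 2 + Fintype.card ι * ((4 * K + 1) * L) ^ 2 * N := by
          clear * - K L ι this N h3 h5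
          gcongr
          exact Nat.le_mul_of_pos_right _ (by positivity)
      _ = _ := by rw [ha]; ring
  set B : ℕ := K * (L + 1) with hB
  set I := (univ : Finset ι) ×ˢ Icc (-(B : ℤ)) B ×ˢ Icc (-(B : ℤ)) B with hI
  set T := I.biUnion fun q => (P q.1 q.2.1 q.2.2).roots.toFinset with hT
  have h1 : T.card ≤ Fintype.card ι * (2 * B + 1) ^ 2 * N := by
    refine card_biUnion_le_card_mul _ _ N (fun q _ => (Multiset.toFinset_card_le _).trans
      ((card_roots' _).trans (hdeg _ _ _))) |>.trans (le_of_eq ?_)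
    rw [hI, card_product, card_product, Int.card_Icc, card_univ,
      show ((B : ℤ) + 1 - -(B : ℤ)).toNat = 2 * B + 1 by omega, sq]
  obtain ⟨x, hx, hxT⟩ := exists_mem_notMem_of_card_lt_card (s := T)
    (t := (Ico K (2 ^ L)).image (Nat.cast : ℕ → ℝ)) (by
      rw [card_image_of_injective _ Nat.cast_injective, Nat.card_Ico]; omega)
  obtain ⟨j, hj, rfl⟩ := mem_image.mp hx
  obtain ⟨hj1, hj2⟩ := mem_Ico.mp hj
  refine ⟨j, hj1, fun i n m h0 hn hm h => hxT (mem_biUnion.mpr ⟨(i, n, m), ?_, ?_⟩)⟩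
  · have h2 : K * (Nat.log 2 j + 1) ≤ B := by
      have : Nat.log 2 j ≤ L := (Nat.log_mono_right hj2.le).trans (Nat.log_pow one_lt_two L).le
      rw [hB]; gcongr
    simp only [hI, mem_product, mem_univ, mem_Icc, true_and]
    omega
  · exact Multiset.mem_toFinset.mpr ((mem_roots h0).mpr h)

end Pool.Agent.Work.MP_997ab3_co.F
end

-- merged part: Pool.Agent.Work.MP_997ab3_co.F.Large
section
/-! Coincidences of two multiplied exponential families at large levels. -/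

namespace Pool.Agent.Work.MP_997ab3_co.F

open Finset NumberField Filter

lemma size_cmp (c : ℝ) {c' l l' τ C A : ℝ} (hc' : c' ≠ 0) (hτ : 0 < τ) (hC : 0 ≤ C) (hl : 1 < l)
    (hl' : 1 < l') (hA1 : Real.log l ≤ A * Real.log l') (hA2 : 1 ≤ A * Real.log l') (N : ℕ) :
    ∃ B, 0 ≤ B ∧ ∀ (a b L ε ε' : ℝ) (n m : ℕ), 1 ≤ L → 0 < a → a ≤ Real.exp L → 1 ≤ b →
      |ε| ≤ C * Real.exp (-(2 * τ * n)) → |ε'| ≤ C * Real.exp (-(2 * τ * m)) →
      c * (a ^ N * l ^ n) * (1 + ε) = c' * (b ^ N * l' ^ m) * (1 + ε') → (m : ℝ) ≤ A * n + B * L := by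
  have hp := Real.log_pos hl'
  have hA : 0 < A := (mul_pos_iff_of_pos_right hp).mp (by linarith)
  have hc0 : 0 < |c'| := abs_pos.mpr hc'
  set Q := 2 * (|c| * (1 + C)) / |c'| with hQ
  have hQ0 : 0 ≤ Q := by positivity
  refine ⟨A * (N + Q) + C / τ, by clear * - A N Q C τ hA c c' hC hc' hτ; positivity, fun a b L ε ε' n m hL ha haL hb hε hε' h => ?_⟩
  have hn0 : 0 ≤ A * n := by positivity
  have hB1 : 0 ≤ A * (N + Q) := by positivity
  have hB2 : 0 ≤ C / τ := by positivity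
  by_cases hm : (m : ℝ) ≤ C / τ
  · linarith only [hm, hn0, hB1, le_mul_of_one_le_right (add_nonneg hB1 hB2) hL]
  rw [not_le, div_lt_iff₀ hτ] at hm
  have h1 : |ε'| ≤ 1 / 2 := by
    refine hε'.trans ?_
    rw [Real.exp_neg, ← div_eq_mul_inv, div_le_iff₀ (by positivity)]
    linarith only [hm, Real.add_one_le_exp (2 * τ * m)]
  have h2 : |ε| ≤ C := hε.trans (mul_le_of_le_one_right hC (Real.exp_le_one_iff.mpr (by
    rw [neg_nonpos]; positivity)))
  have h3 : |c'| * (1 * l' ^ m) * (1 / 2) ≤ |c| * (Real.exp L ^ N * l ^ n) * (1 + C) := by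
    clear * - l hl l' hl' c' m c a N n ε L C b ε' hb hc' h1 h ha haL h2
    have hl0 : 0 < l := by linarith
    have hl0' : 0 < l' := by linarith
    calc _ ≤ |c'| * (b ^ N * l' ^ m) * |1 + ε'| := by
          gcongr
          · exact one_le_pow₀ hb
          · exact le_abs.mpr (Or.inl (by linarith [(abs_le.mp h1).1]))
      _ = |c| * (a ^ N * l ^ n) * |1 + ε| := by
          have := congrArg abs h
          simp only [abs_mul, abs_pow, abs_of_pos ha, abs_of_pos hl0, abs_of_pos hl0',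
            abs_of_pos (zero_lt_one.trans_le hb)] at this
          exact this.symm
      _ ≤ _ := by
          gcongr
          exact (abs_add_le _ _).trans (by rw [abs_one]; linarith)
  have h4 : Real.exp (m * Real.log l') ≤ Real.exp (Q + (N * L + n * Real.log l)) := by
    clear * - m l' Q N L n l hl' hl c C c' hQ hc0 h3
    rw [Real.exp_add, Real.exp_add, Real.exp_nat_mul, Real.exp_nat_mul, Real.exp_nat_mul,
      Real.exp_log (by linarith), Real.exp_log (by linarith)]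
    calc l' ^ m ≤ Q * (Real.exp L ^ N * l ^ n) := by
          rw [hQ, div_mul_eq_mul_div, le_div_iff₀ hc0]; linarith
      _ ≤ _ := by
          have : 0 < l := by linarith
          gcongr
          linarith [Real.add_one_le_exp Q]
  rw [Real.exp_le_exp] at h4
  have h5 : (m : ℝ) ≤ A * n + A * (N + Q) * L := by
    clear * - l' m A n N Q L l h4 hA1 c C c' hQ0 hL hC hc' hA2 hp
    refine le_of_mul_le_mul_right (h4.trans ?_) hp
    have e1 : n * Real.log l ≤ n * (A * Real.log l') := by gcongr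
    have e2 : Q + N * L ≤ (N + Q) * L := by linarith only [le_mul_of_one_le_right hQ0 hL]
    have e3 : (N + Q) * L ≤ (N + Q) * L * (A * Real.log l') :=
      le_mul_of_one_le_right (by positivity) hA2
    linarith
  linarith only [h5, mul_nonneg hB2 (zero_le_one.trans hL)]

lemma min_big {n m A B L K : ℝ} (hA : 0 < A) (hL : 1 ≤ L) (hBK : B ≤ K) (hnm : n ≤ m) (hn : 0 ≤ n)
    (h1 : m ≤ A * n + B * L) (h : ¬(n ≤ (B + A * K) * L ∧ m ≤ (B + A * K) * L)) :
    K * L ≤ n ∧ n ≤ (A + 1) * n ∧ m ≤ (A + 1) * n := by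
  have h2 : (B + A * K) * L < m := by
    by_contra h2
    exact h ⟨hnm.trans (not_lt.mp h2), not_lt.mp h2⟩
  have h3 : K * L ≤ n := le_of_mul_le_mul_left (by linarith) hA
  refine ⟨h3, by nlinarith, by nlinarith⟩

lemma ratio_close {ε ε' δ : ℝ} (h : |ε| ≤ δ / 4) (h' : |ε'| ≤ δ / 4) (hδ : δ ≤ 1) :
    0 < 1 + ε ∧ |(1 + ε') / (1 + ε) - 1| ≤ δ := by
  obtain ⟨h1, h2⟩ := abs_le.mp h
  obtain ⟨h3, h4⟩ := abs_le.mp h'
  have h0 : 0 < 1 + ε := by linarith
  refine ⟨h0, ?_⟩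
  rw [div_sub_one h0.ne', abs_div, abs_of_pos h0, div_le_iff₀ h0, abs_le]
  constructor <;> nlinarith

variable {K : Type*} [Field K] [NumberField K]

lemma large_core (ι : K →+* ℝ) {c c' l l' : K} (hc : c ≠ 0) (hc' : c' ≠ 0)
    (il : IsIntegral ℤ l) (il' : IsIntegral ℤ l') (hl : 1 < ι l) (hl' : 1 < ι l') {τ : ℝ}
    (hτ : 0 < τ) : ∀ᶠ N : ℕ in atTop, ∀ C, 0 ≤ C → ∃ K0 : ℝ, 0 ≤ K0 ∧
      ∀ (a b : K) (L ε ε' : ℝ) (n m : ℕ), IsIntegral ℤ a → IsIntegral ℤ b → 1 ≤ L → 1 ≤ ι a →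
        1 ≤ ι b → house a ≤ Real.exp L → house b ≤ Real.exp L →
        |ε| ≤ C * Real.exp (-(2 * τ * n)) → |ε'| ≤ C * Real.exp (-(2 * τ * m)) →
        ι c * (ι a ^ N * ι l ^ n) * (1 + ε) = ι c' * (ι b ^ N * ι l' ^ m) * (1 + ε') →
        ((n : ℝ) ≤ K0 * L ∧ (m : ℝ) ≤ K0 * L) ∨ c * (a ^ N * l ^ n) = c' * (b ^ N * l' ^ m) := by
  have hp := Real.log_pos hl
  have hp' := Real.log_pos hl'
  set S := Real.log (ι l) + Real.log (ι l') + 1 with hS
  set A := S / Real.log (ι l) + S / Real.log (ι l') with hA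
  have hA0 : 0 < A := by positivity
  have hA1 : S ≤ A * Real.log (ι l) := by
    rw [hA, add_mul, div_mul_cancel₀ _ hp.ne']
    exact le_add_of_nonneg_right (by positivity)
  have hA2 : S ≤ A * Real.log (ι l') := by
    rw [hA, add_mul, div_mul_cancel₀ _ hp'.ne']
    exact le_add_of_nonneg_left (by positivity)
  set H := house l + house l' with hH
  have hH0 : 0 ≤ H := add_nonneg (house_nonneg _) (house_nonneg _)
  have hH1 : house l ≤ Real.exp H := by linarith [Real.add_one_le_exp H, house_nonneg l']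
  have hH2 : house l' ≤ Real.exp H := by linarith [Real.add_one_le_exp H, house_nonneg l]
  set A2 := 1 + (A + 1) * H with hA2'
  have hA20 : 1 ≤ A2 := le_add_of_nonneg_right (by clear * - A H S K ι l l' hp hp' hH0 A2; positivity)
  have hιc : ι c ≠ 0 := (map_ne_zero ι).mpr hc
  have hιc' : ι c' ≠ 0 := (map_ne_zero ι).mpr hc'
  filter_upwards [siegel ι (κ := τ / A2) (by clear * - τ A2 hτ A H S K ι l l' hp hp' hH0; positivity), eventually_ge_atTop 1] with N hN hN1 C hC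
  have hN0 : (0 : ℝ) < N := by exact_mod_cast hN1
  choose h0 hh0 using hN
  obtain ⟨hm, hhm⟩ := ((range N ×ˢ range N).image
    fun q => h0 (c * l ^ q.1 / (c' * l' ^ q.2))).bddAbove
  obtain ⟨B, hB0, hB⟩ := size_cmp (ι c) hιc' hτ hC hl hl' (A := A) (by linarith) (by linarith) N
  obtain ⟨B', hB0', hB'⟩ := size_cmp (ι c') hιc hτ hC hl' hl (A := A) (by linarith) (by linarith) N
  set K1 := B + B' + N + 4 * C / τ + N * |hm| with hK1
  have e1 : 0 ≤ 4 * C / τ := by positivity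
  have e2 : 0 ≤ N * |hm| := by positivity
  refine ⟨B + B' + A * K1, by clear * - B B' A K1 hB0 hB0' S K ι l l' hp hp' N C τ hm hN1 hC hτ; positivity,
    fun a b L ε ε' n m ia ib hL pa pb ha hb hε hε' h => or_iff_not_imp_left.mpr fun hbig => ?_⟩
  have h1 := hB _ _ L ε ε' n m hL (by linarith)
    ((le_abs_self _).trans ((abs_le_house ι a).trans ha)) pb hε hε' h
  have h2 := hB' _ _ L ε' ε m n hL (by linarith)
    ((le_abs_self _).trans ((abs_le_house ι b).trans hb)) pa hε' hε h.symm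
  obtain ⟨μ, hμ1, hμn, hμm, hμn', hμm'⟩ : ∃ μ : ℝ, K1 * L ≤ μ ∧ n ≤ (A + 1) * μ ∧
      m ≤ (A + 1) * μ ∧ μ ≤ n ∧ μ ≤ m := by
    clear * - n m K1 L A B B' hA0 hL N C τ hm hN0 e1 e2 h1 hB0' hbig h2 hB0 K h
    rcases le_total (n : ℝ) m with h3 | h3
    · obtain ⟨h4, h5, h6⟩ := min_big (K := K1) hA0 hL (by linarith) h3 (by positivity)
        (h1.trans (by gcongr; linarith)) hbig
      exact ⟨n, h4, h5, h6, le_rfl, h3⟩
    · obtain ⟨h4, h5, h6⟩ := min_big (K := K1) hA0 hL (by linarith) h3 (by positivity)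
        (h2.trans (by gcongr; linarith)) (fun h => hbig h.symm)
      exact ⟨m, h4, h6, h5, h3, le_rfl⟩
  have hK0 : 0 ≤ K1 := by clear * - K1 B B' N C τ hm hB0 hB0' hN1 hC hτ; positivity
  have hμ2 : K1 ≤ μ := (le_mul_of_one_le_right hK0 hL).trans hμ1
  have hμ0 : 0 ≤ μ := hK0.trans hμ2
  have hLμ : L ≤ μ / N := by
    clear * - L μ N hN0 K1 B B' C τ hm hB0 hB0' e1 e2 hL hμ1
    rw [le_div_iff₀ hN0]
    exact le_trans (by rw [mul_comm]; gcongr; linarith) hμ1
  have hhouse : ∀ (x y : K) (k : ℕ), house x ≤ Real.exp L → house y ≤ Real.exp H →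
      k ≤ (A + 1) * μ → house (x * y ^ (k / N)) ≤ Real.exp (A2 * (μ / N)) := by
    intro x y k hx hy hk
    refine (house_mul_exp hx (house_pow_exp hy _)).trans (Real.exp_le_exp.mpr ?_)
    have h3 : ((k / N : ℕ) : ℝ) ≤ (A + 1) * (μ / N) :=
      Nat.cast_div_le.trans (by rw [← mul_div_assoc]; gcongr)
    have h4 := mul_le_mul_of_nonneg_right h3 hH0
    rw [hA2']
    linarith
  have hsmall : ∀ (x : ℝ) (k : ℕ), μ ≤ k → |x| ≤ C * Real.exp (-(2 * τ * k)) →
      |x| ≤ Real.exp (-(τ * μ)) / 4 := by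
    clear * - μ C τ N B B' hm K1 hN0 hB0 hB0' e2 hμ2 hτ hC
    intro x k hk hx
    have h3 : 4 * C ≤ Real.exp (τ * μ) := by
      have : 4 * C / τ ≤ μ := by linarith
      rw [div_le_iff₀ hτ] at this
      linarith [Real.add_one_le_exp (τ * μ)]
    calc |x| ≤ C * Real.exp (-(2 * τ * μ)) := hx.trans (by gcongr)
      _ ≤ Real.exp (τ * μ) / 4 * Real.exp (-(2 * τ * μ)) := by gcongr; linarith
      _ = _ := by rw [div_mul_eq_mul_div, ← Real.exp_add]; congr 2; ring
  obtain ⟨h3, h4⟩ := ratio_close (hsmall ε n hμn' hε) (hsmall ε' m hμm' hε')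
    (Real.exp_le_one_iff.mpr (by rw [neg_nonpos]; positivity))
  have pl : 0 < ι l := by clear * - K ι l hl; linarith
  have pl' : 0 < ι l' := by clear * - K ι l' hl'; linarith
  have pa' : 0 < ι a := by clear * - K ι a pa; linarith
  have pb' : 0 < ι b := by clear * - K ι b pb; linarith
  have h5 : ι (c * l ^ (n % N) / (c' * l' ^ (m % N))) *
      (ι (a * l ^ (n / N)) / ι (b * l' ^ (m / N))) ^ N =
      ι c * (ι a ^ N * ι l ^ n) / (ι c' * (ι b ^ N * ι l' ^ m)) := by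
    clear * - K ι c l n N c' l' m a b hl' pb hl pa hιc' hιc
    conv_rhs => rw [← Nat.div_add_mod' n N, ← Nat.div_add_mod' m N]
    simp only [map_div₀, map_mul, map_pow, div_pow, mul_pow, pow_add, pow_mul]
    field_simp
  have h6 := hh0 (c * l ^ (n % N) / (c' * l' ^ (m % N))) (A2 * (μ / N)) (by
      clear * - h0 K c l n N m c' l' hm hhm hN1 μ hN0 B B' C τ K1 hB0 hB0' e1 hμ2 A2 hμ0 hA20
      have h7 := hhm (mem_coe.mpr (mem_image_of_mem _ (mem_product.mpr
        ⟨mem_range.mpr (Nat.mod_lt n hN1), mem_range.mpr (Nat.mod_lt m hN1)⟩ :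
          (n % N, m % N) ∈ range N ×ˢ range N)))
      have h8 : |hm| ≤ μ / N := by rw [le_div_iff₀ hN0]; linarith
      exact (h7.trans ((le_abs_self _).trans h8)).trans
        (le_mul_of_one_le_left (by positivity) hA20))
    (a * l ^ (n / N)) (b * l' ^ (m / N)) (ia.mul (il.pow _)) (ib.mul (il'.pow _))
    (by rw [map_mul, map_pow]; positivity) (by rw [map_mul, map_pow]; positivity)
    (hhouse a l n ha hH1 hμn) (hhouse b l' m hb hH2 hμm) (by
      clear * - K ι c l n N c' l' m a b τ A2 μ h5 hA20 hN1 hτ ε' ε hιc' pb hl' h3 h h4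
      rw [h5, show τ / A2 * N * (A2 * (μ / N)) = τ * μ by field_simp,
        (div_eq_div_iff (by positivity) h3.ne').mpr (h.trans (mul_comm _ _))]
      exact h4)
  rw [h5, div_eq_one_iff_eq (by clear * - K ι c' b N l' m hιc' pb hl' h5 h6; positivity)] at h6
  exact ι.injective (by simpa using h6)

lemma exact_case {c c' ρ ρ' l l' : K} (hc : c ≠ 0) (hc' : c' ≠ 0) (iρ : IsIntegral ℤ ρ)
    (iρ' : IsIntegral ℤ ρ') (il : IsIntegral ℤ l) (il' : IsIntegral ℤ l'⁻¹) (hl' : l' ≠ 0)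
    (M : ℕ) {N : ℕ} (hN : 1 ≤ N) (h0 : (ρ' - ρ) ^ M ≠ 0) : ∃ B : ℝ, ∀ j n m : ℕ,
      c * ((ρ + j) ^ N * l ^ n) = c' * ((ρ' + j) ^ M * l' ^ m) → j ≤ B := by
  obtain ⟨g, g1, hg0, ig1, hg1⟩ := exists_den (c' / c)
  have hg : (g : K) ≠ 0 := Nat.cast_ne_zero.mpr hg0
  refine ⟨house (g1 * (ρ' - ρ) ^ M) + house (-ρ), fun j n m h => ?_⟩
  obtain ⟨N, rfl⟩ := Nat.exists_eq_add_of_le' hN
  have ij : IsIntegral ℤ (j : K) := isIntegral_natCast j
  set w := g * ((ρ + j) ^ N * l ^ n * l'⁻¹ ^ m) -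
    g1 * ∑ i ∈ range M, (ρ' + j) ^ i * (ρ' - ρ) ^ (M - 1 - i) with hw
  have iw : IsIntegral ℤ w := ((isIntegral_natCast g).mul
    ((((iρ.add ij).pow _).mul (il.pow _)).mul (il'.pow _))).sub (ig1.mul
      (IsIntegral.sum _ fun i _ => ((iρ'.add ij).pow _).mul ((iρ'.sub iρ).pow _)))
  have h1 : w * (ρ + j) = g1 * (ρ' - ρ) ^ M := by
    have h2 := geom_sum₂_mul (ρ' + j) (ρ' - ρ) M
    have h3 : g * ((ρ + j) ^ N * l ^ n * l'⁻¹ ^ m) * (ρ + j) = g1 * (ρ' + j) ^ M := by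
      rw [hg1, inv_pow]
      field_simp
      linear_combination h
    linear_combination h3 - g1 * h2
  have h2 : g1 * (ρ' - ρ) ^ M ≠ 0 := mul_ne_zero (by rw [hg1]; simp [hg, hc, hc']) h0
  have h3 := one_le_house_of_isIntegral iw fun h => h2 (by rw [← h1, h, zero_mul])
  have h4 : j * house w ≤ house (g1 * (ρ' - ρ) ^ M) + house (-ρ) * house w := by
    rw [← house_nat_mul, show j * w = g1 * (ρ' - ρ) ^ M + -ρ * w by linear_combination h1]
    exact (house_add_le _ _).trans (by gcongr; exact house_mul_le _ _)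
  refine le_of_mul_le_mul_right (h4.trans ?_) (zero_lt_one.trans_le h3)
  rw [add_mul]
  gcongr
  exact le_mul_of_one_le_right (house_nonneg _) h3

lemma exists_field {S : Set ℝ} (hS : S.Finite) (h : ∀ x ∈ S, IsAlgebraic ℚ x) :
    ∃ (K : Type) (_ : Field K) (_ : NumberField K) (ι : K →+* ℝ), ∀ x ∈ S, ∃ y, ι y = x := by
  have := hS.to_subtype
  have := IntermediateField.finiteDimensional_adjoin (K := ℚ) fun x hx => (h x hx).isIntegral
  exact ⟨IntermediateField.adjoin ℚ S, inferInstance, NumberField.of_module_finite ℚ _,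
    algebraMap _ ℝ, fun x hx => ⟨⟨x, IntermediateField.subset_adjoin ℚ S hx⟩, rfl⟩⟩

lemma small_eps {e : ℕ} {c ρ l μ τ : ℝ} (hc : c ≠ 0) (hρ : 0 < ρ) (hl : 0 < l) (hμ : 0 ≤ μ)
    (hτ : μ / l ≤ Real.exp (-(2 * τ))) {F : ℕ → ℕ → ℕ → ℝ}
    (hF : Small e μ fun N j n => F N j n - c * ((ρ + j) ^ (e * N) * l ^ n)) (N : ℕ) :
    ∃ C, 0 ≤ C ∧ ∀ j n : ℕ, ∃ ε, |ε| ≤ C * Real.exp (-(2 * τ * n)) ∧
      F N j n = c * ((ρ + j) ^ (e * N) * l ^ n) * (1 + ε) := by
  obtain ⟨C, h0, h1⟩ := hF N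
  have hc0 : 0 < |c| := abs_pos.mpr hc
  refine ⟨C * (1 + 1 / ρ) ^ (e * N) / |c|, by positivity, fun j n =>
    ⟨(F N j n - c * ((ρ + j) ^ (e * N) * l ^ n)) / (c * ((ρ + j) ^ (e * N) * l ^ n)), ?_, by
      field_simp; ring⟩⟩
  rw [abs_div, abs_mul, abs_of_pos (a := _ * _) (by positivity), div_le_iff₀ (by positivity)]
  refine (h1 j n).trans ?_
  rw [div_le_iff₀ hl] at hτ
  calc _ ≤ C * (((1 + 1 / ρ) * (ρ + j)) ^ (e * N) * (Real.exp (-(2 * τ)) * l) ^ n) := by
        clear * - C j e N μ n ρ τ l hρ hμ hτ h0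
        gcongr
        exact add_le_mul_add one_pos hρ j
    _ = _ := by
        clear * - C ρ j e N τ l n c hρ hc hl
        rw [mul_pow, mul_pow, ← Real.exp_nat_mul, show n * -(2 * τ) = -(2 * τ * n) by ring]
        field_simp

theorem large {c c' ρ ρ' l l' μ μ' : ℝ} (ac : IsAlgebraic ℚ c) (ac' : IsAlgebraic ℚ c')
    (hc : c ≠ 0) (hc' : c' ≠ 0) (pρ : PU ρ) (pρ' : PU ρ') (pl : PU l) (pl' : PU l') (hl : 1 < l)
    (hl' : 1 < l') (hμ : 0 < μ) (hμl : μ < l) (hμ' : 0 < μ') (hμl' : μ' < l') {e : ℕ}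
    (he : e ≤ 1) {F F' : ℕ → ℕ → ℕ → ℝ}
    (hF : Small 1 μ fun N j n => F N j n - c * ((ρ + j) ^ (1 * N) * l ^ n))
    (hF' : Small e μ' fun N j n => F' N j n - c' * ((ρ' + j) ^ (e * N) * l' ^ n)) :
    ∀ᶠ N in atTop, ∃ K : ℕ, ∀ j, K ≤ j → ∀ n m, F N j n = F' N j m →
      (n ≤ K * (Nat.log 2 j + 1) ∧ m ≤ K * (Nat.log 2 j + 1)) ∨
        (e = 1 ∧ ρ = ρ' ∧ c * l ^ n = c' * l' ^ m) := by
  set θ := max (μ / l) (μ' / l') with hθ
  have hθ0 : 0 < θ := lt_max_of_lt_left (div_pos hμ pl.1)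
  have hθ1 : θ < 1 := max_lt ((div_lt_one pl.1).mpr hμl) ((div_lt_one pl'.1).mpr hμl')
  have hτ : 0 < -Real.log θ / 2 := by linarith [Real.log_neg hθ0 hθ1]
  have hτ' : Real.exp (-(2 * (-Real.log θ / 2))) = θ := by
    rw [← Real.exp_log hθ0, Real.log_exp]; congr 1; ring
  have hG := small_eps hc pρ.1 pl.1 hμ.le ((le_max_left _ _).trans hτ'.ge) hF
  have hG' := small_eps hc' pρ'.1 pl'.1 hμ'.le ((le_max_right _ _).trans hτ'.ge) hF'
  obtain ⟨K, _, _, ι, hι⟩ := exists_field (S := {c, c', ρ, ρ', l, l'}) (Set.toFinite _) (by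
    simp [ac, ac', pρ.alg, pρ'.alg, pl.alg, pl'.alg])
  obtain ⟨c, rfl⟩ := hι c (by simp)
  obtain ⟨c', rfl⟩ := hι c' (by simp)
  obtain ⟨ρ, rfl⟩ := hι ρ (by simp)
  obtain ⟨ρ', rfl⟩ := hι ρ' (by simp)
  obtain ⟨l, rfl⟩ := hι l (by simp)
  obtain ⟨l', rfl⟩ := hι l' (by simp)
  have hint : ∀ x, IsIntegral ℤ (ι x) → IsIntegral ℤ x := fun x =>
    (isIntegral_algHom_iff ι.toIntAlgHom ι.injective).mp
  rw [map_ne_zero] at hc hc'
  filter_upwards [large_core ι hc hc' (hint _ pl.2.1) (hint _ pl'.2.1) hl hl' hτ,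
    eventually_ge_atTop 1] with N hN hN1
  obtain ⟨C, hC, hG⟩ := hG N
  obtain ⟨C', hC', hG'⟩ := hG' N
  obtain ⟨K0, hK0, hN⟩ := hN (C + C') (by positivity)
  obtain ⟨B, hB⟩ : ∃ B : ℝ, ∀ j n m : ℕ, c * ((ρ + j) ^ N * l ^ n) =
      c' * ((ρ' + j) ^ (e * N) * l' ^ m) → j ≤ B ∨ (e = 1 ∧ ρ = ρ') := by
    by_cases h0 : (ρ' - ρ) ^ (e * N) = 0
    · obtain ⟨h1, h2⟩ := pow_eq_zero_iff'.mp h0
      exact ⟨0, fun _ _ _ _ => Or.inr ⟨(Nat.le_one_iff_eq_zero_or_eq_one.mp he).resolve_left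
        fun h3 => h2 (by rw [h3, zero_mul]), (sub_eq_zero.mp h1).symm⟩⟩
    · obtain ⟨B, hB⟩ := exact_case hc hc' (hint _ pρ.2.1) (hint _ pρ'.2.1) (hint _ pl.2.1)
        (hint _ (by simpa using pl'.2.2)) ((map_ne_zero ι).mp pl'.1.ne') _ hN1 h0
      exact ⟨B, fun j n m h => Or.inl (hB j n m h)⟩
  set H := house ρ + house ρ' with hH
  have hH0 : 0 ≤ H := add_nonneg (house_nonneg _) (house_nonneg _)
  obtain ⟨K1, hK1⟩ := exists_nat_ge (K0 * (H + 1) + |B| + 1)
  have e0 : 0 ≤ K0 * (H + 1) := by positivity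
  refine ⟨K1, fun j hj n m h => ?_⟩
  have hj' : (K1 : ℝ) ≤ j := by exact_mod_cast hj
  have hj1 : (1 : ℝ) ≤ j := by linarith [abs_nonneg B]
  set T : ℝ := Nat.log 2 j + 1 with hT
  have hT1 : 1 ≤ T := le_add_of_nonneg_left (by positivity)
  have hjT : (j : ℝ) ≤ Real.exp T := by
    clear * - j T hT
    have h1 : (j : ℝ) ≤ 2 ^ (Nat.log 2 j + 1) := by
      exact_mod_cast (Nat.lt_pow_succ_log_self one_lt_two j).le
    refine h1.trans ?_
    rw [hT, ← Nat.cast_succ, ← Real.exp_one_pow]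
    gcongr
    linarith [Real.add_one_le_exp (1 : ℝ)]
  have hh : ∀ x : K, house x ≤ H → house (x + j) ≤ Real.exp (H + T) := fun x hx => by
    have h1 : house (j : K) = j := by simpa using house_intCast (K := K) j
    refine (house_add_le _ _).trans ?_
    rw [h1, Real.exp_add]
    calc _ ≤ (H + 1) * j := by linarith only [hx, le_mul_of_one_le_right hH0 hj1]
      _ ≤ _ := mul_le_mul (Real.add_one_le_exp H) hjT (by positivity) (by positivity)
  obtain ⟨ε, hε, h1⟩ := hG j n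
  obtain ⟨ε', hε', h2⟩ := hG' j m
  have ij : IsIntegral ℤ (j : K) := isIntegral_natCast j
  have h3 := hN (ρ + j) ((ρ' + j) ^ e) (H + T) ε ε' n m ((hint _ pρ.2.1).add ij)
    (((hint _ pρ'.2.1).add ij).pow _) (by linarith)
    (by rw [map_add, map_natCast]; linarith [pρ.1])
    (by rw [map_pow, map_add, map_natCast]; exact one_le_pow₀ (by linarith [pρ'.1]))
    (hh _ (by linarith [house_nonneg ρ'])) (by
      rcases Nat.le_one_iff_eq_zero_or_eq_one.mp he with rfl | rfl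
      · simpa using (house_intCast (K := K) 1).le.trans
          (by simpa using by linarith : ((|1| : ℤ) : ℝ) ≤ Real.exp (H + T))
      · simpa using hh _ (by linarith [house_nonneg ρ]))
    (hε.trans (by gcongr; linarith)) (hε'.trans (by gcongr; linarith)) (by
      rw [h1, h2] at h
      simpa [pow_mul] using h)
  rcases h3 with h3 | h3
  · have h4 : K0 * (H + T) ≤ K1 * T := by
      calc K0 * (H + T) ≤ K0 * ((H + 1) * T) := by
            gcongr; linarith only [le_mul_of_one_le_right hH0 hT1]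
        _ ≤ K1 * T := by rw [← mul_assoc]; gcongr; linarith [abs_nonneg B]
    left
    constructor
    · exact_mod_cast (h3.1.trans h4 : (n : ℝ) ≤ K1 * (Nat.log 2 j + 1))
    · exact_mod_cast (h3.2.trans h4 : (m : ℝ) ≤ K1 * (Nat.log 2 j + 1))
  rw [← pow_mul] at h3
  rcases hB j n m h3 with h4 | ⟨rfl, rfl⟩
  · linarith [le_abs_self B]
  refine Or.inr ⟨rfl, rfl, ?_⟩
  have h4 : (ρ + j) ^ N ≠ 0 := pow_ne_zero _ ((map_ne_zero ι).mp (by
    rw [map_add, map_natCast]; linarith [pρ.1]))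
  rw [one_mul, mul_left_comm, mul_left_comm c'] at h3
  simpa using congrArg ι (mul_left_cancel₀ h4 h3)

end Pool.Agent.Work.MP_997ab3_co.F
end
end

-- merged part: Pool.Agent.Work.MP_997ab3_co.Three
section
/-! Two-term and three-term relations. -/

namespace Pool.Agent.Work.MP_997ab3_co

open Finset Filter Topology

variable {V : Type*} {G : SimpleGraph V} [G.LocallyFinite] {Δ : ℕ}

lemma two_zero {v u : V} {a b : ℤ} (h0 : U G a (dl v) = U G b (dl u))
    (h1 : U G (a - 1) (dl v) = U G (b - 1) (dl u)) : (v, a) = (u, b) := by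
  have hab : a = b := by
    have := congrArg mass h0
    simpa [mass_U] using this
  subst hab
  have := ((sol_U G a (dl v)).sub (sol_U G a (dl u))).eq (a - 1)
  simp only [sub_zero, h0, h1, sub_self, map_zero, sub_sub_cancel, U_one] at this
  rw [Finsupp.single_left_injective one_ne_zero (sub_eq_zero.mp this)]

lemma exists_hull (G : SimpleGraph V) [G.LocallyFinite] (R : ℤ) (F : Finset V) :
    ∃ F' : Finset V, F ⊆ F' ∧ ∀ v a, (v, a) ∈ near G R F →
      (U G a (dl v)).support ⊆ F' ∧ (U G (a - 1) (dl v)).support ⊆ F' := by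
  classical
  refine ⟨F ∪ (near_finite G R F).toFinset.biUnion fun P =>
    (U G P.2 (dl P.1)).support ∪ (U G (P.2 - 1) (dl P.1)).support, subset_union_left,
    fun v a h => ⟨fun y hy => ?_, fun y hy => ?_⟩⟩
  · exact mem_union_right _ (mem_biUnion.mpr ⟨(v, a), by simpa using h, mem_union_left _ hy⟩)
  · exact mem_union_right _ (mem_biUnion.mpr ⟨(v, a), by simpa using h, mem_union_right _ hy⟩)

lemma not_near {R : ℤ} {F : Finset V} {v : V} {a : ℤ} (ha : |a| ≤ R) (h : (v, a) ∉ near G R F)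
    {y : V} (hy : y ∈ F) : U G a (dl v) y = 0 ∧ U G (a - 1) (dl v) y = 0 := by
  by_contra hn
  exact h ⟨ha, y, hy, not_and_or.mp hn⟩

lemma eq_zero_of_supp {f : V →₀ ℝ} {F : Finset V} (h : f.support ⊆ F) (h0 : ∀ y ∈ F, f y = 0) :
    f = 0 := by
  ext y
  by_cases hy : y ∈ f.support
  · exact h0 y (h hy)
  · exact Finsupp.notMem_support_iff.mp hy

lemma supp_of_sub {f g : V →₀ ℝ} {F : Finset V} (h : (f - g).support ⊆ F) (hf : f.support ⊆ F) :
    g.support ⊆ F := by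
  intro y hy
  by_contra hn
  have h1 := Finsupp.notMem_support_iff.mp fun h' => hn (h h')
  have h2 := Finsupp.notMem_support_iff.mp fun h' => hn (hf h')
  rw [Finsupp.sub_apply, h2, zero_sub, neg_eq_zero] at h1
  exact Finsupp.mem_support_iff.mp hy h1

lemma supp_neg {f g : V →₀ ℝ} {F : Finset V} (h : f.support ⊆ F) (e : g = -f) :
    g.support ⊆ F := by rwa [e, Finsupp.support_neg]

lemma supp_swap {f g : V →₀ ℝ} {F : Finset V} (h : (f - g).support ⊆ F) :
    (g - f).support ⊆ F := by rwa [← neg_sub, Finsupp.support_neg]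

/-- Pairs of points whose difference functional is supported in `F`. -/
def Two (G : SimpleGraph V) [G.LocallyFinite] (F : Finset V) : Set ((V × ℤ) × (V × ℤ)) :=
  {p | p.1 ≠ p.2 ∧ (U G p.1.2 (dl p.1.1) - U G p.2.2 (dl p.2.1)).support ⊆ F ∧
    (U G (p.1.2 - 1) (dl p.1.1) - U G (p.2.2 - 1) (dl p.2.1)).support ⊆ F}

lemma two_bounded (F : Finset V) (R : ℤ) :
    {p ∈ Two G F | |p.1.2| ≤ R ∧ |p.2.2| ≤ R}.Finite := by
  obtain ⟨F', hF, hF'⟩ := exists_hull G R F
  have key : ∀ v a u b, (v, a) ∈ near G R F → |b| ≤ R →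
      (U G a (dl v) - U G b (dl u)).support ⊆ F →
      (U G (a - 1) (dl v) - U G (b - 1) (dl u)).support ⊆ F → (u, b) ∈ near G R F' := by
    intro v a u b h hb h0 h1
    by_contra hn
    have e0 := eq_zero_of_supp (supp_of_sub (h0.trans hF) (hF' v a h).1)
      fun y hy => (not_near hb hn hy).1
    have e1 := eq_zero_of_supp (supp_of_sub (h1.trans hF) (hF' v a h).2)
      fun y hy => (not_near hb hn hy).2
    have m0 := congrArg mass e0
    have m1 := congrArg mass e1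
    simp only [mass_U, mass_single, mul_one, map_zero, Int.cast_eq_zero] at m0 m1
    omega
  refine (((near_finite G R F).prod (near_finite G R F')).union
    ((near_finite G R F').prod (near_finite G R F))).subset ?_
  rintro ⟨⟨v, a⟩, u, b⟩ ⟨⟨hne, h0, h1⟩, ha, hb⟩
  by_cases hP : (v, a) ∈ near G R F
  · exact Or.inl ⟨hP, key v a u b hP hb h0 h1⟩
  by_cases hQ : (u, b) ∈ near G R F
  · exact Or.inr ⟨key u b v a hQ ha (supp_swap h0) (supp_swap h1), hQ⟩
  refine (hne (two_zero (sub_eq_zero.mp (eq_zero_of_supp h0 fun y hy => ?_))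
    (sub_eq_zero.mp (eq_zero_of_supp h1 fun y hy => ?_)))).elim
  · simp [(not_near ha hP hy).1, (not_near hb hQ hy).1]
  · simp [(not_near ha hP hy).2, (not_near hb hQ hy).2]

lemma two_levels (hG : NoFin G) (F : Finset V) :
    ∃ R : ℤ, ∀ p ∈ Two G F, p.1.2 ≠ p.2.2 → |p.1.2| ≤ R ∧ |p.2.2| ≤ R := by
  obtain ⟨FF, hFF⟩ := grow G F
  obtain ⟨R0, hR0⟩ := shatter hG F
  choose R hR using fun n => shatter hG (FF n)
  obtain ⟨B, hB⟩ := ((Set.finite_Icc (-R0) R0).image R).bddAbove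
  have key : ∀ v a u b, a ≠ b → |b| < R0 → (U G a (dl v) - U G b (dl u)).support ⊆ F →
      (U G (a - 1) (dl v) - U G (b - 1) (dl u)).support ⊆ F → |a| ≤ R0 + |B| := by
    intro v a u b hab hb h0 h1
    have h2 := hFF _ ((sol_U G a (dl v)).sub (sol_U G b (dl u))) (by simpa using h0) h1 b
    simp only [sub_self] at h2
    have h3 := hR b v u (a - b) 0 (sub_ne_zero.mpr hab) (Or.inr rfl) h2
    have h4 := hB ⟨b, abs_le.mp hb.le, rfl⟩
    have h5 := abs_add_le (a - b) b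
    rw [sub_add_cancel] at h5
    linarith [le_abs_self B]
  refine ⟨R0 + |B|, ?_⟩
  rintro ⟨⟨v, a⟩, u, b⟩ ⟨-, h0, h1⟩ hab
  have := abs_nonneg B
  by_cases hb : |b| < R0
  · exact ⟨key v a u b hab hb h0 h1, by simp only; linarith⟩
  · have ha := hR0 v u a b hab (Or.inl (not_lt.mp hb)) h0
    exact ⟨by simp only; linarith, key u b v a (Ne.symm hab) ha (supp_swap h0) (supp_swap h1)⟩

/-- A nontrivial three-term relation at `w` with levels `a` and `b`. -/
def Wit (G : SimpleGraph V) [G.LocallyFinite] (FF : ℤ → Finset V) (w : V) (a b : ℤ) : Prop :=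
  ∃ (v u : V) (c : ℤ), c ≠ 0 ∧
    (∀ n, (U G (a - n) (dl v) - U G (b - n) (dl u) - (c : ℝ) • U G (0 - n) (dl w)).support ⊆
      FF n) ∧ ¬ ((v, a) = (w, 0) ∧ c = 1) ∧ ¬ ((u, b) = (w, 0) ∧ c = -1)

lemma Wit.swap {FF : ℤ → Finset V} {w : V} {a b : ℤ} (h : Wit G FF w a b) : Wit G FF w b a := by
  obtain ⟨v, u, c, hc, h, h1, h2⟩ := h
  refine ⟨u, v, -c, neg_ne_zero.mpr hc, fun n => ?_, fun h => h2 ⟨h.1, by omega⟩,
    fun h => h1 ⟨h.1, by omega⟩⟩
  refine supp_neg (h n) ?_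
  push_cast
  module

lemma Wit.refl {FF : ℤ → Finset V} {w : V} {a b : ℤ} (h : Wit G FF w a b) :
    Wit G (fun n => FF (-n)) w (-a) (-b) := by
  obtain ⟨v, u, c, hc, h, h1, h2⟩ := h
  refine ⟨v, u, c, hc, fun n => ?_, fun h => h1 ⟨by simpa using h.1, h.2⟩,
    fun h => h2 ⟨by simpa using h.1, h.2⟩⟩
  refine supp_neg (h (-n)) ?_
  rw [show -a - n = -(a - -n) by ring, show -b - n = -(b - -n) by ring,
    show 0 - n = -(0 - -n) by ring, U_neg, U_neg, U_neg]
  module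

lemma wit_bounded (FF : ℤ → Finset V) (R : ℤ) :
    {w | ∃ a b, |a| ≤ R ∧ |b| ≤ R ∧ Wit G FF w a b}.Finite := by
  classical
  obtain ⟨F', hF, hF'⟩ := exists_hull G R (FF 0 ∪ FF 1)
  obtain ⟨F'', hF2, hF''⟩ := exists_hull G R F'
  have key : ∀ w v a u b (c : ℤ), c ≠ 0 → (v, a) ∈ near G R (FF 0 ∪ FF 1) → |b| ≤ R →
      (U G a (dl v) - U G b (dl u)).support ⊆ FF 0 ∪ FF 1 →
      (U G (a - 1) (dl v) - (U G (b - 1) (dl u) - (c : ℝ) • dl w)).support ⊆ FF 0 ∪ FF 1 →
      ¬ ((u, b) = (w, 0) ∧ c = -1) → w ∈ F'' := by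
    intro w v a u b c hc h hb h0 h1 hnt
    have hc' : (c : ℝ) ≠ 0 := by exact_mod_cast hc
    have s0 := supp_of_sub (h0.trans hF) (hF' v a h).1
    have s1 := supp_of_sub (h1.trans hF) (hF' v a h).2
    by_cases hQ : (u, b) ∈ near G R F'
    · exact supp_of_sub (s1.trans hF2) (hF'' u b hQ).2 (by simp [hc'])
    by_contra hw
    have hw' : w ∉ F' := fun h => hw (hF2 h)
    have e0 := eq_zero_of_supp s0 fun y hy => (not_near hb hQ hy).1
    have e1 := eq_zero_of_supp s1 fun y hy => by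
      have : w ≠ y := fun h => hw' (h ▸ hy)
      simp [(not_near hb hQ hy).2, this]
    have m0 := congrArg mass e0
    simp only [mass_U, mass_single, mul_one, map_zero, Int.cast_eq_zero] at m0
    subst m0
    have m1 := congrArg mass e1
    simp only [zero_sub, U_neg_one, map_sub, map_neg, mass_single, map_smul, smul_eq_mul, mul_one,
      map_zero] at m1 e1
    have hc1 : c = -1 := by exact_mod_cast (by linarith : (c : ℝ) = -1)
    subst hc1
    refine hnt ⟨?_, rfl⟩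
    have : dl w = dl u := by
      have e2 : dl w - dl u = -dl u - ((-1 : ℤ) : ℝ) • dl w := by push_cast; module
      rw [← sub_eq_zero, e2, e1]
    rw [Finsupp.single_left_injective one_ne_zero this]
  refine F''.finite_toSet.subset ?_
  rintro w ⟨a, b, ha, hb, v, u, c, hc, h, h1, h2⟩
  have h0 := (h 0).trans (subset_union_left (s₂ := FF 1))
  have h1' := (h 1).trans (subset_union_right (s₁ := FF 0))
  simp only [sub_zero, U_zero, smul_zero, zero_sub, U_neg_one] at h0 h1'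
  by_cases hP : (v, a) ∈ near G R (FF 0 ∪ FF 1)
  · exact key w v a u b c hc hP hb h0 (by convert h1' using 2; module) h2
  by_cases hQ : (u, b) ∈ near G R (FF 0 ∪ FF 1)
  · refine key w u b v a (-c) (neg_ne_zero.mpr hc) hQ ha (supp_swap h0) ?_
      fun h => h1 ⟨h.1, by omega⟩
    refine supp_neg h1' ?_
    push_cast
    module
  by_contra hw
  have hw' : w ∉ FF 0 ∪ FF 1 := fun h => hw (hF2 (hF h))
  have e0 := eq_zero_of_supp h0 fun y hy => by
    simp [(not_near ha hP hy).1, (not_near hb hQ hy).1]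
  have e1 := eq_zero_of_supp h1' fun y hy => by
    have : w ≠ y := fun h => hw' (h ▸ hy)
    simp [(not_near ha hP hy).2, (not_near hb hQ hy).2, this]
  have m0 := congrArg mass e0
  have m1 := congrArg mass e1
  simp only [map_sub, mass_U, mass_single, mul_one, map_zero, map_smul, map_neg, smul_eq_mul,
    Int.cast_sub, Int.cast_one] at m0 m1
  exact hc (by exact_mod_cast (by linarith : (c : ℝ) = 0))

lemma zlemma (γ : V → V → ℝ) (h0 : ∀ v y, 0 ≤ γ v y) (h1 : ∀ v K, ∑ y ∈ K, γ v y ≤ 1)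
    (A A' : Finset V) {η : ℝ} (hη : 0 < η) : ∃ K : Finset V, ∀ (e e' : V →₀ ℝ) (C : ℝ),
      e.support ⊆ A → e'.support ⊆ A' → 0 < C →
      (∀ x, |e' x - Bp (fun v => γ v x) e| ≤ 3 * C) →
        ∀ y ∉ K, |e' y - Bp (fun v => γ v y) e| < η * C := by
  classical
  have hlim : ∀ ζ : V → ℝ, (∀ y, 0 ≤ ζ y) → (∀ K, ∑ y ∈ K, ζ y ≤ 1) →
      Tendsto ζ cofinite (𝓝 0) := fun ζ h0 h1 =>
    (summable_of_sum_le h0 h1).tendsto_cofinite_zero
  have := span_vanish _ (A.image γ ∪ A'.image fun v => ⇑(dl v)) le_rfl (fun ζ hζ => by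
    rcases mem_union.mp hζ with h | h
    · obtain ⟨v, -, rfl⟩ := mem_image.mp h
      exact hlim _ (h0 v) (h1 v)
    · obtain ⟨v, -, rfl⟩ := mem_image.mp h
      have hn : ∀ y, 0 ≤ dl v y := fun y => by
        rw [Finsupp.single_apply]; split_ifs <;> norm_num
      exact hlim _ hn fun K => (sum_le_mass hn K).trans (by simp)) 3 η hη
  refine ⟨(eventually_cofinite.mp this).toFinset, fun e e' C he he' hC hb y hy => ?_⟩
  rw [Set.Finite.mem_toFinset, Set.mem_ofPred_eq, not_not] at hy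
  have h2 := hy (C⁻¹ • (∑ v ∈ A', e' v • ⇑(dl v) - ∑ v ∈ A, e v • γ v))
    (Submodule.smul_mem _ _ (Submodule.sub_mem _
      (Submodule.sum_mem _ fun v hv => Submodule.smul_mem _ _ (Submodule.subset_span
        (mem_coe.mpr (mem_union_right _ (mem_image.mpr ⟨v, hv, rfl⟩)))))
      (Submodule.sum_mem _ fun v hv => Submodule.smul_mem _ _ (Submodule.subset_span
        (mem_coe.mpr (mem_union_left _ (mem_image.mpr ⟨v, hv, rfl⟩)))))))
  have h3 : ∀ x, (C⁻¹ • (∑ v ∈ A', e' v • ⇑(dl v) - ∑ v ∈ A, e v • γ v)) x =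
      C⁻¹ * (e' x - Bp (fun v => γ v x) e) := by
    intro x
    rw [Bp_eq_sum _ _ he, ← Bp_dl e' x, Bp_eq_sum _ _ he']
    simp only [Pi.smul_apply, Pi.sub_apply, Finset.sum_apply, smul_eq_mul, Finsupp.single_apply,
      eq_comm]
  simp only [h3, abs_mul, abs_inv, abs_of_pos hC, inv_mul_le_iff₀ hC, inv_mul_lt_iff₀ hC] at h2
  rw [mul_comm]
  exact h2 fun x => by rw [mul_comm]; exact hb x

lemma abs_int_ge {c : ℤ} (hc : c ≠ 0) : (1 : ℝ) ≤ |(c : ℝ)| := by
  exact_mod_cast Int.one_le_abs hc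

lemma dl_bounds (v y : V) : 0 ≤ dl v y ∧ dl v y ≤ 1 := by
  classical
  rw [Finsupp.single_apply]; split_ifs <;> norm_num

lemma wit_pos (hG : NoFin G) (hΔ : ∀ v, G.degree v ≤ Δ) (FF : ℤ → Finset V) :
    {w | ∃ a b, 1 ≤ a ∧ 1 ≤ b ∧ Wit G FF w a b}.Finite := by
  classical
  obtain ⟨γ, g0, g1, g2, -, g4⟩ := exists_gamma hΔ
  have g1' : ∀ v j y, γ v j y ≤ 1 := fun v j y => by simpa using g1 v j {y}
  have hη : (0 : ℝ) < 1 / (Δ + 3) := by positivity
  have gη : ∀ v j y, γ v j y ≤ 1 - 1 / (Δ + 3) := by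
    intro v j y
    obtain ⟨y', hy'⟩ := exists_adj hG y
    have h1 := g1 v j {y, y'}
    rw [sum_pair hy'.ne] at h1
    have h2 := g2 v j y' y hy'.symm
    rw [le_sub_iff_add_le, ← le_sub_iff_add_le', div_le_iff₀ (by positivity)]
    nlinarith
  obtain ⟨K, hK⟩ := zlemma (fun v => γ v 1) (fun v => g0 v 1) (fun v => g1 v 1) (FF 0) (FF 1) hη
  refine K.finite_toSet.subset ?_
  rintro w ⟨a, b, ha, hb, v, u, c, hc, h, -, -⟩
  by_contra hw
  obtain ⟨a, rfl⟩ := Int.eq_ofNat_of_zero_le (by omega : 0 ≤ a)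
  obtain ⟨b, rfl⟩ := Int.eq_ofNat_of_zero_le (by omega : 0 ≤ b)
  have hc1 := abs_int_ge hc
  have hz : ∀ x, (U G (a - 1) (dl v) - U G (b - 1) (dl u) - (c : ℝ) • U G (0 - 1) (dl w)) x -
      Bp (fun v => γ v 1 x) (U G (a - 0) (dl v) - U G (b - 0) (dl u) -
        (c : ℝ) • U G (0 - 0) (dl w)) = c * dl w x - γ v a x + γ u b x := by
    intro x
    simp only [sub_zero, U_zero, smul_zero, zero_sub, U_neg_one, map_sub, Finsupp.sub_apply,
      Finsupp.smul_apply, Finsupp.neg_apply, smul_eq_mul]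
    rw [g4 v a x (by exact_mod_cast ha), g4 u b x (by exact_mod_cast hb)]
    ring
  have h2 := hK _ _ |(c : ℝ)| (h 0) (h 1) (by linarith) (fun x => by
    rw [hz, abs_le]
    have := dl_bounds w x
    have := g0 v a x
    have := g0 u b x
    have := g1' v a x
    have := g1' u b x
    have := le_abs_self (c : ℝ)
    have := neg_abs_le (c : ℝ)
    constructor <;> nlinarith) w hw
  rw [hz, Finsupp.single_eq_same, mul_one, abs_lt] at h2
  have := g0 v a w
  have := g0 u b w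
  have := gη v a w
  have := gη u b w
  have : 1 / ((Δ : ℝ) + 3) ≤ 1 := by linarith
  rcases abs_cases (c : ℝ) with h3 | h3 <;> nlinarith [h2.1, h2.2]

lemma wit_mixed (hG : NoFin G) (hΔ : ∀ v, G.degree v ≤ Δ) (FF : ℤ → Finset V) (m : ℕ)
    (hm : 1 ≤ m) : {w | ∃ a, 1 ≤ a ∧ Wit G FF w a (-m)}.Finite := by
  classical
  obtain ⟨γ, g0, g1, g2, g3, g4⟩ := exists_gamma hΔ
  have g1' : ∀ v j y, γ v j y ≤ 1 := fun v j y => by simpa using g1 v j {y}
  set η : ℝ := 1 / (Δ + 2) ^ (m + 1) with hηdef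
  have hη : 0 < η := by positivity
  obtain ⟨K, hK⟩ := zlemma (fun v => γ v 1) (fun v => g0 v 1) (fun v => g1 v 1) (FF (-m))
    (FF (-m + 1)) (half_pos hη)
  choose R hR using fun u => shatter hG (FF 0 ∪ (U G (-m) (dl u)).support)
  obtain ⟨B, hB⟩ := (K.finite_toSet.image R).bddAbove
  refine (((K ∪ K.biUnion fun y => G.neighborFinset y).finite_toSet).union
    (wit_bounded (G := G) FF (max B m))).subset ?_
  rintro w ⟨a, ha, hwit⟩
  by_contra hw
  simp only [Set.mem_union, not_or, mem_coe, mem_union, mem_biUnion, not_exists, not_and,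
    SimpleGraph.mem_neighborFinset, Set.mem_ofPred_eq] at hw
  obtain ⟨⟨hw1, hw2⟩, hw3⟩ := hw
  have hu : ∀ v u (c : ℝ), (U G (a - 0) (dl v) - U G (-m - 0) (dl u) -
      c • U G (0 - 0) (dl w)).support ⊆ FF 0 → u ∉ K := by
    intro v u c h hu
    simp only [sub_zero, U_zero, smul_zero] at h
    have h1 := hR u v v a 0 (by omega) (Or.inr rfl) (by
      rw [U_zero, sub_zero]
      exact supp_of_sub (supp_swap (h.trans subset_union_left)) subset_union_right)
    have h2 := hB ⟨u, hu, rfl⟩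
    exact hw3 a (-m) ((h1.le.trans h2).trans (le_max_left _ _)) (by simp) hwit
  obtain ⟨v, u, c, hc, h, -, -⟩ := hwit
  have huK := hu v u c (h 0)
  obtain ⟨a, rfl⟩ := Int.eq_ofNat_of_zero_le (by omega : 0 ≤ a)
  have hc1 := abs_int_ge hc
  have hz : ∀ x, (U G (a - (-m + 1)) (dl v) - U G (-m - (-m + 1)) (dl u) -
      (c : ℝ) • U G (0 - (-m + 1)) (dl w)) x - Bp (fun v => γ v 1 x) (U G (a - -m) (dl v) -
        U G (-m - -m) (dl u) - (c : ℝ) • U G (0 - -m) (dl w)) =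
          dl u x - γ v (a + m) x + c * γ w m x := by
    intro x
    have e1 : (a : ℤ) - (-m + 1) = ((a + m : ℕ) : ℤ) - 1 := by push_cast; ring
    have e2 : -(m : ℤ) - (-m + 1) = -1 := by ring
    have e3 : 0 - (-(m : ℤ) + 1) = m - 1 := by ring
    have e4 : (a : ℤ) - -m = ((a + m : ℕ) : ℤ) := by push_cast; ring
    have e5 : 0 - -(m : ℤ) = m := by ring
    rw [e1, e2, e3, e4, e5]
    simp only [sub_self, U_zero, sub_zero, U_neg_one, map_sub, map_smul, Finsupp.sub_apply,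
      Finsupp.smul_apply, Finsupp.neg_apply, smul_eq_mul]
    rw [g4 v (a + m) x (by omega), g4 w m x hm]
    ring
  have h2 := hK _ _ |(c : ℝ)| (h (-m)) (h (-m + 1)) (by linarith) (fun x => by
    rw [hz, abs_le]
    have := dl_bounds u x
    have := g0 v (a + m) x
    have := g0 w m x
    have := g1' v (a + m) x
    have := g1' w m x
    have := le_abs_self (c : ℝ)
    have := neg_abs_le (c : ℝ)
    constructor <;> nlinarith)
  simp only [hz] at h2
  obtain ⟨y, hyK, hyu, hy⟩ : ∃ y ∉ K, u ≠ y ∧ η ≤ γ w m y := by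
    obtain ⟨w', hw'⟩ := exists_adj hG w
    have h3 := g3 w m hm
    have h4 := g2 w m w' w hw'.symm
    have hp : (0 : ℝ) < (Δ + 2) ^ m := by positivity
    have hΔ0 : (0 : ℝ) ≤ Δ := by positivity
    by_cases huw : u = w
    · refine ⟨w', fun h => hw2 w' h hw'.symm, huw ▸ hw'.ne, ?_⟩
      rw [hηdef, div_le_iff₀ (by positivity), pow_succ]
      nlinarith
    · refine ⟨w, hw1, huw, ?_⟩
      rw [hηdef, div_le_iff₀ (by positivity), pow_succ]
      nlinarith [mul_nonneg (g0 w m w) hp.le]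
  have h5 := h2 y hyK
  have h6 := h2 u huK
  rw [Finsupp.single_eq_of_ne' hyu, abs_lt] at h5
  rw [Finsupp.single_eq_same, abs_lt] at h6
  have h7 := g1 v (a + m) {u, y}
  rw [sum_pair hyu] at h7
  have := g0 v (a + m) y
  have := g0 w m u
  rcases abs_cases (c : ℝ) with h3 | h3 <;> nlinarith [h5.1, h5.2, h6.1, h6.2]

theorem wit_finite (hG : NoFin G) (hΔ : ∀ v, G.degree v ≤ Δ) (FF : ℤ → Finset V) :
    {w | ∃ a b, Wit G FF w a b}.Finite := by
  obtain ⟨R, hR⟩ := shatter hG (FF 0)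
  have h1 := wit_bounded (G := G) FF (max R 0)
  have h2 := wit_pos hG hΔ FF
  have h3 := wit_pos hG hΔ fun n => FF (-n)
  have h4 := (Set.finite_Icc 1 R.toNat).biUnion fun m hm => wit_mixed hG hΔ FF m hm.1
  have h5 := (Set.finite_Icc 1 R.toNat).biUnion fun m hm =>
    wit_mixed hG hΔ (fun n => FF (-n)) m hm.1
  have key : ∀ w a b, Wit G FF w a b → (a = b ∨ |b| < R) → w ∈
      ((((h1.union h2).union h3).union h4).union h5).toFinset := by
    simp only [Set.Finite.mem_toFinset]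
    intro w a b h hab
    by_cases hpos : 1 ≤ a ∧ 1 ≤ b
    · exact Or.inl (Or.inl (Or.inl (Or.inr (show w ∈ {w | ∃ a b, 1 ≤ a ∧ 1 ≤ b ∧ Wit G FF w a b}
        from ⟨a, b, hpos.1, hpos.2, h⟩))))
    by_cases hneg : 1 ≤ -a ∧ 1 ≤ -b
    · exact Or.inl (Or.inl (Or.inr (show w ∈ {w | ∃ a b, 1 ≤ a ∧ 1 ≤ b ∧
        Wit G (fun n => FF (-n)) w a b} from ⟨-a, -b, hneg.1, hneg.2, h.refl⟩)))
    by_cases hbd : |a| ≤ max R 0 ∧ |b| ≤ max R 0
    · exact Or.inl (Or.inl (Or.inl (Or.inl (show w ∈ {w | ∃ a b, |a| ≤ max R 0 ∧ |b| ≤ max R 0 ∧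
        Wit G FF w a b} from ⟨a, b, hbd.1, hbd.2, h⟩))))
    have hne : a ≠ b := by
      rintro rfl
      exact hbd (by rw [show a = 0 by omega]; simp)
    have hb : |b| < R := hab.resolve_left hne
    have hb0 : b ≠ 0 := by
      rintro rfl
      obtain ⟨v, u, c, -, h, -⟩ := h
      have := hR v u a 0 hne (Or.inr rfl) (by simpa using h 0)
      exact hbd ⟨this.le.trans (le_max_left _ _), by simp⟩
    have ha0 : a ≠ 0 := by
      rintro rfl
      exact hbd ⟨by simp, hb.le.trans (le_max_left _ _)⟩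
    have hb' := abs_lt.mp hb
    obtain ⟨m, rfl | rfl⟩ := Int.eq_nat_or_neg b
    · exact Or.inr (show w ∈ ⋃ m ∈ Set.Icc 1 R.toNat, {w | ∃ a, 1 ≤ a ∧
        Wit G (fun n => FF (-n)) w a (-m)} from Set.mem_biUnion (x := m) ⟨by omega, by omega⟩
          ⟨-a, by omega, h.refl⟩)
    · exact Or.inl (Or.inr (show w ∈ ⋃ m ∈ Set.Icc 1 R.toNat, {w | ∃ a, 1 ≤ a ∧
        Wit G FF w a (-m)} from Set.mem_biUnion (x := m) ⟨by omega, by omega⟩
          ⟨a, by omega, h⟩))
  refine (Finset.finite_toSet ((((h1.union h2).union h3).union h4).union h5).toFinset).subset ?_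
  rintro w ⟨a, b, h⟩
  by_cases hab : a = b ∨ |b| < R
  · exact key w a b h hab
  · push Not at hab
    obtain ⟨v, u, c, -, h', -⟩ := id h
    exact key w b a h.swap (Or.inr (hR v u a b hab.1 (Or.inl hab.2) (by simpa using h' 0)))

end Pool.Agent.Work.MP_997ab3_co
end

-- merged part: Pool.Agent.Work.MP_997ab3_co.F.Final
section
-- merged part: Pool.Agent.Work.MP_997ab3_co.Main
section
/-! The greedy construction. -/

namespace Pool.Agent.Work.MP_997ab3_co

open Finset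

variable {V : Type*} {G : SimpleGraph V} [G.LocallyFinite] {Δ : ℕ}

/-- The value at a point as a functional of the values on levels one and zero. -/
noncomputable def ell (G : SimpleGraph V) [G.LocallyFinite] (P : V × ℤ) : V ⊕ V →₀ ℝ :=
  Finsupp.sumElim (U G P.2 (dl P.1)) (-U G (P.2 - 1) (dl P.1))

/-- The value at a point. -/
noncomputable def val (G : SimpleGraph V) [G.LocallyFinite] (x : V ⊕ V → ℤ) (P : V × ℤ) : ℝ :=
  Bp (fun y => (x y : ℝ)) (ell G P)

/-- The invariant. -/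
def Good (G : SimpleGraph V) [G.LocallyFinite] (F : Finset (V ⊕ V)) (x : V ⊕ V → ℤ) : Prop :=
  ∀ P Q, P ≠ Q → (ell G P - ell G Q).support ⊆ F → val G x P ≠ val G x Q

lemma ell_inl (P : V × ℤ) (y : V) : ell G P (.inl y) = U G P.2 (dl P.1) y := rfl
lemma ell_inr (P : V × ℤ) (y : V) : ell G P (.inr y) = -U G (P.2 - 1) (dl P.1) y := rfl

lemma ell_int (P : V × ℤ) (y : V ⊕ V) : ∃ k : ℤ, ell G P y = k := by
  cases y with
  | inl y => exact U_int G _ _ _
  | inr y =>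
    obtain ⟨k, hk⟩ := U_int G (P.2 - 1) P.1 y
    exact ⟨-k, by rw [ell_inr, hk]; simp⟩

lemma val_int (x : V ⊕ V → ℤ) (P : V × ℤ) : ∃ k : ℤ, val G x P = k := by
  choose k hk using ell_int (G := G) P
  exact ⟨∑ y ∈ (ell G P).support, k y * x y, by
    rw [val, Bp_eq_sum _ _ subset_rfl]; simp [hk]⟩

lemma ell_zero (w : V) : ell G (w, 0) = dl (.inr w) := by simp [ell]

lemma ell_rec (v : V) (n : ℤ) : ell G (v, n + 1) + ell G (v, n - 1) =
    ((G.degree v : ℝ) + 2) • ell G (v, n) - ∑ w ∈ G.neighborFinset v, ell G (w, n) := by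
  have key : ∀ n y, U G (n + 1) (dl v) y + U G (n - 1) (dl v) y =
      ((G.degree v : ℝ) + 2) * U G n (dl v) y - ∑ w ∈ G.neighborFinset v, U G n (dl w) y := by
    intro n y
    rw [← Finsupp.add_apply, U_rec', So_dl, map_sub, map_smul, map_sum]
    simp only [Finsupp.sub_apply, Finsupp.smul_apply, Finsupp.finsetSum_apply, smul_eq_mul]
  ext (y | y)
  · simp only [Finsupp.add_apply, Finsupp.sub_apply, Finsupp.smul_apply, Finsupp.finsetSum_apply,
      smul_eq_mul, ell_inl, key]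
  · have := key (n - 1) y
    simp only [Finsupp.add_apply, Finsupp.sub_apply, Finsupp.smul_apply, Finsupp.finsetSum_apply,
      smul_eq_mul, ell_inr, sum_neg_distrib, add_sub_cancel_right, sub_add_cancel] at this ⊢
    linarith

lemma mem_two [DecidableEq V] {F : Finset (V ⊕ V)} {P Q : V × ℤ} (hne : P ≠ Q)
    (h : (ell G P - ell G Q).support ⊆ F) : (P, Q) ∈ Two G (F.image (Sum.elim id id)) := by
  refine ⟨hne, fun y hy => mem_image.mpr ⟨.inl y, h ?_, rfl⟩,
    fun y hy => mem_image.mpr ⟨.inr y, h ?_, rfl⟩⟩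
  · refine Finsupp.mem_support_iff.mpr fun h0 => Finsupp.mem_support_iff.mp hy ?_
    simpa only [Finsupp.sub_apply, ell_inl] using h0
  · refine Finsupp.mem_support_iff.mpr fun h0 => Finsupp.mem_support_iff.mp hy ?_
    simp only [Finsupp.sub_apply, ell_inr] at h0 ⊢
    linarith

lemma val_update [DecidableEq V] {F : Finset (V ⊕ V)} {y : V ⊕ V} (hy : y ∉ F) (x : V ⊕ V → ℤ)
    (t : ℤ) {D : V ⊕ V →₀ ℝ} (h : D.support ⊆ insert y F) :
    Bp (fun z => (Function.update x y t z : ℝ)) D = D y * t + ∑ z ∈ F, D z * x z := by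
  rw [Bp_eq_sum _ _ h, sum_insert hy, Function.update_self]
  congr 1
  exact sum_congr rfl fun z hz => by rw [Function.update_of_ne (ne_of_mem_of_not_mem hz hy)]

lemma supp_erase [DecidableEq V] {F : Finset (V ⊕ V)} {y : V ⊕ V} {D : V ⊕ V →₀ ℝ}
    (h : D.support ⊆ insert y F) (h0 : D y = 0) : D.support ⊆ F := fun z hz =>
  (mem_insert.mp (h hz)).resolve_left fun e => Finsupp.mem_support_iff.mp hz (e ▸ h0)

lemma good_update [DecidableEq V] {F : Finset (V ⊕ V)} {x : V ⊕ V → ℤ} (h : Good G F x)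
    {y : V ⊕ V} (hy : y ∉ F) {t : ℤ} (ht : ∀ P Q, P ≠ Q →
      (ell G P - ell G Q).support ⊆ insert y F → (ell G P - ell G Q) y ≠ 0 →
        (ell G P - ell G Q) y * t + ∑ z ∈ F, (ell G P - ell G Q) z * x z ≠ 0) :
    Good G (insert y F) (Function.update x y t) := by
  intro P Q hne hs
  rw [val, val, ← sub_ne_zero, ← map_sub, val_update hy x t hs]
  by_cases h0 : (ell G P - ell G Q) y = 0
  · have := h P Q hne (supp_erase hs h0)
    rw [val, val, ← sub_ne_zero, ← map_sub, Bp_eq_sum _ _ (supp_erase hs h0)] at this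
    rwa [h0, zero_mul, zero_add]
  · exact ht P Q hne hs h0

lemma stepA [DecidableEq V] (hG : NoFin G) (hΔ : ∀ v, G.degree v ≤ Δ) {F : Finset (V ⊕ V)}
    {x : V ⊕ V → ℤ} (h : Good G F x) {y : V ⊕ V} (hy : y ∉ F) :
    ∃ t, Good G (insert y F) (Function.update x y t) := by
  set F0 := (insert y F).image (Sum.elim id id) with hF0
  obtain ⟨R1, hR1⟩ := two_levels hG F0
  obtain ⟨W, R2, hW⟩ := torsion_support hΔ F0
  let E : (V × ℤ) × (V × ℤ) → Set ℤ := fun p => {t | (ell G p.1 - ell G p.2) y ≠ 0 ∧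
    (ell G p.1 - ell G p.2) y * t + ∑ z ∈ F, (ell G p.1 - ell G p.2) z * x z = 0}
  have h1 : Thin (⋃ p ∈ {p ∈ Two G F0 | |p.1.2| ≤ max R1 R2 ∧ |p.2.2| ≤ max R1 R2}, E p) :=
    thin_biUnion (two_bounded F0 _) fun p _ => thin_of_finite (Set.Subsingleton.finite
      fun s hs t ht => by
        have := mul_left_cancel₀ hs.1 (add_right_cancel (hs.2.trans ht.2.symm))
        exact_mod_cast this)
  let T : Set (V × V) := {q | q ∈ W ×ˢ W ∧ ∀ n, (U G n (dl q.1 - dl q.2)).support ⊆ W}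
  have h2 : Thin (⋃ q ∈ T, ⋃ a, E ((q.1, a), (q.2, a))) := by
    refine thin_biUnion ((W ×ˢ W).finite_toSet.subset fun q hq => hq.1) fun q hq => ?_
    have h3 : ∀ z, (fun a => (ell G (q.1, a) - ell G (q.2, a)) z) ∈ ExpSum := by
      have h4 := sol_exp hG (e := fun n => U G n (dl q.1 - dl q.2)) (fun n => U_rec G n _) hq.2
      rintro (z | z)
      · simpa [ell_inl] using h4 z
      · have := Submodule.neg_mem _ (ExpSum.shift (h4 z) (-1))
        convert this using 1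
        ext a
        simp only [Finsupp.sub_apply, ell_inr, map_sub, Pi.neg_apply, sub_eq_add_neg a 1]
        ring
    have h5 : (fun a => ∑ z ∈ F, (ell G (q.1, a) - ell G (q.2, a)) z * x z) ∈ ExpSum := by
      have := Submodule.sum_mem ExpSum (t := F) fun z _ => Submodule.smul_mem _ (x z : ℝ) (h3 z)
      convert this using 1
      ext a
      simp only [Finset.sum_apply, Pi.smul_apply, smul_eq_mul, mul_comm]
    refine (thin_int (h3 y) h5).mono ?_
    intro t ht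
    exact Set.mem_iUnion.mp ht
  obtain ⟨t, ht⟩ := (h1.union h2).exists_notMem
  refine ⟨t, good_update h hy fun P Q hne hs h0 h3 => ht ?_⟩
  have hm := mem_two hne hs
  obtain ⟨v, a⟩ := P
  obtain ⟨u, b⟩ := Q
  by_cases hb : |a| ≤ max R1 R2 ∧ |b| ≤ max R1 R2
  · exact Or.inl (Set.mem_biUnion (x := ((v, a), (u, b))) ⟨hm, hb⟩ ⟨h0, h3⟩)
  have hab : a = b := by
    by_contra hab
    have := hR1 _ hm hab
    exact hb ⟨this.1.trans (le_max_left _ _), this.2.trans (le_max_left _ _)⟩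
  subst hab
  have hvu : v ≠ u := fun e => hne (by rw [e])
  have h4 := hW a (dl v - dl u) (by
    by_contra h5
    have := (not_le.mp h5).le.trans (le_max_right R1 R2)
    exact hb ⟨this, this⟩) (by rw [map_sub]; exact hm.2.1) (by rw [map_sub]; exact hm.2.2)
  have h5 := h4 1
  rw [U_one] at h5
  refine Or.inr (Set.mem_biUnion (x := (v, u)) ⟨mem_product.mpr ⟨h5 ?_, h5 ?_⟩, h4⟩
    (Set.mem_iUnion.mpr ⟨a, h0, h3⟩))
  · simp [hvu]
  · simp [hvu.symm]

lemma stepB [DecidableEq V] [Infinite V] (hG : NoFin G) (hΔ : ∀ v, G.degree v ≤ Δ)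
    {F : Finset (V ⊕ V)} {x : V ⊕ V → ℤ} (h : Good G F x) {t : ℤ}
    (ht : ∀ P, (ell G P).support ⊆ F → val G x P ≠ t) :
    ∃ w, Sum.inr w ∉ F ∧ Good G (insert (.inr w) F) (Function.update x (.inr w) t) := by
  set F0 := F.image (Sum.elim id id) with hF0
  obtain ⟨FF, hFF⟩ := grow G F0
  obtain ⟨w, hw⟩ := ((wit_finite hG hΔ FF).union F0.finite_toSet).exists_notMem
  simp only [Set.mem_union, Set.mem_ofPred_eq, not_or, not_exists, mem_coe] at hw
  have hwF : Sum.inr w ∉ F := fun h => hw.2 (mem_image.mpr ⟨_, h, rfl⟩)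
  refine ⟨w, hwF, good_update h hwF fun P Q _ hs h0 => ?_⟩
  obtain ⟨v, a⟩ := P
  obtain ⟨u, b⟩ := Q
  obtain ⟨k, hk⟩ := ell_int (G := G) (v, a) (.inr w)
  obtain ⟨k', hk'⟩ := ell_int (G := G) (u, b) (.inr w)
  have hc : (ell G (v, a) - ell G (u, b)) (.inr w) = ((k - k' : ℤ) : ℝ) := by
    rw [Finsupp.sub_apply, hk, hk']; simp
  have hrel := hFF _ (((sol_U G a (dl v)).sub (sol_U G b (dl u))).sub
    ((sol_U G 0 (dl w)).smul ((k - k' : ℤ) : ℝ))) (fun y hy => by
      refine mem_image.mpr ⟨.inl y, (mem_insert.mp (hs ?_)).resolve_left (by simp), rfl⟩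
      simpa [ell_inl] using hy) (fun y hy => by
      rw [Finsupp.mem_support_iff] at hy
      have hyw : y ≠ w := by
        rintro rfl
        apply hy
        simp only [Finsupp.sub_apply, ell_inr] at hc
        simp only [Finsupp.sub_apply, Finsupp.smul_apply, zero_sub, U_neg_one, Finsupp.neg_apply,
          Finsupp.single_eq_same, smul_eq_mul]
        linarith
      refine mem_image.mpr ⟨.inr y, (mem_insert.mp (hs ?_)).resolve_left (by simpa using hyw), rfl⟩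
      rw [Finsupp.mem_support_iff]
      intro h1
      apply hy
      simp only [Finsupp.sub_apply, ell_inr] at h1
      simp only [Finsupp.sub_apply, Finsupp.smul_apply, zero_sub, U_neg_one, Finsupp.neg_apply,
        Finsupp.single_eq_of_ne hyw, smul_eq_mul]
      linarith)
  have hdl : ∀ z ∈ F, dl (Sum.inr w : V ⊕ V) z = 0 := fun z hz =>
    Finsupp.single_eq_of_ne (ne_of_mem_of_not_mem hz hwF)
  have hsd : (dl (Sum.inr w : V ⊕ V)).support ⊆ insert (.inr w) F := by simp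
  by_cases h1 : (v, a) = (w, 0) ∧ k - k' = 1
  · rw [h1.1, ell_zero] at hs hc ⊢
    rw [h1.2, Int.cast_one] at hc
    have h2 : (ell G (u, b)).support ⊆ F := supp_erase (supp_of_sub hs hsd) (by
      simpa using hc)
    have h3 := ht _ h2
    rw [val, Bp_eq_sum _ _ h2] at h3
    rw [hc, sum_congr rfl fun z hz => by rw [Finsupp.sub_apply, hdl z hz, zero_sub, neg_mul],
      sum_neg_distrib]
    intro h4
    exact h3 (by linarith)
  by_cases h2 : (u, b) = (w, 0) ∧ k - k' = -1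
  · rw [h2.1, ell_zero] at hs hc ⊢
    rw [h2.2, Int.cast_neg, Int.cast_one] at hc
    have h2 : (ell G (v, a)).support ⊆ F := supp_erase (supp_of_sub (supp_swap hs) hsd) (by
      simpa using hc)
    have h3 := ht _ h2
    rw [val, Bp_eq_sum _ _ h2] at h3
    rw [hc, sum_congr rfl fun z hz => by rw [Finsupp.sub_apply, hdl z hz, sub_zero]]
    intro h4
    exact h3 (by linarith)
  refine (hw.1 a b ⟨v, u, k - k', fun h3 => h0 (by rw [hc, h3, Int.cast_zero]), hrel, h1, h2⟩).elim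

lemma step [Infinite V] (hG : NoFin G) (hΔ : ∀ v, G.degree v ≤ Δ)
    (s : {s : Finset (V ⊕ V) × (V ⊕ V → ℤ) // Good G s.1 s.2}) (y : V ⊕ V) (t : ℤ) :
    ∃ s' : {s : Finset (V ⊕ V) × (V ⊕ V → ℤ) // Good G s.1 s.2}, s.1.1 ⊆ s'.1.1 ∧
      (∀ z ∈ s.1.1, s'.1.2 z = s.1.2 z) ∧ y ∈ s'.1.1 ∧
        ∃ P, (ell G P).support ⊆ s'.1.1 ∧ val G s'.1.2 P = t := by
  classical
  obtain ⟨⟨F, x⟩, h⟩ := s
  obtain ⟨F1, x1, h1, hF1, hx1, hy1⟩ : ∃ F1 x1, Good G F1 x1 ∧ F ⊆ F1 ∧ (∀ z ∈ F, x1 z = x z) ∧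
      y ∈ F1 := by
    by_cases hy : y ∈ F
    · exact ⟨F, x, h, subset_rfl, fun _ _ => rfl, hy⟩
    · obtain ⟨t, ht⟩ := stepA hG hΔ h hy
      exact ⟨_, _, ht, subset_insert _ _, fun z hz =>
        Function.update_of_ne (ne_of_mem_of_not_mem hz hy) _ _, mem_insert_self _ _⟩
  by_cases ht : ∃ P, (ell G P).support ⊆ F1 ∧ val G x1 P = t
  · exact ⟨⟨(F1, x1), h1⟩, hF1, hx1, hy1, ht⟩
  · obtain ⟨w, hw, h2⟩ := stepB hG hΔ h1 (t := t) fun P hP e => ht ⟨P, hP, e⟩
    refine ⟨⟨(_, _), h2⟩, hF1.trans (subset_insert _ _), fun z hz => ?_, mem_insert_of_mem hy1,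
      (w, 0), ?_, ?_⟩
    · exact (Function.update_of_ne (ne_of_mem_of_not_mem (hF1 hz) hw) _ _).trans (hx1 z hz)
    · rw [ell_zero]; simp
    · show val G (Function.update x1 (.inr w) t) (w, 0) = t
      rw [val, ell_zero]; simp

theorem exists_data [Countable V] [Infinite V] (hG : NoFin G) (hΔ : ∀ v, G.degree v ≤ Δ) :
    ∃ x : V ⊕ V → ℤ, Function.Injective (val G x) ∧ ∀ t : ℤ, ∃ P, val G x P = t := by
  classical
  obtain ⟨e, he⟩ := exists_surjective_nat ((V ⊕ V) × ℤ)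
  choose nxt h1 h2 h3 h4 using step hG hΔ
  have h0 : Good G ∅ 0 := by
    rintro ⟨v, a⟩ ⟨u, b⟩ hne hs
    have := mem_two hne hs
    simp only [Two, image_empty, subset_empty, Finsupp.support_eq_empty, Set.mem_ofPred_eq,
      sub_eq_zero] at this
    exact (hne (two_zero this.2.1 this.2.2)).elim
  let s : ℕ → {s : Finset (V ⊕ V) × (V ⊕ V → ℤ) // Good G s.1 s.2} :=
    fun n => Nat.rec ⟨(∅, 0), h0⟩ (fun n s => nxt s (e n).1 (e n).2) n
  have hs : ∀ n, s (n + 1) = nxt (s n) (e n).1 (e n).2 := fun _ => rfl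
  have hmono : ∀ m n, m ≤ n → (s m).1.1 ⊆ (s n).1.1 ∧ ∀ z ∈ (s m).1.1, (s n).1.2 z = (s m).1.2 z := by
    intro m n hmn
    induction n, hmn using Nat.le_induction with
    | base => exact ⟨subset_rfl, fun _ _ => rfl⟩
    | succ n _ ih =>
      rw [hs]
      exact ⟨ih.1.trans (h1 _ _ _), fun z hz => (h2 _ _ _ z (ih.1 hz)).trans (ih.2 z hz)⟩
  have hex : ∀ y, ∃ n, y ∈ (s n).1.1 := fun y => by
    obtain ⟨n, hn⟩ := he (y, 0)
    exact ⟨n + 1, by rw [hs, hn]; exact h3 _ _ _⟩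
  choose idx hidx using hex
  set x : V ⊕ V → ℤ := fun y => (s (idx y)).1.2 y with hx
  have hagree : ∀ n, ∀ z ∈ (s n).1.1, x z = (s n).1.2 z := by
    intro n z hz
    rcases le_total n (idx z) with h | h
    · exact (hmono _ _ h).2 z hz
    · exact ((hmono _ _ h).2 z (hidx z)).symm
  have hval : ∀ n P, (ell G P).support ⊆ (s n).1.1 → val G x P = val G (s n).1.2 P :=
    fun n P hP => Bp_congr _ fun z hz => by rw [hagree n z (hP hz)]
  refine ⟨x, fun P Q hPQ => ?_, fun t => ?_⟩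
  · by_contra hne
    set n := ((ell G P).support ∪ (ell G Q).support).sup idx
    have hsub : (ell G P).support ∪ (ell G Q).support ⊆ (s n).1.1 := fun z hz =>
      (hmono _ _ (le_sup hz)).1 (hidx z)
    refine (s n).2 P Q hne (Finsupp.support_sub.trans hsub) ?_
    rw [← hval n P (subset_union_left.trans hsub), ← hval n Q (subset_union_right.trans hsub), hPQ]
  · obtain ⟨n, hn⟩ := he (.inl (Classical.arbitrary V), t)
    obtain ⟨P, hP, hP'⟩ := h4 (s n) (e n).1 (e n).2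
    refine ⟨P, ?_⟩
    rw [hval (n + 1) P hP, hs, hP', hn]

theorem exists_labeling [Countable V] [Infinite V] (hG : NoFin G) (hΔ : ∀ v, G.degree v ≤ Δ) :
    ∃ φ : V × ℤ → ℤ, Function.Bijective φ ∧ ∀ v n, φ (v, n + 1) + φ (v, n - 1) +
      ∑ w ∈ G.neighborFinset v, φ (w, n) = (G.degree v + 2) * φ (v, n) := by
  obtain ⟨x, hinj, hsurj⟩ := exists_data hG hΔ
  choose φ hφ using val_int (G := G) x
  refine ⟨φ, ⟨fun P Q h => hinj (by rw [hφ, hφ, h]), fun t => ?_⟩, fun v n => ?_⟩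
  · obtain ⟨P, hP⟩ := hsurj t
    exact ⟨P, by rw [hφ] at hP; exact_mod_cast hP⟩
  · have := congrArg (Bp fun y => (x y : ℝ)) (ell_rec (G := G) v n)
    rw [map_add, map_sub, map_smul, map_sum] at this
    simp only [← val.eq_1, hφ, smul_eq_mul] at this
    have h2 : ((φ (v, n + 1) + φ (v, n - 1) + ∑ w ∈ G.neighborFinset v, φ (w, n) : ℤ) : ℝ) =
        (((G.degree v + 2) * φ (v, n) : ℤ) : ℝ) := by push_cast; linarith
    exact_mod_cast h2

end Pool.Agent.Work.MP_997ab3_co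
end

-- merged part: Pool.Agent.Work.MP_997ab3_co.F.Pair
section
/-! Choice of the multiplier avoiding all coincidences. -/

namespace Pool.Agent.Work.MP_997ab3_co.F

open Finset Filter Polynomial

/-- Both levels are at most logarithmic in `j`. -/
def Bd (K j : ℕ) (n m : ℤ) : Prop :=
  n.natAbs ≤ K * (Nat.log 2 j + 1) ∧ m.natAbs ≤ K * (Nat.log 2 j + 1)

lemma Bd.mono {K K' j : ℕ} {n m : ℤ} (h : Bd K j n m) (hK : K ≤ K') : Bd K' j n m :=
  ⟨h.1.trans (by gcongr), h.2.trans (by gcongr)⟩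

lemma bd_merge {ι : Type*} [Finite ι] {Q : ι → ℕ → ℤ → ℤ → Prop}
    (h : ∀ i, ∃ K, ∀ j, K ≤ j → ∀ n m, Q i j n m → Bd K j n m) :
    ∃ K, ∀ j, K ≤ j → ∀ i n m, Q i j n m → Bd K j n m := by
  choose K hK using h
  obtain ⟨B, hB⟩ := (Set.finite_range K).bddAbove
  exact ⟨B, fun j hj i n m h =>
    (hK i j ((hB ⟨i, rfl⟩).trans hj) n m h).mono (hB ⟨i, rfl⟩)⟩

lemma exists_sign (n : ℤ) : ∃ s : ℤˣ, n = s * n.natAbs := by
  rcases Int.natAbs_eq n with h | h
  · exact ⟨1, by simpa using h⟩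
  · exact ⟨-1, by simpa using h⟩

lemma large_int {c c' : ℝ →₀ ℝ} (hc : GoodC c) (hc' : GoodC c') {e : ℕ} (he : e ≤ 1)
    {Z : ℕ → ℕ → ℝ} (hZ : Small 1 1 fun N j _ => Z N j) :
    ∀ᶠ N in atTop, ∃ K, ∀ j, K ≤ j → ∀ n m : ℤ, Z N j + ev c N j n = ev c' (e * N) j m ∧
      ¬(e = 1 ∧ ∃ ρ ∈ c.support, ρ ≠ 1 ∧ c ρ * ρ ^ (n - m) = c' ρ) → Bd K j n m := by
  have key : ∀ s : ℤˣ × ℤˣ, ∀ᶠ N in atTop, ∃ K, ∀ j, K ≤ j → ∀ n m : ℤ,
      (n = s.1 * n.natAbs ∧ m = s.2 * m.natAbs) ∧ Z N j + ev c N j n = ev c' (e * N) j m ∧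
      ¬(e = 1 ∧ ∃ ρ ∈ c.support, ρ ≠ 1 ∧ c ρ * ρ ^ (n - m) = c' ρ) → Bd K j n m := by
    rintro ⟨s, s'⟩
    obtain ⟨ρ, hρ, μ, h1, h2, h3, h4⟩ := asym hc.pos hc.ne_zero s
    obtain ⟨ρ', hρ', μ', h1', h2', h3', h4'⟩ := asym hc'.pos hc'.ne_zero s'
    obtain ⟨σ, hσ, h5⟩ := hc.2 s
    obtain ⟨σ', hσ', h5'⟩ := hc'.2 s'
    have h6 := h5.trans_le (h3 σ hσ)
    have h6' := h5'.trans_le (h3' σ' hσ')
    have h7 := (hZ.mono zero_le_one (le_max_right μ 1)).add ((h4 1).mono h1.le (le_max_left μ 1))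
    filter_upwards [large (F := fun N j n => Z N j + ev c (1 * N) j (s * n))
      (hc.1 ρ hρ).2 (hc'.1 ρ' hρ').2 (Finsupp.mem_support_iff.mp hρ)
      (Finsupp.mem_support_iff.mp hρ') (hc.1 ρ hρ).1 (hc'.1 ρ' hρ').1
      ((hc.1 ρ hρ).1.unit_pow s) ((hc'.1 ρ' hρ').1.unit_pow s') h6 h6' (lt_max_of_lt_left h1)
      (max_lt h2 h6) h1' h2' he (by simpa only [add_sub_assoc] using h7) (h4' e)] with N hN
    obtain ⟨K, hK⟩ := hN
    refine ⟨K, fun j hj n m ⟨⟨hn, hm⟩, h8, h9⟩ => (hK j hj n.natAbs m.natAbs (by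
      simpa only [← hn, ← hm, one_mul] using h8)).resolve_right fun ⟨e1, e2, e3⟩ => h9 ?_⟩
    subst e2
    refine ⟨e1, ρ, hρ, by rintro rfl; simp at h6, ?_⟩
    have h0 := hc.pos ρ hρ
    rw [← zpow_natCast, ← zpow_natCast, ← zpow_mul, ← zpow_mul, ← hn, ← hm] at e3
    rw [zpow_sub₀ h0.ne', ← mul_div_assoc, e3, mul_div_cancel_right₀ _ (by positivity)]
  filter_upwards [eventually_all.mpr key] with N hN
  obtain ⟨K, hK⟩ := bd_merge hN
  refine ⟨K, fun j hj n m h => ?_⟩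
  obtain ⟨s, hs⟩ := exists_sign n
  obtain ⟨s', hs'⟩ := exists_sign m
  exact hK j hj (s, s') n m ⟨⟨hs, hs'⟩, h⟩

lemma ev_sub (c c' : ℝ →₀ ℝ) (N j : ℕ) (k : ℤ) :
    ev (c - c') N j k = ev c N j k - ev c' N j k := map_sub _ _ _

lemma pair_new {c c' : ℝ →₀ ℝ} (hc : GoodC c) (hc' : GoodC c') :
    ∀ᶠ N in atTop, ∃ K, ∀ j, K ≤ j → ∀ n m : ℤ, ev c N j n = ev c' N j m ∧
      (sh c fun ρ => ρ ^ n) ≠ (sh c' fun ρ => ρ ^ m) → Bd K j n m := by
  classical
  have hD : {i : ℤ | ∃ ρ ∈ c.support, ρ ≠ 1 ∧ c ρ * ρ ^ i = c' ρ}.Finite := by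
    refine (c.support.finite_toSet.biUnion
      (t := fun ρ => {i : ℤ | ρ ≠ 1 ∧ c ρ * ρ ^ i = c' ρ}) fun ρ hρ =>
        Set.Subsingleton.finite fun i hi k hk => ?_).subset fun i ⟨ρ, hρ, h⟩ =>
          Set.mem_biUnion hρ h
    exact zpow_right_injective₀ (hc.pos ρ hρ) hi.1
      (mul_left_cancel₀ (Finsupp.mem_support_iff.mp hρ) (hi.2.trans hk.2.symm))
  filter_upwards [large_int hc hc' le_rfl (Z := fun _ _ => 0)
    fun N => ⟨0, le_rfl, by simp⟩] with N hN
  obtain ⟨K, hK⟩ := hN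
  have h1 : ∀ i : ℤ, ∃ K : ℕ, (sh c fun ρ => ρ ^ i) ≠ c' → ∀ j k,
      ev c N j (k + i) = ev c' N j k → k.natAbs ≤ K := by
    intro i
    by_cases h : (sh c fun ρ => ρ ^ i) = c'
    · exact ⟨0, fun h' => (h' h).elim⟩
    obtain ⟨K, hK⟩ := nonvanish (c := (sh c fun ρ => ρ ^ i) - c') (fun ρ hρ => by
      rcases mem_union.mp (Finsupp.support_sub hρ) with h | h
      · exact hc.pos ρ (sh_support _ _ h)
      · exact hc'.pos ρ h) (sub_ne_zero.mpr h) N
    exact ⟨K, fun _ j k hk => hK j k (by rw [ev_sub, ev_shift hc.pos, hk, sub_self])⟩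
  choose K1 hK1 using h1
  obtain ⟨B, hB⟩ := (hD.image fun i => K1 i + i.natAbs).bddAbove
  refine ⟨max K B, fun j hj n m ⟨h2, h3⟩ => ?_⟩
  by_cases h4 : ∃ ρ ∈ c.support, ρ ≠ 1 ∧ c ρ * ρ ^ (n - m) = c' ρ
  · have h5 := hB ⟨n - m, h4, rfl⟩
    have h6 := hK1 (n - m) (fun h => h3 (by
      ext ρ
      simp only [← h, sh_apply]
      by_cases hρ : ρ ∈ c.support
      · rw [mul_assoc, ← zpow_add₀ (hc.pos ρ hρ).ne', sub_add_cancel]
      · simp [Finsupp.notMem_support_iff.mp hρ])) j m (by rw [add_sub_cancel, h2])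
    have h7 : max K B ≤ max K B * (Nat.log 2 j + 1) := Nat.le_mul_of_pos_right _ (by omega)
    simp only at h5
    constructor <;> omega
  · exact (hK j (by omega) n m ⟨by simpa using h2, fun h => h4 h.2⟩).mono (le_max_left _ _)

theorem choose_mult {V I : Type*} [Finite V] [Finite I] {c : V → ℝ →₀ ℝ} {d : I → ℝ →₀ ℝ}
    (hc : ∀ v, GoodC (c v)) (hd : ∀ i, GoodC (d i))
    (hsep : ∀ v u (n m : ℤ), (sh (c v) fun ρ => ρ ^ n) = (sh (c u) fun ρ => ρ ^ m) →
      v = u ∧ n = m) {t : ℝ} (ht : ∀ i m, ev (d i) 0 0 m ≠ t) (v0 : V) : ∃ N j : ℕ,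
      (∀ v u n m, ev (c v) N j n = ev (c u) N j m → v = u ∧ n = m) ∧
        ∀ v n i m, t - ev (c v0) N j 0 + ev (c v) N j n ≠ ev (d i) 0 0 m := by
  classical
  have hZ : Small 1 1 fun N j _ => t - ev (c v0) N j 0 := by
    have h1 : Small 1 1 fun _ _ _ => t := fun N => ⟨|t|, abs_nonneg t, fun j n =>
      le_mul_of_one_le_right (abs_nonneg t) (by
        rw [one_pow, mul_one]; exact one_le_pow₀ (by linarith [Nat.cast_nonneg (α := ℝ) j]))⟩
    have h2 := small_sum 1 (μ := 1) (c v0).support (fun ρ => -c v0 ρ) (fun _ => 1)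
      fun ρ hρ => ⟨(hc v0).pos ρ hρ, zero_le_one, le_rfl⟩
    simpa [ev_eq _ _ _ _ subset_rfl, sub_eq_add_neg] using h1.add h2
  obtain ⟨B, hB⟩ := (Set.finite_range fun v => (c v).support.card).bddAbove
  obtain ⟨N, ⟨h1, h2⟩, hN⟩ := (((eventually_all.mpr fun p : V × V => pair_new (hc p.1) (hc p.2)).and
    (eventually_all.mpr fun p : V × I => large_int (hc p.1) (hd p.2) zero_le_one hZ)).and
      (eventually_ge_atTop (B + B))).exists
  obtain ⟨K1, h1⟩ := bd_merge h1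
  obtain ⟨K2, h2⟩ := bd_merge h2
  have hcard : ∀ v u w w', (sh (c v) w - sh (c u) w').support.card ≤ N := fun v u w w' =>
    (card_le_card (Finsupp.support_sub.trans
      (union_subset_union (sh_support _ _) (sh_support _ _)))).trans
        ((card_union_le _ _).trans ((add_le_add (hB ⟨v, rfl⟩) (hB ⟨u, rfl⟩)).trans hN))
  obtain ⟨j, hj, h3⟩ := count N (max K1 K2) (ι := V × V ⊕ V × I) (Sum.elim
    (fun p n m => pol ((sh (c p.1) fun ρ => ρ ^ n) - sh (c p.2) fun ρ => ρ ^ m) N)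
    fun p n m => pol ((sh (c p.1) fun ρ => ρ ^ n) - sh (c v0) fun ρ => ρ ^ (0 : ℤ)) N -
      C (ev (d p.2) 0 0 m - t)) (by
      rintro (p | p) n m
      · exact pol_deg _ _
      · exact (natDegree_sub_C (p := pol _ N)).trans_le (pol_deg _ _))
  refine ⟨N, j, fun v u n m h => hsep v u n m (by_contra fun hne => ?_), fun v n i m h => ?_⟩
  · have h4 := (h1 j (by omega) (v, u) n m ⟨h, hne⟩).mono (le_max_left K1 K2)
    refine h3 (.inl (v, u)) n m (fun h0 => hne (sub_eq_zero.mp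
      (pol_const (hcard _ _ _ _) (h0.trans C_0.symm)))) h4.1 h4.2 ?_
    simp only [Sum.elim_inl, pol_eval, ev_sub, ev_shift (hc _).pos, zero_add, h, sub_self]
  · have h4 := (h2 j (by omega) (v, i) n m ⟨by simpa [ev] using h, by simp⟩).mono
      (le_max_right K1 K2)
    refine h3 (.inr (v, i)) n m (fun h0 => ?_) h4.1 h4.2 ?_
    · have h5 := sub_eq_zero.mp h0
      rw [pol_const (hcard _ _ _ _) h5, pol, Finsupp.support_zero, sum_empty, eq_comm,
        C_eq_zero] at h5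
      exact ht i m (sub_eq_zero.mp h5)
    · simp only [Sum.elim_inr, eval_sub, eval_C, pol_eval, ev_sub, ev_shift (hc _).pos, zero_add]
      linarith

end Pool.Agent.Work.MP_997ab3_co.F
end

-- merged part: Pool.Agent.Work.MP_997ab3_co.F.Ext
section
/-! Harmonic functions on the product of a finite graph with the line avoiding old values. -/

namespace Pool.Agent.Work.MP_997ab3_co.F

open Finset Polynomial

variable {V : Type*}

/-- The mean value recurrence on the vertices of `A`. -/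
def Harm (G : SimpleGraph V) [G.LocallyFinite] (A : Set V) (φ : V × ℤ → ℤ) : Prop :=
  ∀ v ∈ A, ∀ n, φ (v, n + 1) + φ (v, n - 1) + ∑ w ∈ G.neighborFinset v, φ (w, n) =
    (G.degree v + 2) * φ (v, n)

lemma exists_lam {μ : ℝ} (hμ : 0 ≤ μ) (hi : IsIntegral ℤ μ) : ∃ l, PU l ∧ l + l⁻¹ = μ + 2 := by
  set l := (μ + 2 + √((μ + 2) ^ 2 - 4)) / 2 with hl
  have h1 := Real.sq_sqrt (by nlinarith : 0 ≤ (μ + 2) ^ 2 - 4)
  have h0 : 0 < l := by rw [hl]; positivity
  have h2 : l * (μ + 2 - l) = 1 := by rw [hl]; nlinarith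
  have h3 : l⁻¹ = μ + 2 - l := inv_eq_of_mul_eq_one_right h2
  have hi2 : IsIntegral ℤ (μ + 2) := hi.add (isIntegral_natCast 2)
  have h4 : IsIntegral ℤ l := isIntegral_trans (A := integralClosure ℤ ℝ) l
    ⟨X ^ 2 - C ⟨μ + 2, hi2⟩ * X + 1, by monicity!, by
      simp only [eval₂_add, eval₂_sub, eval₂_mul, eval₂_X_pow, eval₂_C, eval₂_X, eval₂_one]
      change l ^ 2 - (μ + 2) * l + 1 = 0
      linarith⟩
  exact ⟨l, ⟨h0, h4, h3 ▸ hi2.sub h4⟩, by rw [h3]; ring⟩

lemma lap_integral [Fintype V] [DecidableEq V] (G : SimpleGraph V) [DecidableRel G.Adj] (i : V) :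
    IsIntegral ℤ ((G.posSemidef_lapMatrix ℝ).1.eigenvalues i) := by
  have h1 := Matrix.mem_spectrum_iff_isRoot_charpoly.mp
    ((G.posSemidef_lapMatrix ℝ).1.eigenvalues_mem_spectrum_real i)
  have h2 : G.lapMatrix ℝ = (G.lapMatrix ℤ).map (algebraMap ℤ ℝ) := by
    ext u v
    by_cases h : u = v <;> by_cases h' : G.Adj u v <;>
      simp [SimpleGraph.lapMatrix, SimpleGraph.degMatrix, h, h']
  refine ⟨(G.lapMatrix ℤ).charpoly, Matrix.charpoly_monic _, ?_⟩
  rw [← eval_map, ← Matrix.charpoly_map, ← h2]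
  exact h1

lemma exists_y [Fintype V] (G : SimpleGraph V) [G.LocallyFinite] (hG : ∀ v, ∃ w, G.Adj v w) :
    ∃ y : V → ℤ, Function.Injective y ∧
      ∀ v, ∑ w ∈ G.neighborFinset v, y w ≠ G.degree v * y v := by
  obtain ⟨e, he⟩ := Countable.exists_injective_nat V
  set x : ℤ := Fintype.card V + 2 with hx
  have hx1 : 1 < x := by omega
  refine ⟨fun v => x ^ e v, fun v u h => he (pow_right_injective₀ (by omega) hx1.ne' h),
    fun v => ?_⟩
  by_cases h : ∃ w, G.Adj v w ∧ e v < e w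
  · obtain ⟨w, hw, h⟩ := h
    have h1 : (G.degree v : ℤ) < x := by
      have := card_le_univ (G.neighborFinset v)
      rw [G.card_neighborFinset_eq_degree] at this
      omega
    refine ne_of_gt (lt_of_lt_of_le ?_ (single_le_sum (f := fun w => x ^ e w)
      (fun _ _ => by positivity) ((G.mem_neighborFinset v w).mpr hw)))
    calc _ < x * x ^ e v := by gcongr
      _ ≤ _ := by rw [← pow_succ']; exact pow_le_pow_right₀ hx1.le h
  · push Not at h
    obtain ⟨w, hw⟩ := hG v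
    rw [← G.card_neighborFinset_eq_degree, ← nsmul_eq_mul, ← sum_const]
    refine ne_of_lt (sum_lt_sum_of_nonempty ⟨w, (G.mem_neighborFinset v w).mpr hw⟩ fun u hu => ?_)
    rw [G.mem_neighborFinset] at hu
    exact pow_lt_pow_right₀ hx1 (lt_of_le_of_ne (h u hu) fun h' => hu.ne' (he h'))

lemma int_of_rec (G : SimpleGraph V) [G.LocallyFinite] (S : Subring ℝ) {Ψ : V → ℤ → ℝ}
    (h : ∀ v k, Ψ v (k + 1) + Ψ v (k - 1) + ∑ w ∈ G.neighborFinset v, Ψ w k =
      (G.degree v + 2) * Ψ v k) (h0 : ∀ v, Ψ v 0 ∈ S) (h1 : ∀ v, Ψ v 1 ∈ S) (v : V) (k : ℤ) :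
    Ψ v k ∈ S := by
  have step : ∀ k, (∀ v, Ψ v k ∈ S) → ∀ v, Ψ v (k + 1) + Ψ v (k - 1) ∈ S := fun k hk v => by
    rw [eq_sub_of_add_eq (h v k)]
    exact S.sub_mem (S.mul_mem (S.add_mem (natCast_mem S _) (natCast_mem S 2)) (hk v))
      (S.sum_mem fun w _ => hk w)
  have key : ∀ k : ℤ, (∀ v, Ψ v k ∈ S) ∧ ∀ v, Ψ v (k + 1) ∈ S := by
    intro k
    induction k using Int.induction_on with
    | zero => exact ⟨h0, h1⟩
    | succ k ih => exact ⟨ih.2, fun v => by simpa using S.sub_mem (step _ ih.2 v) (ih.1 v)⟩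
    | pred k ih =>
      exact ⟨fun v => by simpa using S.sub_mem (step _ ih.1 v) (ih.2 v), by simpa using ih.1⟩
  exact (key k).1 v

theorem exists_coeffs [Finite V] (G : SimpleGraph V) [inst : G.LocallyFinite]
    (hG : ∀ v, ∃ w, G.Adj v w) : ∃ c : V → ℝ →₀ ℝ, (∀ v, GoodC (c v)) ∧
      (∀ v u (n m : ℤ), (sh (c v) fun ρ => ρ ^ n) = (sh (c u) fun ρ => ρ ^ m) → v = u ∧ n = m) ∧
      (∀ N j v k, ∃ z : ℤ, z = ev (c v) N j k) ∧ ∀ N j v k, ev (c v) N j (k + 1) +
        ev (c v) N j (k - 1) + ∑ w ∈ G.neighborFinset v, ev (c w) N j k =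
          (G.degree v + 2) * ev (c v) N j k := by
  classical
  have := Fintype.ofFinite V
  obtain rfl : inst = fun v => Subtype.fintype _ := funext fun _ => Subsingleton.elim _ _
  obtain ⟨y, hy, hy'⟩ := @exists_y V _ G (fun v => Subtype.fintype _) hG
  have hA := G.posSemidef_lapMatrix ℝ
  choose l hl hl' using fun i => exists_lam (hA.eigenvalues_nonneg i) (lap_integral G i)
  set b := hA.1.eigenvectorBasis with hb
  set a : V → ℝ := fun i => inner ℝ (b i) (WithLp.toLp 2 fun v => (y v : ℝ)) with ha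
  have h1 : ∀ v, ∑ i, a i * b i v = y v := fun v => by
    simpa using congrArg (fun x : EuclideanSpace ℝ V => x v)
      (b.sum_repr' (WithLp.toLp 2 fun v => (y v : ℝ)))
  have h2 : ∀ i v, ∑ w ∈ G.neighborFinset v, b i w =
      (G.degree v + 2) * b i v - (l i + (l i)⁻¹) * b i v := fun i v => by
    have := congrFun (hA.1.mulVec_eigenvectorBasis i) v
    rw [G.lapMatrix_mulVec_apply] at this
    simp only [Pi.smul_apply, smul_eq_mul] at this
    rw [hl']
    linarith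
  set c : V → ℝ →₀ ℝ := fun v => ∑ i, (a i * b i v) • (dl (l i) + dl (l i)⁻¹) with hc
  have h3 : ∀ f v, Bp f (c v) = ∑ i, a i * b i v * (f (l i) + f (l i)⁻¹) := fun f v => by
    simp only [hc, map_sum, map_smul, map_add, Bp_single, one_mul, smul_eq_mul]
  have h4 : ∀ v, ∀ ρ ∈ (c v).support, PU ρ := fun v ρ hρ => by
    obtain ⟨i, -, hi⟩ := mem_biUnion.mp (Finsupp.support_finsetSum hρ)
    rcases mem_union.mp (Finsupp.support_add (Finsupp.support_smul hi)) with h | h <;>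
      rw [mem_singleton.mp (Finsupp.support_single_subset h)]
    exacts [hl i, (hl i).inv]
  have h5 : ∀ v ρ, c v ρ⁻¹ = c v ρ := fun v ρ => by
    simp only [hc, Finsupp.finsetSum_apply, Finsupp.smul_apply, Finsupp.add_apply,
      Finsupp.single_apply, ← inv_eq_iff_eq_inv, inv_inv, add_comm]
  have h6 : ∀ N j v k, ev (c v) N j (k + 1) + ev (c v) N j (k - 1) +
      ∑ w ∈ G.neighborFinset v, ev (c w) N j k = (G.degree v + 2) * ev (c v) N j k := by
    intro N j v k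
    simp only [ev, h3]
    rw [sum_comm, mul_sum, ← sum_add_distrib, ← sum_add_distrib]
    refine sum_congr rfl fun i _ => ?_
    have e1 := (hl i).1.ne'
    rw [← sum_mul, ← mul_sum, h2, zpow_add_one₀ e1, zpow_sub_one₀ e1,
      zpow_add_one₀ (inv_ne_zero e1), zpow_sub_one₀ (inv_ne_zero e1), inv_inv]
    ring
  have h7 : ∀ v, ev (c v) 0 0 0 = (2 * y v : ℤ) := fun v => by
    simp only [ev, h3, pow_zero, zpow_zero, ← sum_mul, h1]
    push_cast
    ring
  have h8 : ∀ v, ev (c v) 0 0 1 =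
      ((G.degree v + 2) * y v - ∑ w ∈ G.neighborFinset v, y w : ℤ) := fun v => by
    simp only [ev, h3, pow_zero, zpow_one, one_mul]
    push_cast
    simp only [← h1]
    rw [sum_comm, mul_sum, ← sum_sub_distrib]
    exact sum_congr rfl fun i _ => by rw [← mul_sum, h2]; ring
  have h9 : ∀ N j v k, ∃ z : ℤ, z = ev (c v) N j k := by
    intro N j v
    induction N with
    | zero => exact int_of_rec G (Int.castRingHom ℝ).range (h6 0 0) (fun v => ⟨_, (h7 v).symm⟩)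
                (fun v => ⟨_, (h8 v).symm⟩) v
    | succ N ih =>
      intro k
      obtain ⟨z, hz⟩ := ih (k + 1)
      obtain ⟨z', hz'⟩ := ih k
      exact ⟨z + j * z', by rw [ev_succ fun ρ hρ => (h4 v ρ hρ).1, ← hz, ← hz']; push_cast; rfl⟩
  have h10 : ∀ v, ∃ ρ ∈ (c v).support, ρ ≠ 1 := fun v => by
    by_contra h
    push Not at h
    have e1 : ev (c v) 0 0 1 = ev (c v) 0 0 0 := Bp_congr _ fun ρ hρ => by simp [h ρ hρ]
    rw [h7, h8, Int.cast_inj] at e1
    exact hy' v (by linarith)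
  refine ⟨c, fun v => ⟨fun ρ hρ => ⟨h4 v ρ hρ, coeff_alg (fun ρ hρ => (h4 v ρ hρ).alg)
    (fun n => ?_) ρ hρ⟩, fun s => ?_⟩, fun v u n m h => ?_, h9, h6⟩
  · obtain ⟨z, hz⟩ := h9 0 0 v n
    exact ⟨z, by simp [hz, ev_eq _ _ _ _ subset_rfl]⟩
  · obtain ⟨ρ, hρ, h⟩ := h10 v
    have h0 := (h4 v ρ hρ).1
    rcases lt_or_gt_of_ne (fun e => h ((zpow_left_inj₀ h0.le zero_le_one s.ne_zero).mp
      (e.trans (one_zpow _).symm)) :
      ρ ^ (s : ℤ) ≠ 1) with h' | h'
    · refine ⟨ρ⁻¹, by simpa [h5] using hρ, ?_⟩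
      rw [inv_zpow]
      exact (one_lt_inv₀ (zpow_pos h0 _)).mpr h'
    · exact ⟨ρ, hρ, h'⟩
  · obtain ⟨ρ, hρ, h'⟩ := h10 v
    have h0 := (h4 v ρ hρ).1
    have e1 := DFunLike.congr_fun h ρ
    have e2 := DFunLike.congr_fun h ρ⁻¹
    simp only [sh_apply, h5, inv_zpow] at e1 e2
    have e3 : ρ ^ (2 * n) = ρ ^ (2 * m) := by
      refine mul_left_cancel₀ (Finsupp.mem_support_iff.mp hρ) ?_
      field_simp at e2
      rw [two_mul, two_mul, zpow_add₀ h0.ne', zpow_add₀ h0.ne']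
      linear_combination ρ ^ n * e1 - ρ ^ m * e2
    obtain rfl : n = m := by have := zpow_right_injective₀ h0 h' e3; omega
    refine ⟨hy ?_, rfl⟩
    have e4 := congrArg (fun d => ev d 0 0 (-n)) h
    simp only [ev_shift fun ρ hρ => (h4 _ ρ hρ).1, neg_add_cancel, h7, Int.cast_inj] at e4
    omega

theorem ext_fin [Finite V] (G : SimpleGraph V) [G.LocallyFinite] (hG : ∀ v, ∃ w, G.Adj v w)
    {I : Type*} [Finite I] {g : I → ℤ → ℤ} (hg : ∀ i, GoodS (g i)) {t : ℤ} (ht : ∀ i m, g i m ≠ t)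
    (v0 : V) : ∃ φ : V × ℤ → ℤ, Harm G Set.univ φ ∧ Function.Injective φ ∧
      (∀ P i m, φ P ≠ g i m) ∧ φ (v0, 0) = t ∧ ∀ v, GoodS fun n => φ (v, n) := by
  obtain ⟨c, h1, h2, h3, h4⟩ := exists_coeffs G hG
  choose d hd hd' using hg
  obtain ⟨N, j, h5, h6⟩ := choose_mult h1 hd h2 (t := t)
    (fun i m h => ht i m (by rw [← hd'] at h; exact_mod_cast h)) v0
  choose z hz using h3 N j
  simp only [← hz, ← hd'] at h5 h6
  refine ⟨fun P => t - z v0 0 + z P.1 P.2, fun v _ n => ?_, fun P Q h => ?_,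
    fun P i m h => h6 P.1 P.2 i m (by exact_mod_cast h), by simp,
    fun v => goodS_of (h1 v) N (j := j) (a := t - z v0 0) fun k => by simp [hz]⟩
  · have := h4 N j v n
    simp only [← hz] at this
    norm_cast at this
    simp only [sum_add_distrib, sum_const, G.card_neighborFinset_eq_degree, nsmul_eq_mul]
    push_cast at this
    linear_combination this
  · exact Prod.ext_iff.mpr (h5 _ _ _ _ (by exact_mod_cast add_left_cancel h))

end Pool.Agent.Work.MP_997ab3_co.F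
end

-- merged part: Pool.Agent.Work.MP_997ab3_co.F.Avoid
section
/-! The greedy construction onto the complement of a thin set. -/

namespace Pool.Agent.Work.MP_997ab3_co.F

open Finset

lemma chain {ι β R : Type*} [Countable R] [Nonempty R] (Inv : Finset ι → (ι → β) → Prop)
    (Q : R → Finset ι → (ι → β) → Prop) {A0 : Finset ι} {x0 : ι → β} (h0 : Inv A0 x0)
    (step : ∀ A x r, Inv A x → ∃ A' x', Inv A' x' ∧ A ⊆ A' ∧ (∀ z ∈ A, x' z = x z) ∧ Q r A' x') :
    ∃ (A : ℕ → Finset ι) (x : ℕ → ι → β) (y : ι → β), Monotone A ∧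
      (∀ n, Inv (A n) (x n) ∧ ∀ z ∈ A n, y z = x n z) ∧ ∀ r, ∃ n, Q r (A n) (x n) := by
  classical
  obtain ⟨e, he⟩ := exists_surjective_nat R
  choose A' x' h1 h2 h3 h4 using step
  let s : ℕ → {s : Finset ι × (ι → β) // Inv s.1 s.2} := fun n =>
    Nat.rec ⟨(A0, x0), h0⟩ (fun n s => ⟨(A' _ _ (e n) s.2, x' _ _ (e n) s.2), h1 _ _ _ _⟩) n
  have hmono : ∀ m n, m ≤ n →
      (s m).1.1 ⊆ (s n).1.1 ∧ ∀ z ∈ (s m).1.1, (s n).1.2 z = (s m).1.2 z := by
    intro m n hmn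
    induction n, hmn using Nat.le_induction with
    | base => exact ⟨subset_rfl, fun _ _ => rfl⟩
    | succ n _ ih =>
      exact ⟨ih.1.trans (h2 _ _ _ (s n).2), fun z hz =>
        (h3 _ _ _ (s n).2 z (ih.1 hz)).trans (ih.2 z hz)⟩
  refine ⟨fun n => (s n).1.1, fun n => (s n).1.2,
    fun z => if h : ∃ n, z ∈ (s n).1.1 then (s (Nat.find h)).1.2 z else x0 z,
    fun m n h => (hmono m n h).1, fun n => ⟨(s n).2, fun z hz => ?_⟩, fun r => ?_⟩
  · have h : ∃ n, z ∈ (s n).1.1 := ⟨n, hz⟩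
    simp only [dif_pos h]
    exact ((hmono _ _ (Nat.find_min' h hz)).2 z (Nat.find_spec h)).symm
  · obtain ⟨n, rfl⟩ := he r
    exact ⟨n + 1, h4 _ _ _ (s n).2⟩

variable {V : Type*} {G : SimpleGraph V} [G.LocallyFinite] {Δ : ℕ}

lemma single_finite (hG : NoFin G) (F : Finset (V ⊕ V)) :
    {P : V × ℤ | (ell G P).support ⊆ F}.Finite := by
  classical
  obtain ⟨R, hR⟩ := shatter hG (F.image (Sum.elim id id))
  refine (near_finite G (max R 0) (F.image (Sum.elim id id))).subset fun ⟨v, a⟩ h => ?_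
  have h1 : (U G a (dl v)).support ⊆ F.image (Sum.elim id id) := fun y hy =>
    mem_image.mpr ⟨.inl y, h (by simpa [ell_inl] using hy), rfl⟩
  have h2 : (U G (a - 1) (dl v)).support ⊆ F.image (Sum.elim id id) := fun y hy =>
    mem_image.mpr ⟨.inr y, h (by simpa [ell_inr] using hy), rfl⟩
  have h3 : |a| ≤ max R 0 := by
    by_cases ha : a = 0
    · simp [ha]
    · exact (hR v v a 0 ha (Or.inr rfl) (by simpa using h1)).le.trans (le_max_left _ _)
  by_contra hn
  have h4 := congrArg mass (eq_zero_of_supp h1 fun y hy => (not_near h3 hn hy).1)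
  have h5 := congrArg mass (eq_zero_of_supp h2 fun y hy => (not_near h3 hn hy).2)
  simp only [mass_U, mass_single, map_zero, Int.cast_sub, Int.cast_one] at h4 h5
  linarith

lemma thinA [DecidableEq V] (hG : NoFin G) (hΔ : ∀ v, G.degree v ≤ Δ) {F : Finset (V ⊕ V)}
    {x : V ⊕ V → ℤ} (h : Good G F x) {y : V ⊕ V} (hy : y ∉ F) :
    ∃ E, Thin E ∧ ∀ t ∉ E, Good G (insert y F) (Function.update x y t) := by
  set F0 := (insert y F).image (Sum.elim id id) with hF0
  obtain ⟨R1, hR1⟩ := two_levels hG F0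
  obtain ⟨W, R2, hW⟩ := torsion_support hΔ F0
  let E : (V × ℤ) × (V × ℤ) → Set ℤ := fun p => {t | (ell G p.1 - ell G p.2) y ≠ 0 ∧
    (ell G p.1 - ell G p.2) y * t + ∑ z ∈ F, (ell G p.1 - ell G p.2) z * x z = 0}
  have h1 : Thin (⋃ p ∈ {p ∈ Two G F0 | |p.1.2| ≤ max R1 R2 ∧ |p.2.2| ≤ max R1 R2}, E p) :=
    thin_biUnion (two_bounded F0 _) fun p _ => thin_of_finite (Set.Subsingleton.finite
      fun s hs t ht => by
        have := mul_left_cancel₀ hs.1 (add_right_cancel (hs.2.trans ht.2.symm))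
        exact_mod_cast this)
  let T : Set (V × V) := {q | q ∈ W ×ˢ W ∧ ∀ n, (U G n (dl q.1 - dl q.2)).support ⊆ W}
  have h2 : Thin (⋃ q ∈ T, ⋃ a, E ((q.1, a), (q.2, a))) := by
    refine thin_biUnion ((W ×ˢ W).finite_toSet.subset fun q hq => hq.1) fun q hq => ?_
    have h3 : ∀ z, (fun a => (ell G (q.1, a) - ell G (q.2, a)) z) ∈ ExpSum := by
      have h4 := sol_exp hG (e := fun n => U G n (dl q.1 - dl q.2)) (fun n => U_rec G n _) hq.2
      rintro (z | z)
      · simpa [ell_inl] using h4 z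
      · have := Submodule.neg_mem _ (ExpSum.shift (h4 z) (-1))
        convert this using 1
        ext a
        simp only [Finsupp.sub_apply, ell_inr, map_sub, Pi.neg_apply, sub_eq_add_neg a 1]
        ring
    have h5 : (fun a => ∑ z ∈ F, (ell G (q.1, a) - ell G (q.2, a)) z * x z) ∈ ExpSum := by
      have := Submodule.sum_mem ExpSum (t := F) fun z _ => Submodule.smul_mem _ (x z : ℝ) (h3 z)
      convert this using 1
      ext a
      simp only [Finset.sum_apply, Pi.smul_apply, smul_eq_mul, mul_comm]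
    refine (thin_int (h3 y) h5).mono ?_
    intro t ht
    exact Set.mem_iUnion.mp ht
  refine ⟨_, h1.union h2, fun t ht => good_update h hy fun P Q hne hs h0 h3 => ht ?_⟩
  have hm := mem_two hne hs
  obtain ⟨v, a⟩ := P
  obtain ⟨u, b⟩ := Q
  by_cases hb : |a| ≤ max R1 R2 ∧ |b| ≤ max R1 R2
  · exact Or.inl (Set.mem_biUnion (x := ((v, a), (u, b))) ⟨hm, hb⟩ ⟨h0, h3⟩)
  have hab : a = b := by
    by_contra hab
    have := hR1 _ hm hab
    exact hb ⟨this.1.trans (le_max_left _ _), this.2.trans (le_max_left _ _)⟩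
  subst hab
  have hvu : v ≠ u := fun e => hne (by rw [e])
  have h4 := hW a (dl v - dl u) (by
    by_contra h5
    have := (not_le.mp h5).le.trans (le_max_right R1 R2)
    exact hb ⟨this, this⟩) (by rw [map_sub]; exact hm.2.1) (by rw [map_sub]; exact hm.2.2)
  have h5 := h4 1
  rw [U_one] at h5
  refine Or.inr (Set.mem_biUnion (x := (v, u)) ⟨mem_product.mpr ⟨h5 ?_, h5 ?_⟩, h4⟩
    (Set.mem_iUnion.mpr ⟨a, h0, h3⟩))
  · simp [hvu]
  · simp [hvu.symm]

lemma coreB [DecidableEq V] [Infinite V] (hG : NoFin G) (hΔ : ∀ v, G.degree v ≤ Δ)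
    (F : Finset (V ⊕ V)) : ∃ w, Sum.inr w ∉ F ∧ ∀ P Q,
      (ell G P - ell G Q).support ⊆ insert (.inr w) F → (ell G P - ell G Q) (.inr w) ≠ 0 →
        (P = (w, 0) ∧ ell G Q (.inr w) = 0) ∨ (Q = (w, 0) ∧ ell G P (.inr w) = 0) := by
  set F0 := F.image (Sum.elim id id) with hF0
  obtain ⟨FF, hFF⟩ := grow G F0
  obtain ⟨w, hw⟩ := ((wit_finite hG hΔ FF).union F0.finite_toSet).exists_notMem
  simp only [Set.mem_union, Set.mem_ofPred_eq, not_or, not_exists, mem_coe] at hw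
  refine ⟨w, fun h => hw.2 (mem_image.mpr ⟨_, h, rfl⟩), fun P Q hs h0 => ?_⟩
  obtain ⟨v, a⟩ := P
  obtain ⟨u, b⟩ := Q
  obtain ⟨k, hk⟩ := ell_int (G := G) (v, a) (.inr w)
  obtain ⟨k', hk'⟩ := ell_int (G := G) (u, b) (.inr w)
  have hc : (ell G (v, a) - ell G (u, b)) (.inr w) = ((k - k' : ℤ) : ℝ) := by
    rw [Finsupp.sub_apply, hk, hk']; simp
  have hrel := hFF _ (((sol_U G a (dl v)).sub (sol_U G b (dl u))).sub
    ((sol_U G 0 (dl w)).smul ((k - k' : ℤ) : ℝ))) (fun y hy => by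
      refine mem_image.mpr ⟨.inl y, (mem_insert.mp (hs ?_)).resolve_left (by simp), rfl⟩
      simpa [ell_inl] using hy) (fun y hy => by
      rw [Finsupp.mem_support_iff] at hy
      have hyw : y ≠ w := by
        rintro rfl
        apply hy
        simp only [Finsupp.sub_apply, ell_inr] at hc
        simp only [Finsupp.sub_apply, Finsupp.smul_apply, zero_sub, U_neg_one, Finsupp.neg_apply,
          Finsupp.single_eq_same, smul_eq_mul]
        linarith
      refine mem_image.mpr ⟨.inr y, (mem_insert.mp (hs ?_)).resolve_left (by simpa using hyw), rfl⟩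
      rw [Finsupp.mem_support_iff]
      intro h1
      apply hy
      simp only [Finsupp.sub_apply, ell_inr] at h1
      simp only [Finsupp.sub_apply, Finsupp.smul_apply, zero_sub, U_neg_one, Finsupp.neg_apply,
        Finsupp.single_eq_of_ne hyw, smul_eq_mul]
      linarith)
  by_cases h1 : (v, a) = (w, 0) ∧ k - k' = 1
  · rw [h1.1, ell_zero, h1.2] at hc
    exact Or.inl ⟨h1.1, by simpa using hc⟩
  by_cases h2 : (u, b) = (w, 0) ∧ k - k' = -1
  · rw [h2.1, ell_zero, h2.2] at hc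
    exact Or.inr ⟨h2.1, by simpa using hc⟩
  exact (hw.1 a b ⟨v, u, k - k', fun h3 => h0 (by rw [hc, h3, Int.cast_zero]), hrel, h1, h2⟩).elim

/-- The invariant with an avoided set. -/
def GoodA (G : SimpleGraph V) [G.LocallyFinite] (S : Set ℤ) (F : Finset (V ⊕ V))
    (x : V ⊕ V → ℤ) : Prop :=
  Good G F x ∧ ∀ P, (ell G P).support ⊆ F → ∀ s ∈ S, val G x P ≠ s

lemma val_congr {F : Finset (V ⊕ V)} {x x' : V ⊕ V → ℤ} (h : ∀ z ∈ F, x' z = x z) {P : V × ℤ}
    (hP : (ell G P).support ⊆ F) : val G x' P = val G x P :=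
  Bp_congr _ fun z hz => by rw [h z (hP hz)]

lemma update_agree [DecidableEq V] {F : Finset (V ⊕ V)} {y : V ⊕ V} (hy : y ∉ F)
    (x : V ⊕ V → ℤ) (t : ℤ) : ∀ z ∈ F, Function.update x y t z = x z := fun _ hz =>
  Function.update_of_ne (ne_of_mem_of_not_mem hz hy) _ _

lemma avoidA (hG : NoFin G) (hΔ : ∀ v, G.degree v ≤ Δ) {S : Set ℤ}
    (hS : ∀ a b : ℝ, a ≠ 0 → Thin {t : ℤ | ∃ s ∈ S, a * t + b = s}) {F : Finset (V ⊕ V)}
    {x : V ⊕ V → ℤ} (h : GoodA G S F x) (y : V ⊕ V) :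
    ∃ F' x', GoodA G S F' x' ∧ F ⊆ F' ∧ (∀ z ∈ F, x' z = x z) ∧ y ∈ F' := by
  classical
  by_cases hy : y ∈ F
  · exact ⟨F, x, h, subset_rfl, fun _ _ => rfl, hy⟩
  obtain ⟨E, hE, hE'⟩ := thinA hG hΔ h.1 hy
  have h1 := thin_biUnion ((single_finite hG (insert y F)).inter_of_left {P | ell G P y ≠ 0})
    (E := fun P => {t : ℤ | ∃ s ∈ S, ell G P y * t + ∑ z ∈ F, ell G P z * x z = s})
    fun P hP => hS _ _ hP.2
  obtain ⟨t, ht⟩ := (hE.union h1).exists_notMem
  refine ⟨insert y F, Function.update x y t, ⟨hE' t fun h => ht (Or.inl h), fun P hP s hs h2 => ?_⟩,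
    subset_insert _ _, update_agree hy x t, mem_insert_self _ _⟩
  by_cases h0 : ell G P y = 0
  · exact h.2 P (supp_erase hP h0) s hs
      ((val_congr (update_agree hy x t) (supp_erase hP h0)).symm.trans h2)
  · rw [val, val_update hy x t hP] at h2
    exact ht (Or.inr (Set.mem_biUnion (x := P) ⟨hP, h0⟩ ⟨s, hs, h2⟩))

lemma avoidB [Infinite V] (hG : NoFin G) (hΔ : ∀ v, G.degree v ≤ Δ) {S : Set ℤ}
    {F : Finset (V ⊕ V)} {x : V ⊕ V → ℤ} (h : GoodA G S F x) {w0 : V} (hw0 : Sum.inr w0 ∈ F)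
    {t : ℤ} (htS : t ∉ S) : ∃ F' x', GoodA G S F' x' ∧ F ⊆ F' ∧ (∀ z ∈ F, x' z = x z) ∧
      ∃ P, (ell G P).support ⊆ F' ∧ val G x' P = t := by
  classical
  by_cases ht : ∃ P, (ell G P).support ⊆ F ∧ val G x P = t
  · exact ⟨F, x, h, subset_rfl, fun _ _ => rfl, ht⟩
  obtain ⟨w, hw, h1⟩ := coreB hG hΔ F
  have hsd : (ell G (w, 0)).support ⊆ insert (.inr w) F := by rw [ell_zero]; simp
  have hv : val G (Function.update x (.inr w) t) (w, 0) = t := by rw [val, ell_zero]; simp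
  have h2 : ∀ Q, (ell G (w, 0) - ell G Q).support ⊆ insert (.inr w) F → ell G Q (.inr w) = 0 →
      val G (Function.update x (.inr w) t) (w, 0) ≠ val G (Function.update x (.inr w) t) Q := by
    intro Q hs h0 h3
    have h4 := supp_erase (supp_of_sub hs hsd) h0
    exact ht ⟨Q, h4, by rw [← val_congr (update_agree hw x t) h4, ← h3, hv]⟩
  refine ⟨insert (.inr w) F, Function.update x (.inr w) t, ⟨good_update h.1 hw
    fun P Q _ hs h0 => ?_, fun P hP s hs h3 => ?_⟩, subset_insert _ _, update_agree hw x t,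
    (w, 0), hsd, hv⟩
  · rw [← val_update hw x t hs, map_sub, sub_ne_zero]
    rcases h1 P Q hs h0 with ⟨rfl, h3⟩ | ⟨rfl, h3⟩
    · exact h2 Q hs h3
    · exact (h2 P (supp_swap hs) h3).symm
  by_cases h0 : ell G P (.inr w) = 0
  · exact h.2 P (supp_erase hP h0) s hs
      ((val_congr (update_agree hw x t) (supp_erase hP h0)).symm.trans h3)
  have hne : Sum.inr w ≠ (Sum.inr w0 : V ⊕ V) := (ne_of_mem_of_not_mem hw0 hw).symm
  rcases h1 P (w0, 0) (Finsupp.support_sub.trans (union_subset hP (by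
    rw [ell_zero]; simp [hw0]))) (by
      rwa [ell_zero, Finsupp.sub_apply, Finsupp.single_eq_of_ne hne, sub_zero]) with h4 | h4
  · rw [h4.1, hv, Int.cast_inj] at h3
    exact htS (h3 ▸ hs)
  · exact h0 h4.2

theorem labeling_avoid [Countable V] [Infinite V] (hG : NoFin G) (hΔ : ∀ v, G.degree v ≤ Δ)
    {S : Set ℤ} (hS : ∀ a b : ℝ, a ≠ 0 → Thin {t : ℤ | ∃ s ∈ S, a * t + b = s}) :
    ∃ φ : V × ℤ → ℤ, Harm G Set.univ φ ∧ Set.BijOn φ Set.univ Sᶜ := by
  classical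
  have h0 : GoodA G S ∅ 0 := by
    refine ⟨?_, fun ⟨v, a⟩ hP => ?_⟩
    · rintro ⟨v, a⟩ ⟨u, b⟩ hne hs
      have := mem_two hne hs
      simp only [Two, image_empty, subset_empty, Finsupp.support_eq_empty, Set.mem_ofPred_eq,
        sub_eq_zero] at this
      exact (hne (two_zero this.2.1 this.2.2)).elim
    · rw [subset_empty, Finsupp.support_eq_empty] at hP
      have h4 : U G a (dl v) = 0 := Finsupp.ext fun y => DFunLike.congr_fun hP (.inl y)
      have h5 : -U G (a - 1) (dl v) = 0 := Finsupp.ext fun y => DFunLike.congr_fun hP (.inr y)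
      have h6 := congrArg mass h4
      have h7 := congrArg mass h5
      simp only [mass_U, mass_single, map_zero, map_neg, Int.cast_sub, Int.cast_one] at h6 h7
      linarith
  obtain ⟨A, x, y, h1, h2, h3⟩ := chain (GoodA G S) (fun (r : (V ⊕ V) × ℤ) F x => r.1 ∈ F ∧
      (r.2 ∉ S → ∃ P, (ell G P).support ⊆ F ∧ val G x P = r.2)) h0 fun F x r h => by
    obtain ⟨F1, x1, a1, a2, a3, a4⟩ := avoidA hG hΔ hS h r.1
    by_cases hr : r.2 ∈ S
    · exact ⟨F1, x1, a1, a2, a3, a4, fun h => (h hr).elim⟩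
    obtain ⟨F2, x2, b1, b2, b3, b4⟩ := avoidA hG hΔ hS a1 (.inr (Classical.arbitrary V))
    obtain ⟨F3, x3, c1, c2, c3, c4⟩ := avoidB hG hΔ b1 b4 hr
    exact ⟨F3, x3, c1, a2.trans (b2.trans c2), fun z hz =>
      (c3 z (b2 (a2 hz))).trans ((b3 z (a2 hz)).trans (a3 z hz)), c2 (b2 a4), fun _ => c4⟩
  have h4 : ∀ B : Finset (V ⊕ V), ∃ n, B ⊆ A n := fun B => by
    choose idx hidx using fun z => h3 (z, 0)
    exact ⟨B.sup idx, fun z hz => h1 (le_sup hz) (hidx z).1⟩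
  choose φ hφ using val_int (G := G) y
  refine ⟨φ, fun v _ n => ?_, fun P _ hs => ?_, fun P _ Q _ hPQ => ?_, fun t ht => ?_⟩
  · have := congrArg (Bp fun z => (y z : ℝ)) (ell_rec (G := G) v n)
    rw [map_add, map_sub, map_smul, map_sum] at this
    simp only [← val.eq_1, hφ, smul_eq_mul] at this
    have h2 : ((φ (v, n + 1) + φ (v, n - 1) + ∑ w ∈ G.neighborFinset v, φ (w, n) : ℤ) : ℝ) =
        (((G.degree v + 2) * φ (v, n) : ℤ) : ℝ) := by push_cast; linarith
    exact_mod_cast h2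
  · obtain ⟨n, hn⟩ := h4 (ell G P).support
    exact (h2 n).1.2 P hn _ hs ((val_congr (h2 n).2 hn).symm.trans (hφ P))
  · by_contra hne
    obtain ⟨n, hn⟩ := h4 ((ell G P).support ∪ (ell G Q).support)
    refine (h2 n).1.1 P Q hne (Finsupp.support_sub.trans hn) ?_
    rw [← val_congr (h2 n).2 (subset_union_left.trans hn),
      ← val_congr (h2 n).2 (subset_union_right.trans hn), hφ, hφ, hPQ]
  · obtain ⟨n, -, hn⟩ := h3 (.inl (Classical.arbitrary V), t)
    obtain ⟨P, hP, hP'⟩ := hn ht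
    rw [← val_congr (h2 n).2 hP, hφ] at hP'
    exact ⟨P, trivial, by exact_mod_cast hP'⟩

end Pool.Agent.Work.MP_997ab3_co.F
end

-- merged part: Pool.Agent.Work.MP_997ab3_co.F.Glue
section
/-! Gluing labelings of unions of components. -/

namespace Pool.Agent.Work.MP_997ab3_co.F

open Finset

variable {V : Type*} {G : SimpleGraph V} [G.LocallyFinite] {Δ : ℕ} {A B : Set V} {T T' : Set ℤ}

/-- Unions of components. -/
def Cl (G : SimpleGraph V) (A : Set V) : Prop := ∀ v ∈ A, ∀ w, G.Adj v w → w ∈ A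

/-- Harmonic bijections from `A × ℤ` onto `T`. -/
def Lab (G : SimpleGraph V) [G.LocallyFinite] (A : Set V) (T : Set ℤ) : Prop :=
  ∃ φ, Harm G A φ ∧ Set.BijOn φ (A ×ˢ Set.univ) T

lemma Harm.congr {φ ψ : V × ℤ → ℤ} (h : Harm G A φ) (hA : Cl G A)
    (e : ∀ v ∈ A, ∀ n, ψ (v, n) = φ (v, n)) : Harm G A ψ := fun v hv n => by
  rw [e v hv, e v hv, e v hv, ← h v hv n, sum_congr rfl fun w hw =>
    e w (hA v hv w ((G.mem_neighborFinset v w).mp hw)) n]

omit [G.LocallyFinite] in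
lemma Cl.union (hA : Cl G A) (hB : Cl G B) : Cl G (A ∪ B) := fun v hv w hw =>
  hv.imp (fun h => hA v h w hw) fun h => hB v h w hw

omit [G.LocallyFinite] in
lemma Cl.reach (hA : Cl G A) {v w : V} (hv : v ∈ A) (h : G.Reachable v w) : w ∈ A := by
  obtain ⟨p⟩ := h
  induction p with
  | nil => exact hv
  | cons h _ ih => exact ih (hA _ hv _ h)

lemma induce_nbr (hA : Cl G A) [(G.induce A).LocallyFinite] (v : A) :
    ((G.induce A).neighborFinset v).map (Function.Embedding.subtype _) = G.neighborFinset v := by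
  ext w
  simp only [mem_map, SimpleGraph.mem_neighborFinset, SimpleGraph.comap_adj,
    Function.Embedding.subtype_apply]
  exact ⟨fun ⟨u, h, e⟩ => e ▸ h, fun h => ⟨⟨w, hA _ v.2 _ h⟩, h, rfl⟩⟩

lemma induce_deg (hA : Cl G A) [(G.induce A).LocallyFinite] (v : A) :
    (G.induce A).degree v = G.degree v := by
  rw [← G.card_neighborFinset_eq_degree, ← induce_nbr hA v, card_map,
    SimpleGraph.card_neighborFinset_eq_degree]

lemma transfer (hA : Cl G A) [(G.induce A).LocallyFinite] {φ : A × ℤ → ℤ}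
    (h : Harm (G.induce A) Set.univ φ) :
    ∃ ψ : V × ℤ → ℤ, Harm G A ψ ∧ ∀ (v : A) n, ψ (v, n) = φ (v, n) := by
  classical
  refine ⟨fun P => if h : P.1 ∈ A then φ (⟨P.1, h⟩, P.2) else 0, fun v hv n => ?_,
    fun v n => by simp⟩
  have := h ⟨v, hv⟩ trivial n
  rw [induce_deg hA] at this
  rw [← induce_nbr hA ⟨v, hv⟩, sum_map]
  simpa [hv] using this

/-- Induced subgraphs are locally finite. -/
@[reducible] noncomputable def induceLF (G : SimpleGraph V) [G.LocallyFinite] (A : Set V) :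
    (G.induce A).LocallyFinite := fun v =>
  (((G.neighborSet v).toFinite.preimage Subtype.val_injective.injOn).subset
    fun _ h => h).fintype

lemma Lab.union (hA : Cl G A) (hB : Cl G B) (hAB : Disjoint A B) (hT : Disjoint T T')
    (h : Lab G A T) (h' : Lab G B T') : Lab G (A ∪ B) (T ∪ T') := by
  classical
  obtain ⟨φ, h1, h2⟩ := h
  obtain ⟨ψ, h3, h4⟩ := h'
  set χ : V × ℤ → ℤ := fun P => if P.1 ∈ A then φ P else ψ P with hχ
  have e1 : ∀ v ∈ A, ∀ n, χ (v, n) = φ (v, n) := fun v hv n => if_pos hv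
  have e2 : ∀ v ∈ B, ∀ n, χ (v, n) = ψ (v, n) := fun v hv n =>
    if_neg (Set.disjoint_right.mp hAB hv)
  have b1 := h2.congr (f₂ := χ) fun P hP => (e1 _ hP.1 _).symm
  have b2 := h4.congr (f₂ := χ) fun P hP => (e2 _ hP.1 _).symm
  refine ⟨χ, fun v hv => hv.elim (h1.congr hA e1 v) (h3.congr hB e2 v), ?_⟩
  rw [Set.union_prod]
  refine b1.union b2 ?_
  rintro P (hP | hP) Q (hQ | hQ) h
  · exact b1.injOn hP hQ h
  · exact (Set.disjoint_left.mp hT (b1.mapsTo hP) (h ▸ b2.mapsTo hQ)).elim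
  · exact (Set.disjoint_left.mp hT (b1.mapsTo hQ) (h ▸ b2.mapsTo hP)).elim
  · exact b2.injOn hP hQ h

lemma Lab.affine (h : Lab G A T) {a : ℤ} (ha : a ≠ 0) (b : ℤ) :
    Lab G A ((fun x => a * x + b) '' T) := by
  obtain ⟨φ, h1, h2⟩ := h
  refine ⟨(fun x => a * x + b) ∘ φ, fun v hv n => ?_, Set.BijOn.comp (Set.InjOn.bijOn_image
    fun x _ y _ h => mul_left_cancel₀ ha (add_right_cancel h)) h2⟩
  simp only [Function.comp, sum_add_distrib, ← mul_sum, sum_const,
    G.card_neighborFinset_eq_degree, nsmul_eq_mul]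
  linear_combination a * h1 v hv n

lemma Lab.merge (hA : Cl G A) (hB : Cl G B) (hAB : Disjoint A B) (h : Lab G A Set.univ)
    (h' : Lab G B Set.univ) : Lab G (A ∪ B) Set.univ := by
  have := Lab.union hA hB hAB (Set.disjoint_left.mpr (by
    rintro _ ⟨x, -, rfl⟩ ⟨y, -, h⟩
    simp only at h
    omega)) (h.affine two_ne_zero 0) (h'.affine two_ne_zero 1)
  rwa [Set.eq_univ_of_forall (s := (_ ∪ _ : Set ℤ)) fun t => by
    rcases Int.even_or_odd' t with ⟨k, rfl | rfl⟩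
    exacts [Or.inl ⟨k, trivial, by simp⟩, Or.inr ⟨k, trivial, rfl⟩]] at this

omit [G.LocallyFinite] in
lemma cl_iso (hA : A ⊆ G.supportᶜ) : Cl G A := fun _ hv w hw => (hA hv ⟨w, hw⟩).elim

omit [G.LocallyFinite] in
lemma cl_support : Cl G G.support := fun v _ _ hw => ⟨v, hw.symm⟩

lemma harm_iso {φ : V × ℤ → ℤ} {v : V} (hv : v ∉ G.support) (n : ℤ) :
    φ (v, n + 1) + φ (v, n - 1) + ∑ w ∈ G.neighborFinset v, φ (w, n) =
      (G.degree v + 2) * φ (v, n) ↔ φ (v, n + 1) + φ (v, n - 1) = 2 * φ (v, n) := by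
  have : G.neighborFinset v = ∅ := eq_empty_of_forall_notMem fun w hw =>
    hv ⟨w, (G.mem_neighborFinset v w).mp hw⟩
  rw [← G.card_neighborFinset_eq_degree, this]
  simp

lemma Lab.add_iso (hA : Cl G A) (h : Lab G A Set.univ) (hB : B.Finite) (hB' : B ⊆ G.supportᶜ)
    (hAB : Disjoint A B) : Lab G (A ∪ B) Set.univ := by
  induction B, hB using Set.Finite.induction_on with
  | empty => simpa using h
  | @insert v B hv _ ih =>
    rw [Set.insert_subset_iff] at hB'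
    rw [Set.disjoint_insert_right] at hAB
    rw [Set.union_insert, Set.insert_eq]
    refine Lab.merge (cl_iso (by simpa using hB'.1)) (hA.union (cl_iso hB'.2))
      (by simp [hv, hAB.1]) ⟨Prod.snd, fun u hu n => ?_, fun _ _ => trivial,
        fun P hP Q hQ h => Prod.ext (hP.1.trans hQ.1.symm) h,
        fun t _ => ⟨(v, t), ⟨rfl, trivial⟩, rfl⟩⟩ (ih hB'.2 hAB.2)
    rw [harm_iso (hu ▸ hB'.1)]
    ring

lemma iso_lab [Countable V] (hA : A ⊆ G.supportᶜ) (hA' : A.Infinite) (hT : ∀ s ∈ T, Even s)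
    (hT' : ∀ t ∉ T, ∃ M : ℕ, 0 < M ∧ ∀ s ∈ T, ¬s ≡ t [ZMOD M]) : Lab G A Tᶜ := by
  classical
  set m : ℕ → ℤ := fun k => 2 ^ k * k.factorial with hm
  have hm0 : ∀ k, 0 < m k := fun k => by simp only [hm]; positivity
  have hm1 : ∀ k l, k ≤ l → m k ∣ m l := fun k l h =>
    mul_dvd_mul (pow_dvd_pow _ h) (Int.natCast_dvd_natCast.mpr (Nat.factorial_dvd_factorial h))
  set p : ℕ → ℤ → Prop := fun k t => ¬2 ^ k ∣ 3 * t - 1 ∧ ∀ s ∈ T, ¬s ≡ t [ZMOD m k] with hp
  have hp1 : ∀ k t t', t ≡ t' [ZMOD m k] → p k t → p k t' := fun k t t' h h' =>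
    ⟨fun h1 => h'.1 (by
      have := h1.sub (((dvd_mul_right _ _).trans h.dvd).mul_left 3)
      rwa [show 3 * t' - 1 - 3 * (t' - t) = 3 * t - 1 by ring] at this),
      fun s hs h1 => h'.2 s hs (h1.trans h.symm)⟩
  set κ : ℤ → ℕ := fun t => sInf {k | p k t} with hκ
  have hp2 : ∀ t ∉ T, p (κ t) t := fun t ht => by
    obtain ⟨M, h1, h2⟩ := hT' t ht
    refine Nat.sInf_mem (s := {k | p k t}) ⟨M + (3 * t - 1).natAbs, fun h => ?_, fun s hs h =>
      h2 s hs (h.of_dvd (Dvd.dvd.mul_left (Int.natCast_dvd_natCast.mpr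
        (Nat.dvd_factorial h1 (Nat.le_add_right _ _))) _))⟩
    have h3 := Nat.le_of_dvd (by omega) (Int.natAbs_dvd_natAbs.mpr h)
    have h4 := Nat.lt_two_pow_self (n := M + (3 * t - 1).natAbs)
    rw [Int.natAbs_pow] at h3
    simp only [Int.reduceAbs] at h3
    omega
  have hp3 : ∀ t ∉ T, ∀ t', t ≡ t' [ZMOD m (κ t)] → t' ∉ T ∧ κ t' = κ t := fun t ht t' h => by
    have h1 := hp1 _ _ _ h (hp2 t ht)
    have h2 : t' ∉ T := fun h' => h1.2 t' h' rfl
    have h3 : κ t' ≤ κ t := Nat.sInf_le h1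
    exact ⟨h2, h3.antisymm (Nat.sInf_le (hp1 _ _ _ (h.of_dvd (hm1 _ _ h3)).symm (hp2 t' h2)))⟩
  set J : Set ℤ := {r | r ∉ T ∧ r % m (κ r) = r} with hJ
  have hJ1 : ∀ t ∉ T, t % m (κ t) ∈ J ∧ κ (t % m (κ t)) = κ t := fun t ht => by
    obtain ⟨h1, h2⟩ := hp3 t ht _ (Int.mod_modEq t (m (κ t))).symm
    exact ⟨⟨h1, by rw [h2, Int.emod_emod]⟩, h2⟩
  have hJ2 : J.Infinite := fun h => by
    obtain ⟨K, hK⟩ := (h.image κ).bddAbove
    obtain ⟨a, b, hab⟩ : IsCoprime (3 : ℤ) (2 ^ (K + 1)) :=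
      IsCoprime.pow_right ⟨1, -1, by norm_num⟩
    have h1 : 2 ^ (K + 1) ∣ 3 * a - 1 := ⟨-b, by linear_combination hab⟩
    have h2 : a ∉ T := fun h => by
      obtain ⟨c, hc⟩ := hT a h
      have := (dvd_pow_self 2 (Nat.succ_ne_zero K)).trans h1
      omega
    have h3 := hK ⟨_, (hJ1 a h2).1, (hJ1 a h2).2⟩
    exact (hp2 a h2).1 ((pow_dvd_pow _ (by omega)).trans h1)
  have := hA'.to_subtype
  have := hJ2.to_subtype
  obtain ⟨e⟩ : Nonempty (A ≃ J) := nonempty_equiv_of_countable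
  set f : V → ℤ := fun v => if h : v ∈ A then e ⟨v, h⟩ else 0 with hf
  have hf1 : ∀ v (h : v ∈ A), f v = e ⟨v, h⟩ := fun v h => dif_pos h
  have hf2 : ∀ v ∈ A, ∀ n, f v + m (κ (f v)) * n ∉ T ∧ κ (f v + m (κ (f v)) * n) = κ (f v) :=
    fun v hv n => hp3 _ (hf1 v hv ▸ (e ⟨v, hv⟩).2.1) _ (Int.modEq_iff_dvd.mpr (by simp))
  refine ⟨fun P => f P.1 + m (κ (f P.1)) * P.2, fun v hv n => ?_, fun P hP => (hf2 _ hP.1 _).1,
    fun ⟨v, n⟩ hv ⟨u, k⟩ hu h => ?_, fun t ht => ?_⟩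
  · rw [harm_iso (φ := fun P => f P.1 + m (κ (f P.1)) * P.2) (hA hv)]
    ring
  · simp only at h
    have h1 : κ (f v) = κ (f u) := by rw [← (hf2 v hv.1 n).2, h, (hf2 u hu.1 k).2]
    have h2 : f v = f u := by
      have h3 := congrArg (· % m (κ (f v))) h
      simp only [Int.add_mul_emod_self_left] at h3
      rw [(hf1 v hv.1 ▸ (e ⟨v, hv.1⟩).2.2 : f v % m (κ (f v)) = f v), h1,
        Int.add_mul_emod_self_left] at h3
      exact h3.trans (hf1 u hu.1 ▸ (e ⟨u, hu.1⟩).2.2)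
    rw [h2] at h
    rw [hf1 v hv.1, hf1 u hu.1] at h2
    exact Prod.ext (congrArg Subtype.val (e.injective (Subtype.ext h2)))
      (mul_left_cancel₀ (hm0 _).ne' (add_left_cancel h))
  · obtain ⟨v, hv⟩ := e.surjective ⟨_, (hJ1 t ht).1⟩
    refine ⟨(v, t / m (κ t)), ⟨v.2, trivial⟩, ?_⟩
    simp only [hf1 v v.2, Subtype.coe_eta, hv, (hJ1 t ht).2]
    exact Int.emod_add_mul_ediv _ _

lemma ext_on (hA : Cl G A) (hA1 : A.Finite) (hA2 : A ⊆ G.support) {I : Type*} [Finite I]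
    {g : I → ℤ → ℤ} (hg : ∀ i, GoodS (g i)) {t : ℤ} (ht : ∀ i m, g i m ≠ t) {v0 : V}
    (hv0 : v0 ∈ A) : ∃ φ : V × ℤ → ℤ, Harm G A φ ∧ Set.InjOn φ (A ×ˢ Set.univ) ∧
      (∀ v ∈ A, ∀ n i m, φ (v, n) ≠ g i m) ∧ φ (v0, 0) = t ∧
        ∀ v ∈ A, GoodS fun n => φ (v, n) := by
  let _ := induceLF G A
  have := hA1.to_subtype
  obtain ⟨φ, h1, h2, h3, h4, h5⟩ := ext_fin (G.induce A) (fun v => by
    obtain ⟨w, hw⟩ := hA2 v.2
    exact ⟨⟨w, hA _ v.2 _ hw⟩, hw⟩) hg ht ⟨v0, hv0⟩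
  obtain ⟨ψ, h6, h7⟩ := transfer hA h1
  refine ⟨ψ, h6, fun ⟨v, n⟩ hv ⟨u, k⟩ hu h => ?_, fun v hv n => h7 ⟨v, hv⟩ n ▸ h3 _,
    (h7 ⟨v0, hv0⟩ 0).trans h4, fun v hv => by simpa only [← h7] using h5 ⟨v, hv⟩⟩
  have := h2 ((h7 ⟨v, hv.1⟩ n).symm.trans (h.trans (h7 ⟨u, hu.1⟩ k)))
  simpa using this

lemma exists_good (hA : Cl G A) (hA1 : A.Finite) (hA2 : A ⊆ G.support) :
    ∃ φ : V × ℤ → ℤ, Harm G A φ ∧ Set.InjOn φ (A ×ˢ Set.univ) ∧
      ∀ v ∈ A, GoodS fun n => φ (v, n) := by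
  rcases A.eq_empty_or_nonempty with rfl | ⟨v, hv⟩
  · exact ⟨0, by simp [Harm], by simp, by simp⟩
  · obtain ⟨φ, h1, h2, -, -, h3⟩ := ext_on hA hA1 hA2 (I := Empty) (g := fun _ _ => 0) (by simp)
      (t := 0) (by simp) hv
    exact ⟨φ, h1, h2, h3⟩

lemma inf_lab [Countable V] (hΔ : ∀ v, G.degree v ≤ Δ) (hA : Cl G A) (hA1 : A.Nonempty)
    (hA2 : ∀ v ∈ A, {w | G.Reachable v w}.Infinite)
    (hT : ∀ a b : ℝ, a ≠ 0 → Thin {t : ℤ | ∃ s ∈ T, a * t + b = s}) : Lab G A Tᶜ := by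
  let _ := induceLF G A
  obtain ⟨v, hv⟩ := hA1
  have := ((hA2 v hv).mono fun w hw => hA.reach hv hw).to_subtype
  have hN : NoFin (G.induce A) := fun v h => hA2 v v.2 ((h.image Subtype.val).subset fun w hw => by
    refine Cl.reach (G := G) (A := Subtype.val '' {w | (G.induce A).Reachable v w}) ?_
      ⟨v, SimpleGraph.Reachable.refl _, rfl⟩ hw
    rintro _ ⟨u, hu, rfl⟩ x hx
    exact ⟨⟨x, hA _ u.2 _ hx⟩, hu.trans (SimpleGraph.Adj.reachable hx), rfl⟩)
  obtain ⟨φ, h1, h2⟩ := labeling_avoid hN (fun v => (induce_deg hA v).trans_le (hΔ v)) hT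
  obtain ⟨ψ, h6, h7⟩ := transfer hA h1
  refine ⟨ψ, h6, fun ⟨v, n⟩ hv => h7 ⟨v, hv.1⟩ n ▸ h2.mapsTo trivial,
    fun ⟨v, n⟩ hv ⟨u, k⟩ hu h => ?_, fun t ht => ?_⟩
  · have := h2.injOn trivial trivial
      ((h7 ⟨v, hv.1⟩ n).symm.trans (h.trans (h7 ⟨u, hu.1⟩ k)))
    simpa using this
  · obtain ⟨⟨v, n⟩, -, h⟩ := h2.surjOn ht
    exact ⟨(v, n), ⟨v.2, trivial⟩, (h7 v n).trans h⟩

omit [G.LocallyFinite] in
lemma thin_image (hA : A.Finite) {φ : V × ℤ → ℤ} (h : ∀ v ∈ A, GoodS fun n => φ (v, n)) (a b : ℝ)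
    (ha : a ≠ 0) : Thin {t : ℤ | ∃ s ∈ φ '' (A ×ˢ Set.univ), a * t + b = s} :=
  (thin_biUnion hA fun v hv => (h v hv).thin ha b).mono
    fun _ ⟨_, ⟨P, hP, e⟩, ht⟩ => Set.mem_biUnion hP.1 ⟨P.2, e ▸ ht⟩

lemma fin_lab [Countable V] (hA : Cl G A) (hA1 : A.Infinite) (hA2 : A ⊆ G.support)
    (hA3 : ∀ v ∈ A, {w | G.Reachable v w}.Finite) : Lab G A Set.univ := by
  classical
  set Inv : Finset V → (V → ℤ → ℤ) → Prop := fun F x => ↑F ⊆ A ∧ Cl G F ∧
    Harm G F (Function.uncurry x) ∧ Set.InjOn (Function.uncurry x) (↑F ×ˢ Set.univ) ∧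
      ∀ v ∈ F, GoodS (x v) with hInv
  have sub : ∀ F x, Inv F x → ∀ w ∈ A, w ∉ F → ∀ t, (∀ v ∈ F, ∀ n, x v n ≠ t) →
      ∃ F' x', Inv F' x' ∧ F ⊆ F' ∧ (∀ z ∈ F, x' z = x z) ∧ w ∈ F' ∧ x' w 0 = t := by
    rintro F x ⟨h1, h2, h3, h4, h5⟩ w hw hwF t ht
    have hC : Cl G {u | G.Reachable w u} := fun u hu _ h => hu.trans h.reachable
    have hCA : {u | G.Reachable w u} ⊆ A := fun u hu => hA.reach hw hu
    have hCF : ∀ u, G.Reachable w u → u ∉ F := fun u hu h => hwF (h2.reach h hu.symm)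
    obtain ⟨φ, a1, a2, a3, a4, a5⟩ := ext_on hC (hA3 w hw) (hCA.trans hA2) (I := F)
      (g := fun v => x v) (fun v => h5 v v.2) (fun v => ht v v.2) (SimpleGraph.Reachable.refl w)
    set x' : V → ℤ → ℤ := fun v => if v ∈ F then x v else fun n => φ (v, n) with hx'
    have e1 : ∀ v ∈ F, x' v = x v := fun v hv => if_pos hv
    have e2 : ∀ v, G.Reachable w v → x' v = fun n => φ (v, n) := fun v hv => if_neg (hCF v hv)
    refine ⟨F ∪ (hA3 w hw).toFinset, x', ?_, subset_union_left, e1,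
      by simp, by rw [e2 w (.refl w)]; exact a4⟩
    simp only [hInv, coe_union, Set.Finite.coe_toFinset, mem_union, Set.Finite.mem_toFinset]
    refine ⟨Set.union_subset h1 hCA, h2.union hC, fun v hv => hv.elim
      (h3.congr h2 (fun v hv n => congrFun (e1 v hv) n) v)
      (a1.congr hC (fun v hv n => congrFun (e2 v hv) n) v), ?_, fun v hv => hv.elim
        (fun hv => e1 v hv ▸ h5 v hv) fun hv => e2 v hv ▸ a5 v hv⟩
    rintro ⟨v, n⟩ ⟨hv | hv, -⟩ ⟨u, k⟩ ⟨hu | hu, -⟩ h <;> simp only [Function.uncurry] at h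
    · rw [e1 v hv, e1 u hu] at h
      exact h4 ⟨hv, trivial⟩ ⟨hu, trivial⟩ h
    · rw [e1 v hv, e2 u hu] at h
      exact (a3 u hu k ⟨v, hv⟩ n h.symm).elim
    · rw [e2 v hv, e1 u hu] at h
      exact (a3 v hv n ⟨u, hu⟩ k h).elim
    · rw [e2 v hv, e2 u hu] at h
      exact a2 ⟨hv, trivial⟩ ⟨hu, trivial⟩ h
  have := hA1.nonempty.to_subtype
  obtain ⟨F, x, y, h1, h2, h3⟩ := chain Inv (fun (r : A × ℤ) F x => ↑r.1 ∈ F ∧
      ∃ v ∈ F, ∃ n, x v n = r.2) (A0 := ∅) (x0 := 0) (by simp [hInv, Cl, Harm]) fun F x r h => by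
    obtain ⟨F1, x1, a1, a2, a3, a4⟩ : ∃ F1 x1, Inv F1 x1 ∧ F ⊆ F1 ∧ (∀ z ∈ F, x1 z = x z) ∧
        ↑r.1 ∈ F1 := by
      by_cases hr : ↑r.1 ∈ F
      · exact ⟨F, x, h, subset_rfl, fun _ _ => rfl, hr⟩
      obtain ⟨t, ht⟩ := (thin_image (φ := Function.uncurry x) F.finite_toSet h.2.2.2.2 1 0
        one_ne_zero).exists_notMem
      obtain ⟨F1, x1, a1, a2, a3, a4, -⟩ := sub F x h _ r.1.2 hr t fun v hv n e =>
        ht ⟨_, ⟨(v, n), ⟨hv, trivial⟩, e⟩, by simp⟩
      exact ⟨F1, x1, a1, a2, a3, a4⟩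
    by_cases hr : ∃ v ∈ F1, ∃ n, x1 v n = r.2
    · exact ⟨F1, x1, a1, a2, a3, a4, hr⟩
    obtain ⟨w, hw, hwF⟩ := hA1.exists_notMem_finset F1
    obtain ⟨F2, x2, b1, b2, b3, b4, b5⟩ := sub F1 x1 a1 w hw hwF r.2 fun v hv n e =>
      hr ⟨v, hv, n, e⟩
    exact ⟨F2, x2, b1, a2.trans b2, fun z hz => (b3 z (a2 hz)).trans (a3 z hz), b2 a4,
      w, b4, 0, b5⟩
  refine ⟨Function.uncurry y, fun v hv => ?_, fun _ _ => trivial,
    fun ⟨v, n⟩ hv ⟨u, k⟩ hu h => ?_, fun t _ => ?_⟩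
  · obtain ⟨n, hn, -⟩ := h3 (⟨v, hv⟩, 0)
    exact (h2 n).1.2.2.1.congr (h2 n).1.2.1 (fun v hv k => congrFun ((h2 n).2 v hv) k) v hn
  · obtain ⟨a, ha, -⟩ := h3 (⟨v, hv.1⟩, 0)
    obtain ⟨b, hb, -⟩ := h3 (⟨u, hu.1⟩, 0)
    have e1 := h1 (le_max_left a b) ha
    have e2 := h1 (le_max_right a b) hb
    refine (h2 (max a b)).1.2.2.2.1 ⟨e1, trivial⟩ ⟨e2, trivial⟩ ?_
    simpa only [Function.uncurry, ← (h2 _).2 _ e1, ← (h2 _).2 _ e2] using h
  · obtain ⟨a, -, v, hv, n, hn⟩ := h3 (Classical.arbitrary A, t)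
    exact ⟨(v, n), ⟨(h2 a).1.1 hv, trivial⟩, (congrFun ((h2 a).2 v hv) n).trans hn⟩

theorem lab_support [Countable V] (hΔ : ∀ v, G.degree v ≤ Δ) (h : G.support.Infinite) :
    Lab G G.support Set.univ := by
  set A := {v | {w | G.Reachable v w}.Infinite} with hA
  have e : ∀ v w, G.Adj v w → {u | G.Reachable v u} = {u | G.Reachable w u} := fun v w h =>
    Set.ext fun u => ⟨h.symm.reachable.trans, h.reachable.trans⟩
  have h1 : Cl G A := fun v hv w hw => by rwa [hA, Set.mem_ofPred_eq, ← e v w hw]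
  have h2 : Cl G (G.support \ A) := fun v hv w hw => ⟨⟨v, hw.symm⟩, fun h => hv.2 (h1 w h v hw.symm)⟩
  have h3 : A ⊆ G.support := fun v hv => by
    by_contra h
    exact hv ((Set.finite_singleton v).subset fun w hw =>
      (cl_iso (A := {v}) (by simpa using h)).reach rfl hw)
  rw [← Set.sdiff_union_of_subset h3]
  by_cases h4 : (G.support \ A).Finite
  · obtain ⟨φ, a1, a2, a3⟩ := exists_good h2 h4 Set.sdiff_subset
    rw [← Set.union_compl_self (φ '' ((G.support \ A) ×ˢ Set.univ))]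
    refine Lab.union h2 h1 Set.disjoint_sdiff_left disjoint_compl_right ⟨φ, a1, a2.bijOn_image⟩
      (inf_lab hΔ h1 ?_ (fun _ h => h) (thin_image h4 a3))
    by_contra h5
    rw [Set.not_nonempty_iff_eq_empty.mp h5, Set.sdiff_empty] at h4
    exact h h4
  have h5 := fin_lab h2 h4 Set.sdiff_subset fun v hv => not_not.mp hv.2
  rcases A.eq_empty_or_nonempty with h6 | h6
  · rwa [h6, Set.union_empty, ← h6]
  · exact h5.merge h2 h1 Set.disjoint_sdiff_left (Set.compl_empty ▸ inf_lab hΔ h1 h6 (fun _ h => h)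
      fun _ _ _ => thin_of_finite (by simp))

theorem lab_of_infinite [Countable V] (hΔ : ∀ v, G.degree v ≤ Δ) (h : G.support.Infinite) :
    Lab G Set.univ Set.univ := by
  have h1 := lab_support hΔ h
  rw [← Set.union_compl_self G.support]
  by_cases h2 : G.supportᶜ.Finite
  · exact h1.add_iso cl_support h2 subset_rfl disjoint_compl_right
  · exact h1.merge cl_support (cl_iso subset_rfl) disjoint_compl_right
      (Set.compl_empty ▸ iso_lab subset_rfl h2 (by simp) fun _ _ => ⟨1, by simp⟩)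

theorem lab_of_closed [Countable V] (h : G.supportᶜ.Infinite) {φ : V × ℤ → ℤ}
    (h1 : Harm G G.support φ) (h2 : Set.InjOn φ (G.support ×ˢ Set.univ))
    (h3 : ∀ t ∉ φ '' (G.support ×ˢ Set.univ), ∃ M : ℕ, 0 < M ∧
      ∀ s ∈ φ '' (G.support ×ˢ Set.univ), ¬s ≡ t [ZMOD M]) : Lab G Set.univ Set.univ := by
  have h4 := Lab.affine ⟨φ, h1, h2.bijOn_image⟩ two_ne_zero 0
  rw [← Set.union_compl_self G.support,
    ← Set.union_compl_self ((fun x => 2 * x + 0) '' (φ '' (G.support ×ˢ Set.univ)))]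
  refine h4.union cl_support (cl_iso subset_rfl) disjoint_compl_right disjoint_compl_right
    (iso_lab subset_rfl h (by rintro _ ⟨s, -, rfl⟩; simp) fun t ht => ?_)
  rcases Int.even_or_odd' t with ⟨k, rfl | rfl⟩
  · obtain ⟨M, h5, h6⟩ := h3 k fun h => ht ⟨k, h, add_zero _⟩
    refine ⟨2 * M, by omega, ?_⟩
    rintro _ ⟨s, hs, rfl⟩ h
    refine h6 s hs (Int.modEq_iff_dvd.mpr (Int.dvd_of_mul_dvd_mul_left two_ne_zero ?_))
    simpa [mul_sub] using h.dvd
  · refine ⟨2, two_pos, ?_⟩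
    rintro _ ⟨s, -, rfl⟩ h
    have := h.dvd
    simp only at this
    omega

theorem closed_of_lab {φ : V × ℤ → ℤ} (h1 : Harm G Set.univ φ) (h2 : Function.Bijective φ) :
    ∀ t ∉ φ '' (G.support ×ˢ Set.univ), ∃ M : ℕ, 0 < M ∧
      ∀ s ∈ φ '' (G.support ×ˢ Set.univ), ¬s ≡ t [ZMOD M] := by
  intro t ht
  obtain ⟨⟨v, n⟩, rfl⟩ := h2.2 t
  have hv : v ∉ G.support := fun h => ht ⟨(v, n), ⟨h, trivial⟩, rfl⟩
  set d := φ (v, n + 1) - φ (v, n) with hd
  have h3 : ∀ k, φ (v, n + k) - (φ (v, n) + d * k) = 0 :=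
    rec_unique (fun x => 2 * x) (by simp) _ (fun k => by
      have := (harm_iso hv (n + k)).mp (h1 v trivial _)
      rw [add_assoc, add_sub_assoc] at this
      linear_combination this) (by simp) (by simp [hd])
  refine ⟨d.natAbs, Int.natAbs_pos.mpr (sub_ne_zero.mpr fun h => by simpa using h2.1 h), ?_⟩
  rintro _ ⟨P, hP, rfl⟩ h
  obtain ⟨k, hk⟩ := Int.natAbs_dvd.mp h.symm.dvd
  rw [h2.1 (by linear_combination hk - h3 k : φ P = φ (v, n + k))] at hP
  exact hv hP.1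

end Pool.Agent.Work.MP_997ab3_co.F
end

-- merged part: Pool.Agent.Work.MP_997ab3_co.F.Final
section
/-! The characterization. -/

namespace Pool.Agent.Work.MP_997ab3_co.F

variable {V : Type*} {G : SimpleGraph V} [G.LocallyFinite] {Δ : ℕ}

lemma harm_iff {φ : V × ℤ → ℤ} :
    IsHarmonicFun (G.boxProd (SimpleGraph.hasse ℤ)) φ ↔ Harm G Set.univ φ := by
  classical
  simp only [IsHarmonicFun, Harm, Prod.forall, Set.mem_univ, true_imp_iff]
  refine forall₂_congr fun v n => ?_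
  have hN : (G.boxProd (SimpleGraph.hasse ℤ)).neighborSet (v, n) =
      ↑(insert (v, n + 1) (insert (v, n - 1) ((G.neighborFinset v).image fun w => (w, n)))) := by
    ext ⟨w, m⟩
    simp only [SimpleGraph.mem_neighborSet, SimpleGraph.boxProd_adj, SimpleGraph.hasse_adj,
      Finset.coe_insert, Finset.coe_image, SimpleGraph.coe_neighborFinset, Set.mem_insert_iff,
      Set.mem_image, Prod.mk.injEq, Order.covBy_iff_add_one_eq]
    constructor
    · rintro (⟨h, rfl⟩ | ⟨h | h, rfl⟩)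
      · exact Or.inr (Or.inr ⟨w, h, rfl, rfl⟩)
      · exact Or.inl ⟨rfl, h.symm⟩
      · exact Or.inr (Or.inl ⟨rfl, by omega⟩)
    · rintro (⟨rfl, rfl⟩ | ⟨rfl, rfl⟩ | ⟨u, h, rfl, rfl⟩)
      · exact Or.inr ⟨Or.inl rfl, rfl⟩
      · exact Or.inr ⟨Or.inr (by omega), rfl⟩
      · exact Or.inl ⟨h, rfl⟩
  have h1 : (v, n - 1) ∉ (G.neighborFinset v).image fun w => (w, n) := by simp
  have h2 : (v, n + 1) ∉ insert (v, n - 1) ((G.neighborFinset v).image fun w => (w, n)) := by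
    simp only [Finset.mem_insert, Prod.mk.injEq, Finset.mem_image, not_or, not_exists]
    exact ⟨by omega, fun w => by omega⟩
  have hinj : Function.Injective fun w : V => (w, n) := fun a b h => (Prod.mk.inj h).1
  rw [hN, finsum_mem_coe_finset, Set.ncard_coe_finset, Finset.sum_insert h2, Finset.sum_insert h1,
    Finset.card_insert_of_notMem h2, Finset.card_insert_of_notMem h1,
    Finset.sum_image hinj.injOn, Finset.card_image_of_injective _ hinj,
    SimpleGraph.card_neighborFinset_eq_degree, eq_div_iff (by positivity),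
    ← Int.cast_inj (α := ℚ)]
  push_cast
  constructor <;> intro h <;> linarith

lemma lab_iff : (∃ φ : V × ℤ → ℤ, IsHarmonicLabeling (G.boxProd (SimpleGraph.hasse ℤ)) φ) ↔
    Lab G Set.univ Set.univ := by
  refine exists_congr fun φ => ?_
  rw [Set.univ_prod_univ, Set.bijOn_univ, ← harm_iff, and_comm]
  rfl

omit [G.LocallyFinite] in
lemma support_infinite (h : G.edgeSet.Infinite) : G.support.Infinite := fun h' =>
  h (((h'.prod h').image fun p => s(p.1, p.2)).subset fun e he => by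
    induction e using Sym2.ind with
    | _ v w => exact ⟨(v, w), ⟨⟨w, he⟩, ⟨v, he.symm⟩⟩, rfl⟩)

theorem characterization [Countable V] [Infinite V] (hΔ : ∀ v, G.degree v ≤ Δ) :
    (∃ φ : V × ℤ → ℤ, IsHarmonicLabeling (G.boxProd (SimpleGraph.hasse ℤ)) φ) ↔
      G.edgeSet.Infinite ∨ ∃ φ : V × ℤ → ℤ, IsHarmonicFun (G.boxProd (SimpleGraph.hasse ℤ)) φ ∧
        Set.InjOn φ (G.support ×ˢ Set.univ) ∧ CongClosed (φ '' (G.support ×ˢ Set.univ)) := by
  refine ⟨fun ⟨φ, h1, h2⟩ => Or.inr ⟨φ, h2, h1.1.injOn, closed_of_lab (harm_iff.mp h2) h1⟩,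
    fun h => lab_iff.mpr ?_⟩
  by_cases h1 : G.support.Finite
  · obtain ⟨φ, h2, h3, h4⟩ := h.resolve_left fun h => support_infinite h h1
    exact lab_of_closed h1.infinite_compl (fun v _ => harm_iff.mp h2 v trivial) h3 h4
  · exact lab_of_infinite hΔ h1

/-- The exponential local-global principle for integer valued sums of real exponentials. -/
def ExpLocalGlobal : Prop :=
  ∀ (R : Finset ℝ) (c : ℝ → ℝ) (u : ℤ → ℤ), (∀ ρ ∈ R, 0 < ρ) →
    (∀ n, (u n : ℝ) = ∑ ρ ∈ R, c ρ * ρ ^ n) → (∀ M : ℕ, 0 < M → ∃ n, (M : ℤ) ∣ u n) →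
      ∃ n, u n = 0

theorem of_expLocalGlobal [Countable V] [Infinite V] (hΔ : ∀ v, G.degree v ≤ Δ)
    (hS : ExpLocalGlobal) :
    ∃ φ : V × ℤ → ℤ, IsHarmonicLabeling (G.boxProd (SimpleGraph.hasse ℤ)) φ := by
  classical
  refine lab_iff.mpr ?_
  by_cases h1 : G.support.Finite
  swap
  · exact lab_of_infinite hΔ h1
  obtain ⟨φ, h2, h3, h4⟩ := exists_good (G := G) cl_support h1 subset_rfl
  refine lab_of_closed h1.infinite_compl h2 h3 fun t ht => ?_
  have h5 : ∀ v, ∃ M : ℕ, 0 < M ∧ (v ∈ G.support → ∀ n, ¬(M : ℤ) ∣ t - φ (v, n)) := by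
    intro v
    by_contra h
    push Not at h
    obtain ⟨c, hc, hc'⟩ := h4 v (h 1 one_pos).1
    obtain ⟨n, hn⟩ := hS (insert 1 c.support) (Finsupp.single 1 (t : ℝ) - c : ℝ →₀ ℝ)
      (fun n => t - φ (v, n))
      (fun ρ hρ => (Finset.mem_insert.mp hρ).elim (fun h => h ▸ one_pos) (hc.pos ρ)) (fun n => by
        rw [← Bp_eq_sum _ _ (Finsupp.support_sub.trans (Finset.union_subset
          (Finsupp.support_single_subset.trans (by simp)) (Finset.subset_insert _ _)))]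
        simp [hc', ev]) fun M hM => (h M hM).2
    exact ht ⟨(v, n), ⟨(h 1 one_pos).1, trivial⟩, by omega⟩
  choose M hM hM' using h5
  refine ⟨∏ v ∈ h1.toFinset, M v, Finset.prod_pos fun v _ => hM v, ?_⟩
  rintro _ ⟨⟨v, n⟩, hv, rfl⟩ h
  exact hM' v hv.1 n ((Int.natCast_dvd_natCast.mpr
    (Finset.dvd_prod_of_mem M (h1.mem_toFinset.mpr hv.1))).trans h.dvd)

end Pool.Agent.Work.MP_997ab3_co.F
end
end
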