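import Mathlib

/-! Divided differences of the exponential function at the nodes `i + N k`. -/

namespace Pool.Agent.Work.MP_997ab3_co.F

open Finset Polynomial

lemma rolle_iter (F : ℕ → ℝ → ℝ) (hF : ∀ k x, HasDerivAt (F k) (F (k + 1) x) x) (a b : ℝ)
    (m : ℕ) : ∀ (k : ℕ) (x : Fin (m + 1) → ℝ), StrictMono x → (∀ i, x i ∈ Set.Icc a b) →
      (∀ i, F k (x i) = 0) → ∃ ζ ∈ Set.Icc a b, F (k + m) ζ = 0 := by
  induction m with
  | zero => exact fun k x _ hx h0 => ⟨x 0, hx 0, h0 0⟩
  | succ m ih =>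
    intro k x hm hx h0
    have h1 : ∀ i : Fin (m + 1), ∃ c ∈ Set.Ioo (x i.castSucc) (x i.succ), F (k + 1) c = 0 :=
      fun i => exists_hasDerivAt_eq_zero (hm Fin.castSucc_lt_succ)
        (fun y _ => (hF k y).continuousAt.continuousWithinAt) (by rw [h0, h0])
        (fun y _ => hF k y)
    choose c hc hc0 using h1
    have h2 : StrictMono c := Fin.strictMono_iff_lt_succ.mpr fun i =>
      (hc i.castSucc).2.trans (by rw [Fin.succ_castSucc]; exact (hc i.succ).1)
    obtain ⟨ζ, hζ, h3⟩ := ih (k + 1) c h2 (fun i =>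
      ⟨(hx _).1.trans (hc i).1.le, (hc i).2.le.trans (hx _).2⟩) hc0
    exact ⟨ζ, hζ, by rwa [show k + (m + 1) = k + 1 + m by ring]⟩

lemma dd_exp {ι : Type*} [DecidableEq ι] (s : Finset ι) (v : ι → ℝ) (hv : Set.InjOn v s)
    {m : ℕ} (hm : s.card = m + 1) {L : ℝ} (hL : ∀ i ∈ s, v i ∈ Set.Icc 0 L) (u : ℝ) :
    ∃ ζ ∈ Set.Icc 0 L, ∑ i ∈ s, Real.exp (u * v i) / ∏ j ∈ s.erase i, (v i - v j) =
      u ^ m * Real.exp (u * ζ) / m.factorial := by
  classical
  set p := Lagrange.interpolate s v fun i => Real.exp (u * v i) with hp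
  have hdeg : p.degree < s.card := Lagrange.degree_interpolate_lt _ hv
  have hev : ∀ i ∈ s, p.eval (v i) = Real.exp (u * v i) := fun i hi =>
    Lagrange.eval_interpolate_at_node _ hv hi
  have hc : (s.image v).card = m + 1 := by rw [card_image_of_injOn hv, hm]
  let x := (s.image v).orderEmbOfFin hc
  have hx : ∀ i, ∃ j ∈ s, v j = x i := fun i =>
    mem_image.mp ((s.image v).orderEmbOfFin_mem hc i)
  obtain ⟨ζ, hζ, h⟩ := rolle_iter
    (fun k y => u ^ k * Real.exp (u * y) - (derivative^[k] p).eval y) (fun k y => by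
      have h1 := (((hasDerivAt_id y).const_mul u).exp.const_mul (u ^ k)).sub
        ((derivative^[k] p).hasDerivAt y)
      rw [Function.iterate_succ_apply']
      refine h1.congr_deriv ?_
      simp only [id]
      ring) 0 L m 0 x x.strictMono (fun i => by
      obtain ⟨j, hj, e⟩ := hx i
      exact e ▸ hL j hj) (fun i => by
      obtain ⟨j, hj, e⟩ := hx i
      simp [← e, hev j hj])
  refine ⟨ζ, hζ, ?_⟩
  have h2 := Lagrange.coeff_eq_sum hv hdeg
  rw [hm, Nat.add_sub_cancel, sum_congr rfl fun i hi => by rw [hev i hi]] at h2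
  have h3 : (derivative^[m] p).natDegree = 0 := by
    have := natDegree_iterate_derivative p m
    have h4 : p.natDegree ≤ m := natDegree_le_iff_degree_le.mpr (by
      rw [hm] at hdeg
      exact Order.le_of_lt_succ (by exact_mod_cast hdeg))
    omega
  rw [zero_add, eq_C_of_natDegree_eq_zero h3, coeff_iterate_derivative] at h
  simp only [zero_add, eval_C, Nat.descFactorial_self, nsmul_eq_mul] at h
  rw [← h2, eq_div_iff (by positivity)]
  linarith

lemma prod_erase_range (k : ℕ) : ∀ r, k ≤ r → ∏ l ∈ (range (r + 1)).erase k, ((k : ℝ) - l) =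
    (-1) ^ (r - k) * k.factorial * (r - k).factorial := by
  intro r hr
  induction r, hr using Nat.le_induction with
  | base =>
    have h1 : (range (k + 1)).erase k = range k := by
      ext l; simp only [mem_erase, mem_range]; omega
    have h2 := prod_range_reflect (fun l : ℕ => ((l : ℝ) + 1)) k
    rw [h1, prod_congr rfl (g := fun l => (((k - 1 - l : ℕ) : ℝ) + 1)) fun l hl => by
      have := mem_range.mp hl
      rw [Nat.sub_sub, Nat.cast_sub (by omega)]
      push_cast
      ring, h2]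
    have h3 := congrArg (Nat.cast : ℕ → ℝ) (prod_range_add_one_eq_factorial k)
    push_cast at h3
    simp [h3]
  | succ r hr ih =>
    have h1 : (range (r + 1 + 1)).erase k = insert (r + 1) ((range (r + 1)).erase k) := by
      ext l; simp only [mem_erase, mem_range, mem_insert]; omega
    rw [h1, prod_insert (by simp), ih, show r + 1 - k = (r - k) + 1 by omega,
      Nat.factorial_succ, pow_succ]
    push_cast [Nat.cast_sub hr]
    ring

lemma weight_int (r k : ℕ) (hk : k ≤ r) : ∃ z : ℤ, |z| = r.choose k ∧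
    (r.factorial : ℝ) / ∏ l ∈ (range (r + 1)).erase k, ((k : ℝ) - l) = z := by
  refine ⟨(-1) ^ (r - k) * r.choose k, by simp [abs_mul], ?_⟩
  rw [prod_erase_range k r hk, ← Nat.choose_mul_factorial_mul_factorial hk]
  have : ((-1 : ℝ) ^ (r - k)) * (-1) ^ (r - k) = 1 := by rw [← mul_pow]; simp
  rw [div_eq_iff (by positivity)]
  push_cast
  linear_combination (-(r.choose k : ℝ) * k.factorial * (r - k).factorial) * this

lemma frac_int (N r : ℕ) (hN : 0 < N) (d : ℤ) (hd0 : d ≠ 0) (hd : |d| < N) (k : ℕ) (hk : k ≤ r) :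
    ∃ z : ℤ, |z| ≤ 2 ^ r * Nat.lcmUpto (N * (r + 1)) ∧
      (r.factorial : ℝ) * N ^ r * Nat.lcmUpto (N * (r + 1)) /
        ∏ l ∈ range (r + 1), ((d : ℝ) + N * (k - l)) = z := by
  set Λ := Nat.lcmUpto (N * (r + 1)) with hΛ
  have hNr : (0 : ℝ) < N := by exact_mod_cast hN
  have hne : ∀ l : ℕ, d + N * ((k : ℤ) - l) ≠ 0 := fun l h => by
    have h1 : (N : ℤ) ∣ d := ⟨-((k : ℤ) - l), by linarith⟩
    exact hd0 (Int.eq_zero_of_abs_lt_dvd h1 hd)
  have hne' : ∀ l : ℕ, (d : ℝ) + N * (k - l) ≠ 0 := fun l => by exact_mod_cast hne l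
  have hdv : ∀ l ∈ range (r + 1), ∃ y : ℤ, |y| ≤ Λ ∧ (Λ : ℝ) / (d + N * (k - l)) = y := by
    intro l hl
    have hl' := mem_range.mp hl
    have h1 : (d + N * ((k : ℤ) - l)).natAbs ∣ Λ := by
      refine Finset.dvd_lcm (f := id) (mem_Icc.mpr ⟨Int.natAbs_pos.mpr (hne l), ?_⟩)
      have h2 : |(k : ℤ) - l| ≤ r := by rw [abs_le]; constructor <;> omega
      have h3 : |d + N * ((k : ℤ) - l)| ≤ N * (r + 1) := by
        refine (abs_add_le _ _).trans ?_
        rw [abs_mul, Nat.abs_cast]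
        nlinarith
      rw [← Int.natCast_natAbs] at h3
      exact_mod_cast h3
    obtain ⟨y, hy⟩ := Int.natAbs_dvd.mp (Int.natCast_dvd_natCast.mpr h1)
    refine ⟨y, ?_, ?_⟩
    · have h4 : 1 ≤ |d + N * ((k : ℤ) - l)| := Int.one_le_abs (hne l)
      have h5 : |(Λ : ℤ)| = |d + N * ((k : ℤ) - l)| * |y| := by rw [hy, abs_mul]
      rw [Nat.abs_cast] at h5
      nlinarith [abs_nonneg y]
    · rw [div_eq_iff (hne' l)]
      have := congrArg (Int.cast : ℤ → ℝ) hy
      push_cast at this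
      linarith
  choose! y hy hy' using hdv
  choose! w hw hw' using weight_int r
  refine ⟨∑ l ∈ range (r + 1), w l * y l, ?_, ?_⟩
  · refine (abs_sum_le_sum_abs _ _).trans ?_
    have h1 := congrArg (Nat.cast : ℕ → ℤ) (Nat.sum_range_choose r)
    push_cast at h1
    rw [← h1, sum_mul]
    refine sum_le_sum fun l hl => ?_
    rw [abs_mul, hw l (Nat.lt_succ_iff.mp (mem_range.mp hl))]
    exact mul_le_mul_of_nonneg_left (hy l hl) (by positivity)
  · have hx : ∀ l ∈ range (r + 1), (k : ℝ) + d / N ≠ (l : ℝ) := fun l _ h => hne' l (by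
      rw [← h]; field_simp; ring)
    have h1 := Lagrange.eval_interpolate_not_at_node (s := range (r + 1))
      (v := fun l : ℕ => (l : ℝ)) (1 : ℕ → ℝ) hx
    rw [Lagrange.interpolate_one (fun a _ b _ h => by exact_mod_cast h) (by simp), eval_one,
      Lagrange.eval_nodal] at h1
    have h2 : ∏ l ∈ range (r + 1), ((d : ℝ) + N * (k - l)) =
        N ^ (r + 1) * ∏ l ∈ range (r + 1), ((k : ℝ) + d / N - l) := by
      rw [show (N : ℝ) ^ (r + 1) = ∏ _l ∈ range (r + 1), (N : ℝ) by simp, ← prod_mul_distrib]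
      exact prod_congr rfl fun l _ => by field_simp; ring
    have h3 : ∏ l ∈ range (r + 1), ((k : ℝ) + d / N - l) ≠ 0 :=
      prod_ne_zero_iff.mpr fun l hl => sub_ne_zero.mpr (hx l hl)
    have h4 : (∏ l ∈ range (r + 1), ((k : ℝ) + d / N - l))⁻¹ =
        ∑ i ∈ range (r + 1), Lagrange.nodalWeight (range (r + 1)) (fun l : ℕ => (l : ℝ)) i *
          ((k : ℝ) + d / N - i)⁻¹ * (1 : ℕ → ℝ) i := inv_eq_of_mul_eq_one_right h1.symm
    rw [h2, div_eq_mul_inv, mul_inv, h4, ← mul_assoc, mul_sum]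
    push_cast
    refine sum_congr rfl fun l hl => ?_
    rw [← hw' l (Nat.lt_succ_iff.mp (mem_range.mp hl)), ← hy' l hl, Lagrange.nodalWeight,
      prod_inv_distrib]
    have h5 := hne' l
    have h6 : (k : ℝ) + d / N - l = (d + N * (k - l)) / N := by field_simp; ring
    rw [h6, Pi.one_apply]
    field_simp
    ring

lemma fact_mul_le (n : ℕ) : ∀ a : ℕ, (a * n).factorial ≤ 2 ^ (a * a * n) * n.factorial ^ a := by
  intro a
  induction a with
  | zero => simp
  | succ a ih =>
    have h1 := Nat.add_choose_mul_factorial_mul_factorial (a * n) n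
    have h2 : (a * n + n).choose n ≤ 2 ^ (a * n + n) := Nat.choose_le_two_pow _ _
    rw [Nat.succ_mul, ← h1]
    calc (a * n + n).choose n * (a * n).factorial * n.factorial
        ≤ 2 ^ (a * n + n) * (2 ^ (a * a * n) * n.factorial ^ a) * n.factorial := by gcongr
      _ = 2 ^ (a * n + n + a * a * n) * n.factorial ^ (a + 1) := by ring
      _ ≤ _ := by
        gcongr
        · norm_num
        · nlinarith [Nat.zero_le (a * n)]

lemma fact_pow_le (n : ℕ) : ∀ a : ℕ, n.factorial ^ a ≤ (a * n).factorial := by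
  intro a
  induction a with
  | zero => simp
  | succ a ih =>
    rw [Nat.succ_mul, pow_succ]
    exact (Nat.mul_le_mul_right _ ih).trans
      (Nat.le_of_dvd (Nat.factorial_pos _) (Nat.factorial_mul_factorial_dvd_factorial_add _ _))

lemma lcm_le (n : ℕ) : (Nat.lcmUpto n : ℝ) ≤ Real.exp (6 * n) := by
  have h1 := Chebyshev.psi_le_const_mul_self (x := n) (by positivity)
  rw [Chebyshev.psi_eq_log_lcmUpto] at h1
  have h2 : Real.log 4 ≤ 2 := by
    have := Real.log_le_sub_one_of_pos (x := 2) (by norm_num)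
    rw [show (4 : ℝ) = 2 ^ 2 by norm_num, Real.log_pow]
    push_cast
    linarith
  rw [← Real.log_le_iff_le_exp (by exact_mod_cast Nat.lcmUpto_pos n)]
  nlinarith [Nat.cast_nonneg (α := ℝ) n]

lemma node_weight (N s r : ℕ) (hs : s < N) {i k : ℕ} (hi : i ≤ s) (hk : k ≤ r) :
    ∃ z : ℤ, |z| ≤ 2 ^ r * (2 ^ r * Nat.lcmUpto (N * (r + 1))) ^ s ∧
      ((r.factorial : ℝ) * N ^ r) ^ (s + 1) * (Nat.lcmUpto (N * (r + 1)) : ℝ) ^ s /
        ∏ q ∈ (range (s + 1) ×ˢ range (r + 1)).erase (i, k),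
          ((i : ℝ) + N * k - (q.1 + N * q.2)) = z := by
  have hN : 0 < N := by omega
  have hNr : (0 : ℝ) < N := by exact_mod_cast hN
  have h1 : ∀ i' ∈ (range (s + 1)).erase i, ∃ z : ℤ,
      |z| ≤ 2 ^ r * Nat.lcmUpto (N * (r + 1)) ∧
      (r.factorial : ℝ) * N ^ r * Nat.lcmUpto (N * (r + 1)) /
        ∏ l ∈ range (r + 1), ((i : ℝ) + N * k - (i' + N * l)) = z := by
    intro i' hi'
    have h2 := mem_erase.mp hi'
    have h3 := mem_range.mp h2.2
    obtain ⟨z, hz, hz'⟩ := frac_int N r hN ((i : ℤ) - i') (by omega)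
      (by rw [abs_lt]; constructor <;> omega) k hk
    refine ⟨z, hz, hz' ▸ ?_⟩
    congr 1
    exact prod_congr rfl fun l _ => by push_cast; ring
  choose! y hy hy' using h1
  obtain ⟨w, hw, hw'⟩ := weight_int r k hk
  have hcard : ((range (s + 1)).erase i).card = s := by
    rw [card_erase_of_mem (mem_range.mpr (by omega))]; simp
  refine ⟨w * ∏ i' ∈ (range (s + 1)).erase i, y i', ?_, ?_⟩
  · rw [abs_mul, hw, abs_prod]
    refine mul_le_mul (by exact_mod_cast Nat.choose_le_two_pow r k) ?_ (by positivity)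
      (by positivity)
    refine (prod_le_prod (fun _ _ => abs_nonneg _) hy).trans (by rw [prod_const, hcard])
  · have h2 : (range (s + 1) ×ˢ range (r + 1)).erase (i, k) =
        ({i} ×ˢ (range (r + 1)).erase k) ∪ ((range (s + 1)).erase i ×ˢ range (r + 1)) := by
      ext ⟨a, b⟩
      simp only [mem_erase, mem_product, mem_range, mem_union, mem_singleton, ne_eq,
        Prod.mk.injEq]
      omega
    have h3 : Disjoint ({i} ×ˢ (range (r + 1)).erase k)
        ((range (s + 1)).erase i ×ˢ range (r + 1)) := by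
      rw [disjoint_left]
      rintro ⟨a, b⟩ h4 h5
      simp only [mem_erase, mem_product, mem_singleton] at h4 h5
      exact h5.1.1 h4.1
    have h4 : ∏ l ∈ (range (r + 1)).erase k, ((i : ℝ) + N * k - (i + N * l)) =
        N ^ r * ∏ l ∈ (range (r + 1)).erase k, ((k : ℝ) - l) := by
      have h5 : ((range (r + 1)).erase k).card = r := by
        rw [card_erase_of_mem (mem_range.mpr (by omega))]; simp
      rw [show (N : ℝ) ^ r = ∏ _l ∈ (range (r + 1)).erase k, (N : ℝ) by simp [h5],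
        ← prod_mul_distrib]
      exact prod_congr rfl fun l _ => by ring
    rw [h2, prod_union h3, prod_product, prod_product, prod_singleton, h4]
    push_cast
    rw [← hw', prod_congr rfl fun i' hi' => (hy' i' hi').symm, prod_div_distrib, prod_const, hcard]
    field_simp
    ring

theorem approx (N s : ℕ) (hs : s < N) : ∃ β : ℝ, 0 ≤ β ∧ ∀ r : ℕ, ∃ (z : ℕ × ℕ → ℤ) (E : ℝ),
    (∀ q ∈ range (s + 1) ×ˢ range (r + 1), |(z q : ℝ)| ≤ Real.exp (β * (r + 1))) ∧
    Real.exp (-(β * (r + 1))) ≤ E ∧ E ≤ Real.exp (β * (r + 1)) ∧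
    ∀ u : ℝ, ∃ ζ ∈ Set.Icc (0 : ℝ) (N * (r + 1)),
      ∑ q ∈ range (s + 1) ×ˢ range (r + 1), z q * Real.exp (u * (q.1 + N * q.2)) =
        E * u ^ ((s + 1) * r + s) * Real.exp (u * ζ) := by
  have hN : 0 < N := by omega
  have hNr : (1 : ℝ) ≤ N := by exact_mod_cast hN
  have h2e : (2 : ℝ) ≤ Real.exp 1 := by linarith [Real.add_one_le_exp 1]
  have hpow : ∀ n : ℕ, (2 : ℝ) ^ n ≤ Real.exp n := fun n => by
    rw [← mul_one (n : ℝ), Real.exp_nat_mul]
    gcongr
  have hNe : (N : ℝ) ≤ Real.exp N := by linarith [Real.add_one_le_exp (N : ℝ)]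
  refine ⟨(s + 1) * (s + 2) + 7 * N * (s + 1), by positivity, fun r => ?_⟩
  set Λ := Nat.lcmUpto (N * (r + 1)) with hΛ
  have hΛ1 : (1 : ℝ) ≤ Λ := by exact_mod_cast Nat.lcmUpto_pos _
  have hΛ2 : (Λ : ℝ) ≤ Real.exp (6 * (N * (r + 1))) := by
    have := lcm_le (N * (r + 1))
    push_cast at this
    exact this
  have hs0 : (0 : ℝ) ≤ s := by positivity
  have hr0 : (0 : ℝ) ≤ r := by positivity
  have h1 : ∀ q ∈ range (s + 1) ×ˢ range (r + 1), ∃ z : ℤ, |z| ≤ 2 ^ r * (2 ^ r * Λ) ^ s ∧
      ((r.factorial : ℝ) * N ^ r) ^ (s + 1) * (Λ : ℝ) ^ s /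
        ∏ q' ∈ (range (s + 1) ×ˢ range (r + 1)).erase q,
          ((q.1 : ℝ) + N * q.2 - (q'.1 + N * q'.2)) = z := fun q hq =>
    node_weight N s r hs (Nat.lt_succ_iff.mp (mem_range.mp (mem_product.mp hq).1))
      (Nat.lt_succ_iff.mp (mem_range.mp (mem_product.mp hq).2))
  choose! z hz hz' using h1
  refine ⟨z, ((r.factorial : ℝ) * N ^ r) ^ (s + 1) * (Λ : ℝ) ^ s /
    ((s + 1) * r + s).factorial, fun q hq => ?_, ?_, ?_, fun u => ?_⟩
  · have h2 : |(z q : ℝ)| ≤ 2 ^ r * (2 ^ r * Λ) ^ s := by exact_mod_cast hz q hq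
    refine h2.trans ?_
    calc (2 : ℝ) ^ r * (2 ^ r * Λ) ^ s
        ≤ Real.exp r * (Real.exp r * Real.exp (6 * (N * (r + 1)))) ^ s := by
          gcongr <;> exact hpow r
      _ = Real.exp (r + s * (r + 6 * (N * (r + 1)))) := by
          rw [← Real.exp_add, ← Real.exp_nat_mul, ← Real.exp_add]
      _ ≤ _ := by
          gcongr
          nlinarith [mul_nonneg hs0 hr0, mul_nonneg (mul_nonneg hs0 hs0) hr0,
            mul_nonneg (mul_nonneg hs0 hr0) (zero_le_one.trans hNr),
            mul_nonneg hr0 (zero_le_one.trans hNr), mul_nonneg hs0 (zero_le_one.trans hNr),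
            mul_nonneg hs0 hs0]
  · have h2 : ((s + 1) * r + s).factorial ≤
        2 ^ ((s + 1) * (s + 2) * (r + 1)) * r.factorial ^ (s + 1) := by
      calc ((s + 1) * r + s).factorial ≤ ((s + 1) * (r + 1)).factorial :=
            Nat.factorial_le (by nlinarith)
        _ ≤ 2 ^ ((s + 1) * (s + 1) * (r + 1)) * (r + 1).factorial ^ (s + 1) := fact_mul_le _ _
        _ ≤ 2 ^ ((s + 1) * (s + 1) * (r + 1)) * (2 ^ (r + 1) * r.factorial) ^ (s + 1) := by
            rw [Nat.factorial_succ]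
            gcongr
            exact Nat.lt_two_pow_self.le
        _ = _ := by ring
    have h3 : (((s + 1) * r + s).factorial : ℝ) ≤
        Real.exp ((s + 1) * (s + 2) * (r + 1)) * r.factorial ^ (s + 1) := by
      have h4 := hpow ((s + 1) * (s + 2) * (r + 1))
      push_cast at h4
      calc (((s + 1) * r + s).factorial : ℝ) ≤
          2 ^ ((s + 1) * (s + 2) * (r + 1)) * r.factorial ^ (s + 1) := by exact_mod_cast h2
        _ ≤ _ := by gcongr
    rw [le_div_iff₀ (by positivity)]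
    calc _ ≤ Real.exp (-((s + 1) * (s + 2) * (r + 1))) *
          (Real.exp ((s + 1) * (s + 2) * (r + 1)) * r.factorial ^ (s + 1)) := by
          gcongr
          linarith [show (0 : ℝ) ≤ 7 * N * (s + 1) by positivity]
      _ = (r.factorial * 1) ^ (s + 1) * 1 := by
          rw [← mul_assoc, ← Real.exp_add]; simp
      _ ≤ _ := by
          gcongr
          · exact one_le_pow₀ hNr
          · exact one_le_pow₀ hΛ1
  · have h2 : ((r.factorial : ℝ)) ^ (s + 1) ≤ ((s + 1) * r + s).factorial := by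
      exact_mod_cast (fact_pow_le r (s + 1)).trans (Nat.factorial_le (by omega))
    rw [div_le_iff₀ (by positivity), mul_pow]
    calc (r.factorial : ℝ) ^ (s + 1) * ((N : ℝ) ^ r) ^ (s + 1) * (Λ : ℝ) ^ s
        ≤ ((s + 1) * r + s).factorial * (Real.exp N ^ r) ^ (s + 1) *
          Real.exp (6 * (N * (r + 1))) ^ s := by gcongr
      _ = Real.exp ((s + 1 : ℕ) * (r * N) + s * (6 * (N * (r + 1)))) *
          ((s + 1) * r + s).factorial := by
          rw [← Real.exp_nat_mul, ← Real.exp_nat_mul, ← Real.exp_nat_mul, Real.exp_add]; ring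
      _ ≤ _ := by
          gcongr
          push_cast
          nlinarith [mul_nonneg hs0 hr0, mul_nonneg (mul_nonneg hs0 hs0) hr0,
            mul_nonneg (mul_nonneg hs0 hr0) (zero_le_one.trans hNr),
            mul_nonneg hr0 (zero_le_one.trans hNr), mul_nonneg hs0 (zero_le_one.trans hNr),
            mul_nonneg hs0 hs0]
  · obtain ⟨ζ, hζ, h⟩ := dd_exp (range (s + 1) ×ˢ range (r + 1))
      (fun q : ℕ × ℕ => (q.1 : ℝ) + N * q.2) (fun q hq q' hq' e => by
        have h2 := mem_range.mp (mem_product.mp hq).1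
        have h3 := mem_range.mp (mem_product.mp hq').1
        have h4 : q.1 + N * q.2 = q'.1 + N * q'.2 := by
          simp only at e
          exact_mod_cast e
        have h5 := congrArg (· % N) h4
        simp only [Nat.add_mul_mod_self_left, Nat.mod_eq_of_lt (show q.1 < N by omega),
          Nat.mod_eq_of_lt (show q'.1 < N by omega)] at h5
        rw [h5] at h4
        exact Prod.ext h5 (Nat.eq_of_mul_eq_mul_left hN (Nat.add_left_cancel h4)))
      (m := (s + 1) * r + s) (by simp; ring) (L := N * (r + 1)) (fun q hq => by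
        have h2 : (q.1 : ℝ) ≤ N := by
          have := mem_range.mp (mem_product.mp hq).1
          exact_mod_cast (by omega)
        have h3 : (q.2 : ℝ) ≤ r := by
          have := mem_range.mp (mem_product.mp hq).2
          exact_mod_cast (by omega)
        exact ⟨by positivity, by nlinarith⟩) u
    refine ⟨ζ, hζ, ?_⟩
    rw [sum_congr rfl fun q hq => by rw [← hz' q hq, div_mul_comm, mul_comm], ← mul_sum, h]
    ring

end Pool.Agent.Work.MP_997ab3_co.F
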